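import Pool.Agent.Lib.MP_c37a72_al.EG.Spec

/-!
# ADA: the adjoint actions are actions and `Q` is a module algebra
-/

set_option autoImplicit false

open scoped TensorProduct
open Coalgebra HopfAlgebra WithConv

namespace Pool.Agent.Lib.MP_c37a72_al.EG

universe u v w

namespace ADAM

section Conv

variable {k : Type u} {H : Type v} {Q : Type w} [Field k] [Ring H] [HopfAlgebra k H]
  [Ring Q] [Algebra k Q]

/-- `ι` in the convolution algebra -/
noncomputable def cI (ι : H →ₐ[k] Q) : WithConv (H →ₗ[k] Q) := toConv ι.toLinearMap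

/-- `ι ∘ S` in the convolution algebra -/
noncomputable def cS (ι : H →ₐ[k] Q) : WithConv (H →ₗ[k] Q) :=
  toConv (ι.toLinearMap ∘ₗ antipode k)

/-- `h ↦ ε(h) q` in the convolution algebra -/
noncomputable def cst (k : Type u) (H : Type v) {Q : Type w} [Field k] [Ring H] [HopfAlgebra k H]
    [Ring Q] [Algebra k Q] (q : Q) : WithConv (H →ₗ[k] Q) :=
  toConv (LinearMap.toSpanSingleton k Q q ∘ₗ counit)

@[simp] lemma cI_apply (ι : H →ₐ[k] Q) (h : H) : cI ι h = ι h := rfl

@[simp] lemma cS_apply (ι : H →ₐ[k] Q) (h : H) : cS ι h = ι (antipode k h) := rfl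

@[simp] lemma cst_apply (q : Q) (h : H) : cst k H q h = counit (R := k) h • q := rfl

lemma conv_apply (f g : WithConv (H →ₗ[k] Q)) {n : ℕ} {h : H} {x y : Fin n → H}
    (e : comul (R := k) h = ∑ i, x i ⊗ₜ[k] y i) : (f * g) h = ∑ i, f (x i) * g (y i) := by
  rw [LinearMap.convMul_apply, e, map_sum, map_sum]
  rfl

lemma cst_mul_apply (q : Q) (f : WithConv (H →ₗ[k] Q)) (h : H) : (cst k H q * f) h = q * f h := by
  conv_rhs => rw [← one_mul f]
  rw [(ℛ k h).convMul_apply, (ℛ k h).convMul_apply, Finset.mul_sum]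
  refine Finset.sum_congr rfl fun i _ => ?_
  rw [LinearMap.convOne_apply, cst_apply, Algebra.algebraMap_eq_smul_one]
  simp

lemma mul_cst_apply (q : Q) (f : WithConv (H →ₗ[k] Q)) (h : H) : (f * cst k H q) h = f h * q := by
  conv_rhs => rw [← mul_one f]
  rw [(ℛ k h).convMul_apply, (ℛ k h).convMul_apply, Finset.sum_mul]
  refine Finset.sum_congr rfl fun i _ => ?_
  rw [LinearMap.convOne_apply, cst_apply, Algebra.algebraMap_eq_smul_one]
  simp

lemma conv_ext {f g : WithConv (H →ₗ[k] Q)} (h : ∀ x, f x = g x) : f = g :=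
  WithConv.ext (LinearMap.ext h)

lemma cst_mul_cst (p q : Q) : cst k H p * cst k H q = cst k H (p * q) :=
  conv_ext fun h => by
    rw [mul_cst_apply, cst_apply, cst_apply, smul_mul_assoc]

lemma cst_one : cst k H (1 : Q) = 1 :=
  conv_ext fun h => by
    rw [LinearMap.convOne_apply, cst_apply, Algebra.algebraMap_eq_smul_one]

lemma cI_mul_cS (ι : H →ₐ[k] Q) : cI ι * cS ι = 1 :=
  conv_ext fun h => by
    rw [(ℛ k h).convMul_apply, LinearMap.convOne_apply]
    simp only [cI_apply, cS_apply, ← map_mul]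
    rw [← map_sum, sum_mul_antipode_eq_algebraMap_counit, AlgHom.commutes]

lemma cS_mul_cI (ι : H →ₐ[k] Q) : cS ι * cI ι = 1 :=
  conv_ext fun h => by
    rw [(ℛ k h).convMul_apply, LinearMap.convOne_apply]
    simp only [cI_apply, cS_apply, ← map_mul]
    rw [← map_sum, sum_antipode_mul_eq_algebraMap_counit, AlgHom.commutes]

/-- the left adjoint action as a convolution product -/
noncomputable def cL (ι : H →ₐ[k] Q) (q : Q) : WithConv (H →ₗ[k] Q) := cI ι * cst k H q * cS ι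

/-- the right adjoint action as a convolution product -/
noncomputable def cR (ι : H →ₐ[k] Q) (q : Q) : WithConv (H →ₗ[k] Q) := cS ι * cst k H q * cI ι

lemma cL_apply_repr (ι : H →ₐ[k] Q) (q : Q) {n : ℕ} {h : H} {x y : Fin n → H}
    (e : comul (R := k) h = ∑ i, x i ⊗ₜ[k] y i) :
    cL ι q h = ∑ i, ι (x i) * q * ι (antipode k (y i)) := by
  rw [cL, conv_apply _ _ e]
  exact Finset.sum_congr rfl fun i _ => by rw [mul_cst_apply, cI_apply, cS_apply]

lemma cR_apply_repr (ι : H →ₐ[k] Q) (q : Q) {n : ℕ} {h : H} {x y : Fin n → H}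
    (e : comul (R := k) h = ∑ i, x i ⊗ₜ[k] y i) :
    cR ι q h = ∑ i, ι (antipode k (x i)) * q * ι (y i) := by
  rw [cR, conv_apply _ _ e]
  exact Finset.sum_congr rfl fun i _ => by rw [mul_cst_apply, cI_apply, cS_apply]

/-- every coproduct is a finite sum indexed by `Fin n` -/
lemma exists_repr (k : Type u) {H : Type v} [Field k] [Ring H] [HopfAlgebra k H] (h : H) :
    ∃ (n : ℕ) (x y : Fin n → H), comul (R := k) h = ∑ i, x i ⊗ₜ[k] y i := by
  obtain ⟨s, hs⟩ := TensorProduct.exists_finset (R := k) (comul (R := k) h)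
  refine ⟨s.card, fun i => (s.equivFin.symm i : H × H).1, fun i => (s.equivFin.symm i : H × H).2, ?_⟩
  rw [hs, ← Finset.sum_coe_sort s (fun i => i.1 ⊗ₜ[k] i.2)]
  exact (Equiv.sum_comp s.equivFin.symm (fun i : s => (i : H × H).1 ⊗ₜ[k] (i : H × H).2)).symm

lemma cL_mul (ι : H →ₐ[k] Q) (p q : Q) : cL ι p * cL ι q = cL ι (p * q) := by
  rw [cL, cL, cL, ← cst_mul_cst]
  calc cI ι * cst k H p * cS ι * (cI ι * cst k H q * cS ι)
      = cI ι * cst k H p * (cS ι * cI ι) * cst k H q * cS ι := by simp only [mul_assoc]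
    _ = _ := by rw [cS_mul_cI, mul_one]; simp only [mul_assoc]

lemma cR_mul (ι : H →ₐ[k] Q) (p q : Q) : cR ι p * cR ι q = cR ι (p * q) := by
  rw [cR, cR, cR, ← cst_mul_cst]
  calc cS ι * cst k H p * cI ι * (cS ι * cst k H q * cI ι)
      = cS ι * cst k H p * (cI ι * cS ι) * cst k H q * cI ι := by simp only [mul_assoc]
    _ = _ := by rw [cI_mul_cS, mul_one]; simp only [mul_assoc]

lemma cL_one (ι : H →ₐ[k] Q) : cL ι (1 : Q) = 1 := by
  rw [cL, cst_one, mul_one, cI_mul_cS]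

lemma cR_one (ι : H →ₐ[k] Q) : cR ι (1 : Q) = 1 := by
  rw [cR, cst_one, mul_one, cS_mul_cI]

end Conv

section Act

variable {k : Type u} {Z : Type v} {H Q : Type v} [Field k] [Ring H] [HopfAlgebra k H]
  [Field Z] [Algebra k Z] [DivisionRing Q] [Algebra k Q] [Algebra Z Q] [IsScalarTower k Z Q]

lemma adlQ_eq_cL (ι : H →ₐ[k] Q) (h : H) (q : Q) : adlQ k Z ι h q = cL ι q h := by
  obtain ⟨n, x, y, e⟩ := exists_repr k h
  rw [adlQ_eq k Z ι e, cL_apply_repr ι q e]

lemma adrQ_eq_cR (ι : H →ₐ[k] Q) (h : H) (q : Q) : adrQ k Z ι h q = cR ι q h := by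
  obtain ⟨n, x, y, e⟩ := exists_repr k h
  rw [adrQ_eq k Z ι e, cR_apply_repr ι q e]

lemma comul_mul_repr {g h : H} (rg : Coalgebra.Repr k g (H × H)) (rh : Coalgebra.Repr k h (H × H)) :
    comul (R := k) (g * h) = ∑ i ∈ rg.index, ∑ j ∈ rh.index,
      (rg.left i * rh.left j) ⊗ₜ[k] (rg.right i * rh.right j) := by
  rw [Bialgebra.comul_mul, ← rg.eq, ← rh.eq, Finset.sum_mul]
  refine Finset.sum_congr rfl fun i _ => ?_
  rw [Finset.mul_sum]
  exact Finset.sum_congr rfl fun j _ => by rw [Algebra.TensorProduct.tmul_mul_tmul]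

lemma adlQ_mul (ι : H →ₐ[k] Q) (g h : H) :
    adlQ k Z ι (g * h) = adlQ k Z ι g * adlQ k Z ι h := by
  refine LinearMap.ext fun q => ?_
  rw [Module.End.mul_apply, adlQ_repr k Z ι (ℛ k g), adlQ_repr k Z ι (ℛ k h) q, adlQ,
    LinearMap.comp_apply, LinearMap.comp_apply, comul_mul_repr (ℛ k g) (ℛ k h)]
  simp only [map_sum, TensorProduct.map_tmul, LinearMap.sum_apply, lrm_tmul, LinearMap.comp_apply,
    AlgHom.toLinearMap_apply, antipode_mul_antidistrib, map_mul, Finset.mul_sum, Finset.sum_mul,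
    mul_assoc]

lemma adrQ_mul (ι : H →ₐ[k] Q) (g h : H) :
    adrQ k Z ι (g * h) = adrQ k Z ι h * adrQ k Z ι g := by
  refine LinearMap.ext fun q => ?_
  rw [Module.End.mul_apply, adrQ_repr k Z ι (ℛ k h), adrQ_repr k Z ι (ℛ k g) q, adrQ,
    LinearMap.comp_apply, LinearMap.comp_apply, comul_mul_repr (ℛ k g) (ℛ k h)]
  simp only [map_sum, TensorProduct.map_tmul, LinearMap.sum_apply, lrm_tmul, LinearMap.comp_apply,
    AlgHom.toLinearMap_apply, antipode_mul_antidistrib, map_mul, Finset.mul_sum, Finset.sum_mul,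
    mul_assoc]
  rw [Finset.sum_comm]

end Act

end ADAM

open ADAM in
/-- **ADA**. -/
theorem specADA : SpecADA.{u, v} := by
  intro k H Z Q _ _ _ _ _ _ _ _ _ ι
  have e1 : comul (R := k) (1 : H) = ∑ i : Fin 1, (fun _ => (1 : H)) i ⊗ₜ[k] (fun _ => (1 : H)) i := by
    simp [Bialgebra.comul_one, Algebra.TensorProduct.one_def]
  refine ⟨⟨?_, ?_⟩, ?_, ?_, ?_⟩
  · refine LinearMap.ext fun q => ?_
    rw [adlQ_eq k Z ι e1]
    simp
  · refine LinearMap.ext fun q => ?_
    rw [adrQ_eq k Z ι e1]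
    simp
  · exact fun g h => ⟨adlQ_mul ι g h, adrQ_mul ι g h⟩
  · intro h n x y e p q
    constructor
    · rw [adlQ_eq_cL, ← cL_mul, conv_apply _ _ e]
      exact Finset.sum_congr rfl fun i _ => by rw [adlQ_eq_cL, adlQ_eq_cL]
    · rw [adrQ_eq_cR, ← cR_mul, conv_apply _ _ e]
      exact Finset.sum_congr rfl fun i _ => by rw [adrQ_eq_cR, adrQ_eq_cR]
  · intro h
    constructor
    · rw [adlQ_eq_cL, cL_one, LinearMap.convOne_apply]
    · rw [adrQ_eq_cR, cR_one, LinearMap.convOne_apply]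

end Pool.Agent.Lib.MP_c37a72_al.EG
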