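import Pool.Agent.Lib.MP_c37a72_al.EG.ADA

/-!
# ADB: commutation rules for the adjoint actions
-/

set_option autoImplicit false

open scoped TensorProduct
open Coalgebra HopfAlgebra WithConv

namespace Pool.Agent.Lib.MP_c37a72_al.EG

universe u v w

namespace ADBM

open ADAM

section Conv

variable {k : Type u} {H : Type v} {Q : Type w} [Field k] [Ring H] [HopfAlgebra k H]
  [Ring Q] [Algebra k Q]

lemma cL_mul_cI (ι : H →ₐ[k] Q) (q : Q) : cL ι q * cI ι = cI ι * cst k H q := by
  rw [cL, mul_assoc, cS_mul_cI, mul_one]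

lemma cI_mul_cR (ι : H →ₐ[k] Q) (q : Q) : cI ι * cR ι q = cst k H q * cI ι := by
  rw [cR, mul_assoc, ← mul_assoc (cI ι), cI_mul_cS, one_mul]

lemma cS_mul_cL (ι : H →ₐ[k] Q) (q : Q) : cS ι * cL ι q = cst k H q * cS ι := by
  rw [cL, mul_assoc, ← mul_assoc (cS ι), cS_mul_cI, one_mul]

lemma cR_mul_cS (ι : H →ₐ[k] Q) (q : Q) : cR ι q * cS ι = cS ι * cst k H q := by
  rw [cR, mul_assoc, cI_mul_cS, mul_one]

/-- the inverse of the antipode as a linear map -/
noncomputable def aInv (k : Type u) (H : Type v) [Field k] [Ring H] [HopfAlgebra k H]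
    (hb : Function.Bijective (antipode k (A := H))) : H ≃ₗ[k] H :=
  (LinearEquiv.ofBijective (antipode k) hb).symm

lemma antipode_aInv (hb : Function.Bijective (antipode k (A := H))) (h : H) :
    antipode k (aInv k H hb h) = h :=
  (LinearEquiv.ofBijective (antipode k) hb).apply_symm_apply h

lemma aInv_antipode (hb : Function.Bijective (antipode k (A := H))) (h : H) :
    aInv k H hb (antipode k h) = h :=
  (LinearEquiv.ofBijective (antipode k) hb).symm_apply_apply h

lemma comul_aInv (hHAN : SpecHAN.{u, v}) (hb : Function.Bijective (antipode k (A := H))) (h : H) :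
    comul (R := k) (aInv k H hb h) = TensorProduct.comm k H H (TensorProduct.map
      (aInv k H hb).toLinearMap (aInv k H hb).toLinearMap (comul (R := k) h)) := by
  have h1 := hHAN k H (aInv k H hb h)
  rw [antipode_aInv] at h1
  rw [h1]
  generalize comul (R := k) (aInv k H hb h) = t
  induction t with
  | zero => simp
  | tmul x y => simp [aInv_antipode]
  | add u v hu hv => rw [map_add, map_add, map_add, map_add, ← hu, ← hv]

/-- `T(h₂) h₁ = ε(h)` -/
lemma sum_aInv_mul (hb : Function.Bijective (antipode k (A := H))) {n : ℕ} {h : H}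
    {x y : Fin n → H} (e : comul (R := k) h = ∑ i, x i ⊗ₜ[k] y i) :
    ∑ i, aInv k H hb (y i) * x i = algebraMap k H (counit h) := by
  apply hb.1
  rw [map_sum]
  have h1 : ∀ i, antipode k (aInv k H hb (y i) * x i) = antipode k (x i) * y i := fun i => by
    rw [antipode_mul_antidistrib, antipode_aInv]
  rw [Finset.sum_congr rfl fun i _ => h1 i]
  have h2 := mul_antipode_rTensor_comul_apply (R := k) h
  rw [e, map_sum, map_sum] at h2
  simp only [LinearMap.rTensor_tmul, LinearMap.mul'_apply] at h2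
  rw [h2, Algebra.algebraMap_eq_smul_one, map_smul, antipode_one]

end Conv

end ADBM

open ADAM ADBM in
/-- **ADB**. -/
theorem specADB (hHAN : SpecHAN.{u, v}) : SpecADB.{u, v} := by
  intro k H Z Q _ _ _ _ _ _ _ _ _ ι h n x y e q
  refine ⟨?_, ?_, ?_, ?_, ?_⟩
  · rw [← cI_apply ι h, ← mul_cst_apply, ← cL_mul_cI, conv_apply _ _ e]
    exact Finset.sum_congr rfl fun i _ => by rw [adlQ_eq_cL, cI_apply]
  · rw [← cI_apply ι h, ← cst_mul_apply, ← cI_mul_cR, conv_apply _ _ e]
    exact Finset.sum_congr rfl fun i _ => by rw [adrQ_eq_cR, cI_apply]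
  · rw [← cS_apply ι h, ← cst_mul_apply, ← cS_mul_cL, conv_apply _ _ e]
    exact Finset.sum_congr rfl fun i _ => by rw [adlQ_eq_cL, cS_apply]
  · rw [← cS_apply ι h, ← mul_cst_apply, ← cR_mul_cS, conv_apply _ _ e]
    exact Finset.sum_congr rfl fun i _ => by rw [adrQ_eq_cR, cS_apply]
  · intro hb s hs
    have hs' : ∀ i, s i = aInv k H hb (y i) := fun i => by rw [← hs i, aInv_antipode]
    -- the bilinear map `a ⊗ (b ⊗ c) ↦ c q T(b) a`
    let F : H ⊗[k] (H ⊗[k] H) →ₗ[k] Q := TensorProduct.lift
      (LinearMap.mk₂ k (fun (a : H) (t : H ⊗[k] H) =>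
        (LinearMap.mul' k Q (TensorProduct.map (LinearMap.mulRight k q ∘ₗ ι.toLinearMap)
          (ι.toLinearMap ∘ₗ (aInv k H hb).toLinearMap) (TensorProduct.comm k H H t))) * ι a)
        (fun a a' t => by simp [mul_add])
        (fun c a t => by simp)
        (fun a t t' => by simp [add_mul])
        (fun c a t => by simp))
    have hF : ∀ a b c : H, F (a ⊗ₜ[k] (b ⊗ₜ[k] c)) = ι c * q * ι (aInv k H hb b) * ι a := by
      intro a b c
      simp [F]
    have h1 : ∀ i, adrQ k Z ι (s i) q * ι (x i) = F (x i ⊗ₜ[k] comul (R := k) (y i)) := by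
      intro i
      obtain ⟨m, x', y', e'⟩ := exists_repr k (y i)
      have e2 : comul (R := k) (s i) = ∑ j, aInv k H hb (y' j) ⊗ₜ[k] aInv k H hb (x' j) := by
        rw [hs' i, comul_aInv hHAN hb, e', map_sum, map_sum]
        exact Finset.sum_congr rfl fun j _ => rfl
      rw [adrQ_eq k Z ι e2, e', TensorProduct.tmul_sum, map_sum, Finset.sum_mul]
      exact Finset.sum_congr rfl fun j _ => by rw [hF, antipode_aInv]
    rw [Finset.sum_congr rfl fun i _ => h1 i, ← map_sum]
    have h2 : ∑ i, x i ⊗ₜ[k] comul (R := k) (y i) =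
        TensorProduct.assoc k H H H (∑ i, comul (R := k) (x i) ⊗ₜ[k] y i) := by
      have := coassoc_apply (R := k) h
      rw [e, map_sum, map_sum, map_sum] at this
      simp only [LinearMap.rTensor_tmul, LinearMap.lTensor_tmul] at this
      rw [map_sum, this]
    have h3 : ∀ i, F (TensorProduct.assoc k H H H (comul (R := k) (x i) ⊗ₜ[k] y i)) =
        counit (R := k) (x i) • (ι (y i) * q) := by
      intro i
      obtain ⟨m, x', y', e'⟩ := exists_repr k (x i)
      have h4 := sum_aInv_mul hb e'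
      rw [e', TensorProduct.sum_tmul, map_sum, map_sum]
      have h5 : ∀ j, F (TensorProduct.assoc k H H H ((x' j ⊗ₜ[k] y' j) ⊗ₜ[k] y i)) =
          (ι (y i) * q) * ι (aInv k H hb (y' j) * x' j) := by
        intro j
        rw [TensorProduct.assoc_tmul, hF, map_mul]
        simp only [mul_assoc]
      rw [Finset.sum_congr rfl fun j _ => h5 j, ← Finset.mul_sum, ← map_sum, h4, AlgHom.commutes,
        ← Algebra.commutes, Algebra.smul_def]
    rw [h2, map_sum, map_sum, Finset.sum_congr rfl fun i _ => h3 i]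
    have h6 := sum_counit_smul (R := k) (a := h)
      (⟨Finset.univ, x, y, e.symm⟩ : Coalgebra.Repr k h (Fin n))
    simp only at h6
    conv_lhs => rw [← h6]
    rw [map_sum, Finset.sum_mul]
    exact Finset.sum_congr rfl fun i _ => by rw [map_smul, smul_mul_assoc]

end Pool.Agent.Lib.MP_c37a72_al.EG
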