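import Pool.Agent.Lib.MP_c37a72_al.EG.ADA

/-!
# BID: a two-sided ideal and coideal of finite codimension in a Hopf algebra is a Hopf ideal
-/

set_option autoImplicit false

open scoped TensorProduct
open Coalgebra HopfAlgebra WithConv

namespace Pool.Agent.Lib.MP_c37a72_al.EG

universe u v w

namespace BIDM

open ADAM

/-- `u ⊗ v ↦ u₁ ⊗ u₂ v` -/
noncomputable def beta (k : Type u) (A : Type v) [Field k] [Ring A] [Bialgebra k A] :
    A ⊗[k] A →ₗ[k] A ⊗[k] A :=
  TensorProduct.lift (LinearMap.mk₂ k (fun a b : A => comul (R := k) a * ((1 : A) ⊗ₜ[k] b))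
    (fun a a' b => by rw [map_add, add_mul])
    (fun c a b => by rw [map_smul, smul_mul_assoc])
    (fun a b b' => by rw [TensorProduct.tmul_add, mul_add])
    (fun c a b => by rw [TensorProduct.tmul_smul, mul_smul_comm]))

lemma beta_tmul (k : Type u) (A : Type v) [Field k] [Ring A] [Bialgebra k A] (a b : A) :
    beta k A (a ⊗ₜ[k] b) = comul (R := k) a * ((1 : A) ⊗ₜ[k] b) := by
  simp [beta]

/-- `h₁ ⊗ h₂ S(h₃) = h ⊗ 1` -/
lemma key {k : Type u} {H : Type v} [Field k] [Ring H] [HopfAlgebra k H] {n : ℕ} {h : H}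
    {x y : Fin n → H} (e : comul (R := k) h = ∑ i, x i ⊗ₜ[k] y i) :
    ∑ i, comul (R := k) (x i) * ((1 : H) ⊗ₜ[k] antipode k (y i)) = h ⊗ₜ[k] (1 : H) := by
  have h1 : cI (Algebra.TensorProduct.includeLeft : H →ₐ[k] H ⊗[k] H) *
      cI (Algebra.TensorProduct.includeRight : H →ₐ[k] H ⊗[k] H) = toConv (comul (R := k)) := by
    refine conv_ext fun g => ?_
    obtain ⟨m, x', y', e'⟩ := exists_repr k g
    rw [conv_apply _ _ e']
    have : (toConv (comul (R := k) (A := H)) : WithConv (H →ₗ[k] H ⊗[k] H)) g =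
        comul (R := k) g := rfl
    rw [this, e']
    refine Finset.sum_congr rfl fun i _ => ?_
    simp
  have h2 : toConv (comul (R := k) (A := H)) *
      cS (Algebra.TensorProduct.includeRight : H →ₐ[k] H ⊗[k] H) =
      cI (Algebra.TensorProduct.includeLeft : H →ₐ[k] H ⊗[k] H) := by
    rw [← h1, mul_assoc, cI_mul_cS, mul_one]
  have h3 := congrArg (fun f : WithConv (H →ₗ[k] H ⊗[k] H) => f h) h2
  simp only [conv_apply _ _ e] at h3
  simpa using h3

end BIDM

open ADAM BIDM in
/-- **BID**. -/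
theorem specBID : SpecBID.{u, v} := by
  intro k H _ _ _ J _ hco hfin
  have := hco
  have := hfin
  let π := (Ideal.Quotient.mkₐ k J).toLinearMap
  have hπ : ∀ a, π a = Ideal.Quotient.mk J a := fun a => rfl
  have hβ : ∀ t : H ⊗[k] H, beta k (H ⧸ J) (TensorProduct.map π π t) =
      TensorProduct.map π π (beta k H t) := by
    intro t
    induction t with
    | zero => simp
    | add a b ha hb => rw [map_add, map_add, map_add, map_add, ha, hb]
    | tmul a b =>
      rw [TensorProduct.map_tmul, beta_tmul, beta_tmul, hπ a, Bialgebra.Quotient.comul_mk]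
      obtain ⟨n, x, y, e⟩ := exists_repr k a
      rw [e, map_sum, Finset.sum_mul, Finset.sum_mul, map_sum]
      refine Finset.sum_congr rfl fun i _ => ?_
      rw [TensorProduct.map_tmul, Algebra.TensorProduct.tmul_mul_tmul,
        Algebra.TensorProduct.tmul_mul_tmul, TensorProduct.map_tmul, mul_one, mul_one]
      simp [π]
  have hsurjH : Function.Surjective (beta k H) := by
    intro t
    induction t with
    | zero => exact ⟨0, map_zero _⟩
    | add a b ha hb =>
      obtain ⟨a', rfl⟩ := ha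
      obtain ⟨b', rfl⟩ := hb
      exact ⟨a' + b', map_add _ _ _⟩
    | tmul a b =>
      obtain ⟨n, x, y, e⟩ := exists_repr k a
      refine ⟨∑ i, x i ⊗ₜ[k] (antipode k (y i) * b), ?_⟩
      rw [map_sum]
      have h1 : ∀ i, beta k H (x i ⊗ₜ[k] (antipode k (y i) * b)) =
          (comul (R := k) (x i) * ((1 : H) ⊗ₜ[k] antipode k (y i))) * ((1 : H) ⊗ₜ[k] b) := by
        intro i
        rw [beta_tmul, mul_assoc, Algebra.TensorProduct.tmul_mul_tmul, mul_one]
      rw [Finset.sum_congr rfl fun i _ => h1 i, ← Finset.sum_mul, key e,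
        Algebra.TensorProduct.tmul_mul_tmul, one_mul, mul_one]
  have hππ : Function.Surjective (TensorProduct.map π π) :=
    TensorProduct.map_surjective Ideal.Quotient.mk_surjective Ideal.Quotient.mk_surjective
  have hsurjU : Function.Surjective (beta k (H ⧸ J)) := by
    intro w
    obtain ⟨t, rfl⟩ := hππ w
    obtain ⟨s, rfl⟩ := hsurjH t
    exact ⟨TensorProduct.map π π s, hβ s⟩
  have hinjU : Function.Injective (beta k (H ⧸ J)) :=
    LinearMap.injective_iff_surjective.2 hsurjU
  refine { hco with antipode_mem := fun h hh => ?_ }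
  obtain ⟨n, x, y, e⟩ := exists_repr k h
  have h1 : beta k H (∑ i, x i ⊗ₜ[k] antipode k (y i)) = h ⊗ₜ[k] (1 : H) := by
    rw [map_sum, ← key e]
    exact Finset.sum_congr rfl fun i _ => beta_tmul k H _ _
  have h2 : beta k (H ⧸ J) (TensorProduct.map π π (∑ i, x i ⊗ₜ[k] antipode k (y i))) = 0 := by
    rw [hβ, h1, TensorProduct.map_tmul, hπ h, Ideal.Quotient.eq_zero_iff_mem.2 hh,
      TensorProduct.zero_tmul]
  have h3 : TensorProduct.map π π (∑ i, x i ⊗ₜ[k] antipode k (y i)) = 0 :=
    hinjU (by rw [h2, map_zero])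
  have h4 := congrArg (fun t => TensorProduct.lid k (H ⧸ J)
    (LinearMap.rTensor (H ⧸ J) (counit (R := k) (A := H ⧸ J)) t)) h3
  simp only [map_sum, TensorProduct.map_tmul, LinearMap.rTensor_tmul, TensorProduct.lid_tmul,
    map_zero] at h4
  rw [← Ideal.Quotient.eq_zero_iff_mem]
  have h5 := sum_counit_smul (R := k) (a := h)
    (⟨Finset.univ, x, y, e.symm⟩ : Coalgebra.Repr k h (Fin n))
  simp only at h5
  rw [← h4]
  conv_lhs => rw [← h5]
  rw [map_sum, ← hπ, map_sum]
  refine Finset.sum_congr rfl fun i _ => ?_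
  rw [map_smul, map_smul]
  rfl

end Pool.Agent.Lib.MP_c37a72_al.EG
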