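import Pool.Agent.Lib.MP_c37a72_al.EG.NUA

/-!
# MP_c37a72_al, block EG, module DNS (helper28)

Density: every `Z`-linear endomorphism of `O''` is `x ↦ ∑ (x ◁ h_j) b_j` (Jacobson density).
-/

set_option autoImplicit false

open scoped TensorProduct
open Coalgebra HopfAlgebra

namespace Pool.Agent.Lib.MP_c37a72_al.EG

universe u v w

namespace DNSM

section
variable {k : Type u} {Z : Type v} {H Q : Type v} [Field k] [Ring H] [HopfAlgebra k H]
  [Field Z] [Algebra k Z] [DivisionRing Q] [Algebra k Q] [Algebra Z Q] [IsScalarTower k Z Q]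

/-- `x ↦ (x ◁ h) b` on a stable subalgebra `D` -/
noncomputable def gen (A : H →ₗ[k] Module.End Z Q) (D : Subalgebra Z Q)
    (hst : ∀ h : H, ∀ x ∈ D, A h x ∈ D) (h : H) (b : ↥D) : Module.End Z ↥D where
  toFun x := ⟨A h x, hst h x x.2⟩ * b
  map_add' x y := by
    apply Subtype.ext
    simp [add_mul]
  map_smul' z x := by
    apply Subtype.ext
    simp

theorem gen_apply (A : H →ₗ[k] Module.End Z Q) (D : Subalgebra Z Q)
    (hst : ∀ h : H, ∀ x ∈ D, A h x ∈ D) (h : H) (b x : ↥D) :
    (gen A D hst h b x : Q) = A h x * b := rfl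

/-- the additive group of operators -/
noncomputable def S (A : H →ₗ[k] Module.End Z Q) (D : Subalgebra Z Q)
    (hst : ∀ h : H, ∀ x ∈ D, A h x ∈ D) : AddSubgroup (Module.End Z ↥D) :=
  AddSubgroup.closure {T | ∃ h b, T = gen A D hst h b}

theorem gen_mem (A : H →ₗ[k] Module.End Z Q) (D : Subalgebra Z Q)
    (hst : ∀ h : H, ∀ x ∈ D, A h x ∈ D) (h : H) (b : ↥D) : gen A D hst h b ∈ S A D hst :=
  AddSubgroup.subset_closure ⟨h, b, rfl⟩

theorem rep {A : H →ₗ[k] Module.End Z Q} {D : Subalgebra Z Q}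
    {hst : ∀ h : H, ∀ x ∈ D, A h x ∈ D} {T : Module.End Z ↥D} (hT : T ∈ S A D hst) :
    ∃ (n : ℕ) (h : Fin n → H) (b : Fin n → ↥D), ∀ x : ↥D,
      (T x : Q) = ∑ j, A (h j) (x : Q) * (b j : Q) := by
  induction hT using AddSubgroup.closure_induction with
  | mem T hT =>
    obtain ⟨h, b, rfl⟩ := hT
    exact ⟨1, fun _ => h, fun _ => b, fun x => by simp [gen_apply]⟩
  | zero => exact ⟨0, Fin.elim0, Fin.elim0, fun x => by simp⟩
  | add T T' _ _ h1 h2 =>
    obtain ⟨n, h, b, e⟩ := h1
    obtain ⟨n', h', b', e'⟩ := h2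
    refine ⟨n + n', Fin.append h h', Fin.append b b', fun x => ?_⟩
    rw [Fin.sum_univ_add]
    simp only [Fin.append_left, Fin.append_right]
    rw [← e, ← e']
    simp
  | neg T _ h1 =>
    obtain ⟨n, h, b, e⟩ := h1
    refine ⟨n, h, fun j => - b j, fun x => ?_⟩
    simp only [LinearMap.neg_apply, NegMemClass.coe_neg, mul_neg, Finset.sum_neg_distrib, e x]

/-- closed under composition -/
theorem mul_mem {A : H →ₗ[k] Module.End Z Q} {D : Subalgebra Z Q}
    {hst : ∀ h : H, ∀ x ∈ D, A h x ∈ D}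
    (hm : ∀ g h : H, A (g * h) = A h * A g)
    (hp : ∀ h : H, ∃ (n : ℕ) (x y : Fin n → H), ∀ p q : Q,
      A h (p * q) = ∑ i, A (x i) p * A (y i) q)
    {T T' : Module.End Z ↥D} (hT : T ∈ S A D hst) (hT' : T' ∈ S A D hst) :
    T' * T ∈ S A D hst := by
  induction hT' using AddSubgroup.closure_induction with
  | mem T' hT' =>
    obtain ⟨h', b', rfl⟩ := hT'
    induction hT using AddSubgroup.closure_induction with
    | mem T hT =>
      obtain ⟨h, b, rfl⟩ := hT
      obtain ⟨n, x, y, e⟩ := hp h'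
      have h1 : gen A D hst h' b' * gen A D hst h b =
          ∑ i, gen A D hst (h * x i) (⟨A (y i) b, hst _ _ b.2⟩ * b') := by
        apply LinearMap.ext
        intro z
        apply Subtype.ext
        rw [LinearMap.sum_apply, AddSubmonoidClass.coe_finsetSum]
        show A h' (A h z * b) * b' = _
        rw [e, Finset.sum_mul]
        refine Finset.sum_congr rfl fun i _ => ?_
        rw [gen_apply, hm]
        simp only [Module.End.mul_apply, MulMemClass.coe_mul, mul_assoc]
      rw [h1]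
      exact AddSubgroup.sum_mem _ fun i _ => gen_mem A D hst _ _
    | zero => rw [mul_zero]; exact zero_mem _
    | add T T' _ _ h1 h2 => rw [mul_add]; exact add_mem h1 h2
    | neg T _ h1 =>
      have e : gen A D hst h' b' * -T = -(gen A D hst h' b' * T) := LinearMap.comp_neg _ _
      rw [e]
      exact neg_mem h1
  | zero => rw [zero_mul]; exact zero_mem _
  | add T T' _ _ h1 h2 => rw [add_mul]; exact add_mem h1 h2
  | neg T' _ h1 =>
    have e : -T' * T = -(T' * T) := LinearMap.neg_comp _ _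
    rw [e]
    exact neg_mem h1

end

set_option synthInstance.maxHeartbeats 400000 in
/-- Jacobson density for a finite-dimensional division algebra `M` over `Z` and an additive group `S`
of operators which is a ring containing the right multiplications -/
theorem jac {Z M : Type*} [Field Z] [Ring M] [Nontrivial M] [Algebra Z M] [Module.Finite Z M]
    (S : AddSubgroup (Module.End Z M)) (hone : 1 ∈ S) (hmul : ∀ {a b}, a ∈ S → b ∈ S → a * b ∈ S)
    (hr : ∀ b : M, LinearMap.mulRight Z b ∈ S) (hinv : ∀ x : M, x ≠ 0 → ∃ y : M, x * y = 1)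
    (hfix : ∀ c : M, (∀ T ∈ S, T c = c * T 1) → ∃ z : Z, ∀ x : M, c * x = z • x)
    (φ : Module.End Z M) : φ ∈ S := by
  let R : Subring (Module.End Z M) :=
    { S with
      mul_mem' := fun {a b} ha hb => hmul ha hb
      one_mem' := hone }
  have smul_def : ∀ (r : R) (x : M), r • x = (r : Module.End Z M) x := fun r x => rfl
  have hsimple : IsSimpleModule R M := by
    rw [isSimpleModule_iff_toSpanSingleton_surjective]
    refine ⟨inferInstance, fun x hx y => ?_⟩
    obtain ⟨x', hx'⟩ := hinv x hx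
    refine ⟨⟨LinearMap.mulRight Z (x' * y), hr _⟩, ?_⟩
    rw [LinearMap.toSpanSingleton_apply, smul_def]
    show x * (x' * y) = y
    rw [← mul_assoc, hx', one_mul]
  have hend : ∀ g : Module.End R M, ∃ z : Z, ∀ x : M, g x = z • x := by
    intro g
    have e1 : ∀ x : M, g x = g 1 * x := by
      intro x
      have e2 : g ((⟨LinearMap.mulRight Z x, hr x⟩ : R) • (1 : M)) =
          (⟨LinearMap.mulRight Z x, hr x⟩ : R) • g 1 := map_smul g _ 1
      rw [smul_def, smul_def] at e2
      simpa using e2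
    obtain ⟨z, hz⟩ := hfix (g 1) (by
      intro T hT
      have e2 : g ((⟨T, hT⟩ : R) • (1 : M)) = (⟨T, hT⟩ : R) • g 1 := map_smul g _ 1
      rw [smul_def, smul_def, e1] at e2
      exact e2.symm)
    exact ⟨z, fun x => by rw [e1, hz]⟩
  let f : Module.End (Module.End R M) M :=
    { toFun := φ
      map_add' := map_add φ
      map_smul' := by
        intro g x
        obtain ⟨z, hz⟩ := hend g
        show φ (g x) = g (φ x)
        rw [hz, hz, map_smul] }
  classical
  obtain ⟨r, hr'⟩ := jacobson_density f (Finset.univ.image (Module.finBasis Z M))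
  have hφ : φ = (r : Module.End Z M) := by
    apply (Module.finBasis Z M).ext
    intro i
    exact hr' _ (Finset.mem_image_of_mem _ (Finset.mem_univ i))
  rw [hφ]
  exact r.2

section
variable {k : Type u} {Z : Type v} {H Q : Type v} [Field k] [Ring H] [HopfAlgebra k H]
  [Field Z] [Algebra k Z] [DivisionRing Q] [Algebra k Q] [Algebra Z Q] [IsScalarTower k Z Q]

/-- the density statement -/
theorem density [Module.Finite Z Q] {A : H →ₗ[k] Module.End Z Q} {D : Subalgebra Z Q}
    (hst : ∀ h : H, ∀ x ∈ D, A h x ∈ D) (hinv : ∀ x ∈ D, x⁻¹ ∈ D)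
    (h1 : A 1 = 1) (hm : ∀ g h : H, A (g * h) = A h * A g)
    (hp : ∀ h : H, ∃ (n : ℕ) (x y : Fin n → H), ∀ p q : Q,
      A h (p * q) = ∑ i, A (x i) p * A (y i) q)
    (hone : ∀ h : H, A h 1 = algebraMap k Q (counit h))
    (hfix : ∀ q : Q, (∀ h : H, A h q = algebraMap k Q (counit h) * q) →
      ∃ z : Z, algebraMap Z Q z = q) (φ : ↥D →ₗ[Z] ↥D) : φ ∈ S A D hst := by
  have hfin : Module.Finite Z ↥D :=
    Module.Finite.of_injective D.val.toLinearMap Subtype.val_injective
  have hgen : ∀ b : ↥D, LinearMap.mulRight Z b = gen A D hst 1 b := by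
    intro b
    apply LinearMap.ext
    intro x
    apply Subtype.ext
    rw [gen_apply, h1]
    simp
  refine jac (S A D hst) ?_ (fun {a b} ha hb => mul_mem hm hp hb ha) (fun b => ?_) ?_ ?_ φ
  · have e1 : (1 : Module.End Z ↥D) = gen A D hst 1 1 := by
      rw [← hgen]
      apply LinearMap.ext
      intro x
      simp
    rw [e1]
    exact gen_mem A D hst 1 1
  · rw [hgen]
    exact gen_mem A D hst 1 b
  · intro x hx
    have hx' : (x : Q) ≠ 0 := fun h => hx (Subtype.ext h)
    refine ⟨⟨(x : Q)⁻¹, hinv _ x.2⟩, ?_⟩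
    apply Subtype.ext
    simp [mul_inv_cancel₀ hx']
  · intro c hc
    obtain ⟨z, hz⟩ := hfix (c : Q) (by
      intro h
      have e4 := congrArg (Subtype.val) (hc _ (gen_mem A D hst h 1))
      rw [gen_apply, MulMemClass.coe_mul, gen_apply] at e4
      simp only [OneMemClass.coe_one, mul_one, hone] at e4
      rw [e4, Algebra.commutes])
    refine ⟨z, fun x => ?_⟩
    apply Subtype.ext
    rw [MulMemClass.coe_mul, ← hz, ← Algebra.smul_def]
    rfl

end

end DNSM

theorem specDNS (hADA : SpecADA.{u, v}) (hOLF : SpecOLF.{u, v}) (hOPP : SpecOPP.{u, v}) :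
    SpecDNS.{u, v} := by
  intro k H Z Q _ _ _ _ _ _ _ _ _ ι hI φ
  obtain ⟨⟨-, hr1⟩, hm, hp, hone⟩ := hADA k H Z Q ι
  obtain ⟨hst, hinv, -⟩ := hOPP k H Z Q ι hI
  have := hI.fin
  refine DNSM.rep (hst := hst) (DNSM.density hst hinv hr1 (fun g h => (hm g h).2) ?_
    (fun h => (hone h).2) (fun q hq => ((hOLF k H Z Q ι hI).2.2.2.2.2.2.2 q).mp hq) φ)
  intro h
  obtain ⟨n, x, y, e⟩ := OLFM.exists_fin (comul (R := k) h)
  exact ⟨n, x, y, fun p q => (hp h n x y e p q).2⟩

end Pool.Agent.Lib.MP_c37a72_al.EG
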