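import Pool.Agent.Lib.MP_c37a72_al.EG.RET

/-!
# MP_c37a72_al, block EG, module KFD: the convolution algebra of matrix coefficients is finite
dimensional
-/

set_option autoImplicit false

open scoped TensorProduct
open Coalgebra HopfAlgebra WithConv

namespace Pool.Agent.Lib.MP_c37a72_al.EG

universe u v w

namespace KFDM

open RETM

section A
variable {k : Type u} {H : Type v} [Field k] [Ring H] [HopfAlgebra k H]

lemma conv_eq (g g' : WithConv (H →ₗ[k] k)) (a : H) : (g * g') a = g' (T g.ofConv a) := by
  let r := ℛ k a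
  rw [r.convMul_apply, T_apply]
  conv_rhs => rw [← r.eq]
  rw [map_sum, map_sum]
  refine Finset.sum_congr rfl fun i _ => ?_
  rw [fl_tmul, map_smul, smul_eq_mul]

lemma T_conv (g g' : WithConv (H →ₗ[k] k)) (h : H) :
    T (g * g').ofConv h = T g'.ofConv (T g.ofConv h) := by
  have h1 : ∀ w : H ⊗[k] H, fl (g * g').ofConv w =
      fl g'.ofConv (LinearMap.rTensor H (T g.ofConv) w) := by
    intro w
    induction w with
    | zero => simp
    | tmul a b =>
      rw [LinearMap.rTensor_tmul, fl_tmul, fl_tmul]
      congr 1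
      exact conv_eq g g' a
    | add x y hx hy => rw [map_add, map_add, map_add, hx, hy]
  rw [T_apply, h1, ← comul_T]
  rfl

lemma conv_left (g g' : WithConv (H →ₗ[k] k)) (a b : H) :
    (g * g') (a * b) = ∑ i ∈ (ℛ k a).index,
      (toConv (g.ofConv ∘ₗ LinearMap.mulLeft k ((ℛ k a).left i)) *
        toConv (g'.ofConv ∘ₗ LinearMap.mulLeft k ((ℛ k a).right i))) b := by
  rw [conv_eq, T_apply, Bialgebra.comul_mul]
  have h1 : ∀ (x y : H) (w : H ⊗[k] H), fl g.ofConv ((x ⊗ₜ[k] y) * w) =
      y * fl (g.ofConv ∘ₗ LinearMap.mulLeft k x) w := by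
    intro x y w
    induction w with
    | zero => simp
    | tmul c d =>
      rw [Algebra.TensorProduct.tmul_mul_tmul, fl_tmul, fl_tmul, mul_smul_comm]
      rfl
    | add p q hp hq => rw [mul_add, map_add, hp, hq, map_add, mul_add]
  conv_lhs => rw [← (ℛ k a).eq]
  rw [Finset.sum_mul, map_sum, map_sum]
  refine Finset.sum_congr rfl fun i _ => ?_
  rw [h1, conv_eq]
  rfl

lemma conv_right (g g' : WithConv (H →ₗ[k] k)) (a b : H) :
    (g * g') (b * a) = ∑ i ∈ (ℛ k a).index,
      (toConv (g.ofConv ∘ₗ LinearMap.mulRight k ((ℛ k a).left i)) *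
        toConv (g'.ofConv ∘ₗ LinearMap.mulRight k ((ℛ k a).right i))) b := by
  rw [conv_eq, T_apply, Bialgebra.comul_mul]
  have h1 : ∀ (x y : H) (w : H ⊗[k] H), fl g.ofConv (w * (x ⊗ₜ[k] y)) =
      fl (g.ofConv ∘ₗ LinearMap.mulRight k x) w * y := by
    intro x y w
    induction w with
    | zero => simp
    | tmul c d =>
      rw [Algebra.TensorProduct.tmul_mul_tmul, fl_tmul, fl_tmul, smul_mul_assoc]
      rfl
    | add p q hp hq => rw [add_mul, map_add, hp, hq, map_add, add_mul]
  conv_lhs => rw [← (ℛ k a).eq]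
  rw [Finset.mul_sum, map_sum, map_sum]
  refine Finset.sum_congr rfl fun i _ => ?_
  rw [h1, conv_eq]
  rfl

lemma comp_left_conv (g g' : WithConv (H →ₗ[k] k)) (a : H) :
    toConv ((g * g').ofConv ∘ₗ LinearMap.mulLeft k a) = ∑ i ∈ (ℛ k a).index,
      (toConv (g.ofConv ∘ₗ LinearMap.mulLeft k ((ℛ k a).left i)) *
        toConv (g'.ofConv ∘ₗ LinearMap.mulLeft k ((ℛ k a).right i))) := by
  apply WithConv.ext
  apply LinearMap.ext
  intro b
  rw [WithConv.ofConv_sum, LinearMap.sum_apply]
  exact conv_left g g' a b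

lemma comp_right_conv (g g' : WithConv (H →ₗ[k] k)) (a : H) :
    toConv ((g * g').ofConv ∘ₗ LinearMap.mulRight k a) = ∑ i ∈ (ℛ k a).index,
      (toConv (g.ofConv ∘ₗ LinearMap.mulRight k ((ℛ k a).left i)) *
        toConv (g'.ofConv ∘ₗ LinearMap.mulRight k ((ℛ k a).right i))) := by
  apply WithConv.ext
  apply LinearMap.ext
  intro b
  rw [WithConv.ofConv_sum, LinearMap.sum_apply]
  exact conv_right g g' a b

lemma conv_at_one (g g' : WithConv (H →ₗ[k] k)) : (g * g') (1 : H) = g 1 * g' 1 := by
  rw [conv_eq, T_apply, Bialgebra.comul_one, Algebra.TensorProduct.one_def, fl_tmul, map_smul,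
    smul_eq_mul]

lemma conv_N (N : Subalgebra k H) (g g' : WithConv (H →ₗ[k] k))
    (hg : ∀ n ∈ N, g n = counit (R := k) n * g 1) (hg' : ∀ n ∈ N, g' n = counit (R := k) n * g' 1)
    (n : H) (hnN : n ∈ N) (hn : comul (R := k) n ∈ LinearMap.range (TensorProduct.map
      N.val.toLinearMap (LinearMap.id : H →ₗ[k] H))) :
    (g * g') n = counit (R := k) n * (g * g') 1 := by
  obtain ⟨u, hu⟩ := hn
  have h1 : ∀ u : ↥N ⊗[k] H, fl g.ofConv (TensorProduct.map
      N.val.toLinearMap (LinearMap.id : H →ₗ[k] H) u) =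
      g 1 • fl (counit (R := k)) (TensorProduct.map
      N.val.toLinearMap (LinearMap.id : H →ₗ[k] H) u) := by
    intro u
    induction u with
    | zero => simp
    | tmul a b =>
      rw [TensorProduct.map_tmul, fl_tmul, fl_tmul, smul_smul]
      congr 1
      change g (a : H) = g 1 * counit (R := k) (a : H)
      rw [hg _ a.2, mul_comm]
    | add x y hx hy => rw [map_add, map_add, hx, hy, map_add, smul_add]
  rw [conv_eq, T_apply, ← hu, h1, hu, fl_counit, map_smul, conv_at_one]
  change g 1 • g' n = _
  rw [hg' n hnN, smul_eq_mul]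
  ring

end A

section B

variable {k : Type u} {H Z Q : Type v} [Field k] [Ring H] [HopfAlgebra k H] [Field Z]
  [Algebra k Z] [DivisionRing Q] [Algebra k Q] [Algebra Z Q] [IsScalarTower k Z Q] (ι : H →ₐ[k] Q)

/-- `ι ∘ T g` is a convolution product -/
lemma comp_T (g : H →ₗ[k] k) : toConv (ι.toLinearMap ∘ₗ T g) =
    toConv (Algebra.linearMap k Q ∘ₗ g) * toConv ι.toLinearMap := by
  apply WithConv.ext
  apply LinearMap.ext
  intro h
  let r := ℛ k h
  change ι (T g h) = (toConv (Algebra.linearMap k Q ∘ₗ g) * toConv ι.toLinearMap) h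
  rw [r.convMul_apply, T_apply, ← r.eq, map_sum, map_sum]
  refine Finset.sum_congr rfl fun i _ => ?_
  rw [fl_tmul, map_smul, Algebra.smul_def]
  rfl

/-- independence of the operators `t_g` -/
lemma bound (F0 : IntermediateField k Z) [Module.Finite F0 Z] [Module.Finite Z Q] {A : Type*}
    [Fintype A] (g : A → WithConv (H →ₗ[k] k))
    (hg : ∀ c : A → k, (∀ h, ∑ a, c a * g a h = 0) → ∀ a, c a = 0)
    (ht : ∀ a, ∃ t : Q →+ Q, (∀ h, t (ι h) = ι (T (g a).ofConv h)) ∧
      ∀ F ∈ F0, ∀ q : Q, t (algebraMap Z Q F * q) = algebraMap Z Q F * t q) :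
    Fintype.card A ≤ Module.finrank F0 Q := by
  have hfin : Module.Finite F0 Q := Module.Finite.trans Z Q
  choose t ht1 ht2 using ht
  let e := Module.finBasis F0 Q
  have hind : LinearIndependent Q (fun a : A => fun l : Fin (Module.finrank F0 Q) => t a (e l)) := by
    rw [Fintype.linearIndependent_iff]
    intro q hq
    have h1 : ∀ l, ∑ a, q a * t a (e l) = 0 := by
      intro l
      have := congrFun hq l
      rw [Finset.sum_apply] at this
      exact this
    have h2 : ∀ x : Q, ∑ a, q a * t a x = 0 := by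
      intro x
      have e1 : ∀ a, t a x = ∑ l, algebraMap Z Q (e.repr x l : Z) * t a (e l) := by
        intro a
        conv_lhs => rw [← e.sum_repr x]
        rw [map_sum]
        refine Finset.sum_congr rfl fun l _ => ?_
        rw [← ht2 a _ (e.repr x l).2 (e l)]
        congr 1
        rw [← Algebra.smul_def]
        rfl
      have e2 : ∑ a, q a * t a x = ∑ l, algebraMap Z Q (e.repr x l : Z) *
          ∑ a, q a * t a (e l) := by
        simp_rw [e1, Finset.mul_sum]
        rw [Finset.sum_comm]
        refine Finset.sum_congr rfl fun l _ => Finset.sum_congr rfl fun a _ => ?_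
        rw [← mul_assoc, ← mul_assoc, Algebra.commutes]
      rw [e2]
      exact Finset.sum_eq_zero fun l _ => by rw [h1, mul_zero]
    -- convolution
    have h3 : ∑ a, toConv (LinearMap.mulLeft k (q a) ∘ₗ (Algebra.linearMap k Q ∘ₗ (g a).ofConv)) *
        toConv ι.toLinearMap = 0 := by
      apply WithConv.ext
      apply LinearMap.ext
      intro h
      rw [WithConv.ofConv_sum, LinearMap.sum_apply, WithConv.ofConv_zero, LinearMap.zero_apply,
        ← h2 (ι h)]
      refine Finset.sum_congr rfl fun a _ => ?_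
      have h4 := mulLeft_conv (q a) (toConv (Algebra.linearMap k Q ∘ₗ (g a).ofConv))
        (toConv ι.toLinearMap)
      rw [← comp_T] at h4
      change (toConv (LinearMap.mulLeft k (q a) ∘ₗ (Algebra.linearMap k Q ∘ₗ (g a).ofConv)) *
        toConv ι.toLinearMap) h = _
      rw [ht1, ← h4]
      rfl
    have h5 : ∑ a, toConv (LinearMap.mulLeft k (q a) ∘ₗ
        (Algebra.linearMap k Q ∘ₗ (g a).ofConv)) = 0 := by
      have h6 := congrArg (fun F => F * toConv (ι.toLinearMap ∘ₗ antipode k)) h3
      simp only [zero_mul] at h6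
      rw [← Finset.sum_mul, mul_assoc, conv_S, mul_one] at h6
      exact h6
    have h7 : ∀ h, ∑ a, q a * algebraMap k Q (g a h) = 0 := by
      intro h
      have h8 := congrArg (fun F : WithConv (H →ₗ[k] Q) => F h) h5
      change (∑ a, toConv (LinearMap.mulLeft k (q a) ∘ₗ
        (Algebra.linearMap k Q ∘ₗ (g a).ofConv))).ofConv h = 0 at h8
      rw [WithConv.ofConv_sum, LinearMap.sum_apply] at h8
      exact h8
    intro a
    rw [← Module.forall_dual_apply_eq_zero_iff k]
    intro φ
    refine hg (fun a => φ (q a)) (fun h => ?_) a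
    have h10 := congrArg φ (h7 h)
    rw [map_zero, map_sum] at h10
    rw [← h10]
    refine Finset.sum_congr rfl fun a _ => ?_
    rw [← Algebra.commutes, ← Algebra.smul_def, map_smul, smul_eq_mul, mul_comm]
  have h := hind.fintype_card_le_finrank
  rwa [Module.finrank_fin_fun] at h

end B

section C

variable {k : Type u} {H : Type v} [Field k] [Ring H] [HopfAlgebra k H]

/-- `H → K*` -/
noncomputable def Phi (K : Submodule k (H →ₗ[k] k)) : H →ₗ[k] Module.Dual k ↥K :=
  K.subtype.flip

lemma Phi_apply (K : Submodule k (H →ₗ[k] k)) (h : H) (g : ↥K) :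
    Phi K h g = (g : H →ₗ[k] k) h := rfl

lemma ker_Phi (K : Submodule k (H →ₗ[k] k)) (I : Submodule k H)
    (hI : ∀ x, x ∈ I ↔ ∀ g ∈ K, g x = 0) : LinearMap.ker (Phi K) = I := by
  ext y
  rw [LinearMap.mem_ker, hI]
  constructor
  · intro h g hg
    have := congrArg (fun F : Module.Dual k ↥K => F ⟨g, hg⟩) h
    exact this
  · intro h
    apply LinearMap.ext
    intro g
    exact h g g.2

lemma free_K (K : Submodule k (H →ₗ[k] k)) : Module.Free k ↥K := by
  have h := Module.Basis.ofVectorSpace k K
  exact Module.Free.of_basis h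

lemma indep_elem (K : Submodule k (H →ₗ[k] k)) (s : Finset K)
    (hs : LinearIndependent k (fun i : s => (i : K))) (c : s → k)
    (hc : ∀ h, ∑ a, c a * ((a : K) : H →ₗ[k] k) h = 0) : ∀ a, c a = 0 := by
  have h1 := Fintype.linearIndependent_iffₛ.1 hs c 0
  apply h1
  apply Subtype.ext
  apply LinearMap.ext
  intro h
  have h2 := hc h
  rw [Submodule.coe_sum, LinearMap.sum_apply]
  simpa using h2

lemma noeth_K (K : Submodule k (H →ₗ[k] k)) [Module.Finite k K] :
    IsNoetherian k (Module.Dual k ↥K) := by
  have h1 := free_K K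
  have h2 : Module.Finite k (Module.Dual k ↥K) := inferInstance
  exact isNoetherian_of_isNoetherianRing_of_finite k _

/-- a subspace killed by `K` which is exactly the kernel of `H → K*` is a coideal -/
lemma coid (K : Submodule k (H →ₗ[k] k)) [Module.Finite k K] (h1K : counit (R := k) ∈ K)
    (hK : ∀ g ∈ K, ∀ g' ∈ K, (toConv g * toConv g').ofConv ∈ K) (I : Submodule k H)
    (hI : ∀ x, x ∈ I ↔ ∀ g ∈ K, g x = 0) : I.IsCoideal := by
  refine ⟨?_, ?_⟩
  · intro x hx
    exact (hI x).1 hx _ h1K
  · intro x hx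
    have hker := ker_Phi K I hI
    let Ev : (H ⧸ I) →ₗ[k] Module.Dual k ↥K := I.liftQ (Phi K) (le_of_eq hker.symm)
    have hEv : Function.Injective Ev := by
      rw [← LinearMap.ker_eq_bot]
      exact Submodule.ker_liftQ_eq_bot _ _ _ (le_of_eq hker)
    have hinj := TensorProduct.map_injective_of_flat_flat Ev Ev hEv hEv
    apply hinj
    rw [map_zero, ← LinearMap.comp_apply, ← TensorProduct.map_comp]
    have e1 : Ev ∘ₗ I.mkQ = Phi K := Submodule.liftQ_mkQ _ _ _
    rw [e1]
    have hfree := free_K K
    apply (TensorProduct.dualDistribEquiv k ↥K ↥K).injective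
    rw [map_zero]
    apply TensorProduct.ext'
    intro g g'
    have h1 : ∀ w : H ⊗[k] H, (TensorProduct.dualDistribEquiv k ↥K ↥K)
        (TensorProduct.map (Phi K) (Phi K) w) (g ⊗ₜ[k] g') =
        (g' : H →ₗ[k] k) (fl (g : H →ₗ[k] k) w) := by
      intro w
      induction w with
      | zero => simp
      | tmul a b =>
        rw [TensorProduct.map_tmul, fl_tmul, map_smul]
        rfl
      | add x y hx hy =>
        rw [map_add, map_add, LinearMap.add_apply, hx, hy, map_add, map_add]
    rw [h1, LinearMap.zero_apply]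
    have h2 := (hI x).1 hx _ (hK g g.2 g' g'.2)
    have h3 := conv_eq (toConv (g : H →ₗ[k] k)) (toConv (g' : H →ₗ[k] k)) x
    rw [← T_apply]
    exact h3.symm.trans h2

lemma finq (K : Submodule k (H →ₗ[k] k)) [Module.Finite k K] (I : Submodule k H)
    (hI : ∀ x, x ∈ I ↔ ∀ g ∈ K, g x = 0) : Module.Finite k (H ⧸ I) := by
  have hker := ker_Phi K I hI
  let Ev : (H ⧸ I) →ₗ[k] Module.Dual k ↥K := I.liftQ (Phi K) (le_of_eq hker.symm)
  have hEv : Function.Injective Ev := by
    rw [← LinearMap.ker_eq_bot]
    exact Submodule.ker_liftQ_eq_bot _ _ _ (le_of_eq hker)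
  have := noeth_K K
  exact Module.Finite.of_injective Ev hEv

end C

end KFDM

set_option maxHeartbeats 1000000 in
open RETM KFDM in
theorem specKFD (hWEX : SpecWEX.{u, v}) (hTQ : SpecTQ.{u, v}) (hNFA : SpecNFA.{u, v})
    (hADA : SpecADA.{u, v}) : SpecKFD.{u, v} := by
  intro k H Z Q _ _ _ _ _ _ _ _ _ _ ι hQ hF
  obtain ⟨n1, n2, n3, n4, n5, n6, n7, n8⟩ := hNFA k H Z Q ι hQ
  obtain ⟨a1, a2, a3, a4⟩ := hADA k H Z Q ι
  obtain ⟨r, W, f, hW, hWO, hWf, hWs⟩ := hWEX k H Z Q ι hQ
  obtain ⟨TT, hT1, hT2⟩ := hTQ k H Z Q ι hQ r W f hW hWO hWf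
  obtain ⟨F0, hF0, hFF⟩ := hF
  have hZQ := hQ.fin
  -- facts on the matrix coefficients
  have f_mul : ∀ i j (a b : H), f i j (a * b) = ∑ l, f i l a * f l j b := by
    intro i j a b
    have h1 : ∑ i, f i j (a * b) • W i = ∑ i, (∑ l, f i l a * f l j b) • W i := by
      rw [← hWf, (a2 a b).1]
      change adlQ k Z ι a (adlQ k Z ι b (W j)) = _
      rw [hWf b, map_sum]
      simp_rw [LinearMap.map_smul_of_tower, hWf a, Finset.smul_sum, Finset.sum_smul]
      rw [Finset.sum_comm]
      refine Finset.sum_congr rfl fun i _ => Finset.sum_congr rfl fun l _ => ?_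
      rw [smul_smul, mul_comm]
    exact hW.eq_coords_of_eq h1 i
  have f_N : ∀ i j, ∀ n ∈ NN k Z ι, f i j n = counit (R := k) n * f i j 1 := by
    intro i j n hn
    have h1 : ∑ i, f i j n • W i = ∑ i, (counit (R := k) n * f i j 1) • W i := by
      rw [← hWf, n5 n hn _ (hWO j)]
      simp_rw [mul_smul]
      rw [← Finset.smul_sum, ← hWf, a1.1, ← Algebra.smul_def]
      rfl
    exact hW.eq_coords_of_eq h1 i
  -- the algebra `K`
  set K : Subalgebra k (WithConv (H →ₗ[k] k)) :=
    Algebra.adjoin k (Set.range fun p : Fin r × Fin r => toConv (f p.1 p.2)) with hK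
  have fK : ∀ i j, toConv (f i j) ∈ K := fun i j => Algebra.subset_adjoin ⟨(i, j), rfl⟩
  have P1 : ∀ g ∈ K, ∀ a : H, toConv (g.ofConv ∘ₗ LinearMap.mulLeft k a) ∈ K ∧
      toConv (g.ofConv ∘ₗ LinearMap.mulRight k a) ∈ K := by
    intro g hg
    induction hg using Algebra.adjoin_induction with
    | mem x hx =>
      obtain ⟨⟨i, j⟩, rfl⟩ := hx
      intro a
      constructor
      · have e : toConv ((toConv (f i j)).ofConv ∘ₗ LinearMap.mulLeft k a) =
            ∑ l, f i l a • toConv (f l j) := by
          apply WithConv.ext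
          apply LinearMap.ext
          intro b
          rw [WithConv.ofConv_sum, LinearMap.sum_apply]
          exact f_mul i j a b
        change toConv ((toConv (f i j)).ofConv ∘ₗ LinearMap.mulLeft k a) ∈ K
        rw [e]
        exact K.sum_mem fun l _ => K.smul_mem (fK l j) _
      · have e : toConv ((toConv (f i j)).ofConv ∘ₗ LinearMap.mulRight k a) =
            ∑ l, f l j a • toConv (f i l) := by
          apply WithConv.ext
          apply LinearMap.ext
          intro b
          rw [WithConv.ofConv_sum, LinearMap.sum_apply]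
          change f i j (b * a) = ∑ l, f l j a * f i l b
          rw [f_mul]
          exact Finset.sum_congr rfl fun l _ => mul_comm _ _
        change toConv ((toConv (f i j)).ofConv ∘ₗ LinearMap.mulRight k a) ∈ K
        rw [e]
        exact K.sum_mem fun l _ => K.smul_mem (fK i l) _
    | algebraMap c =>
      intro a
      have e1 : toConv ((algebraMap k (WithConv (H →ₗ[k] k)) c).ofConv ∘ₗ LinearMap.mulLeft k a) =
          counit (R := k) a • algebraMap k (WithConv (H →ₗ[k] k)) c := by
        apply WithConv.ext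
        apply LinearMap.ext
        intro b
        change (algebraMap k (WithConv (H →ₗ[k] k)) c) (a * b) =
          counit (R := k) a • (algebraMap k (WithConv (H →ₗ[k] k)) c) b
        rw [LinearMap.convAlgebraMap_apply, LinearMap.convAlgebraMap_apply, Bialgebra.counit_mul]
        simp only [smul_eq_mul, Algebra.algebraMap_self, RingHom.id_apply]
        ring
      have e2 : toConv ((algebraMap k (WithConv (H →ₗ[k] k)) c).ofConv ∘ₗ LinearMap.mulRight k a) =
          counit (R := k) a • algebraMap k (WithConv (H →ₗ[k] k)) c := by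
        apply WithConv.ext
        apply LinearMap.ext
        intro b
        change (algebraMap k (WithConv (H →ₗ[k] k)) c) (b * a) =
          counit (R := k) a • (algebraMap k (WithConv (H →ₗ[k] k)) c) b
        rw [LinearMap.convAlgebraMap_apply, LinearMap.convAlgebraMap_apply, Bialgebra.counit_mul]
        simp only [smul_eq_mul, Algebra.algebraMap_self, RingHom.id_apply]
        ring
      rw [e1, e2]
      exact ⟨K.smul_mem (K.algebraMap_mem c) _, K.smul_mem (K.algebraMap_mem c) _⟩
    | add x y _ _ hx hy =>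
      intro a
      exact ⟨K.add_mem (hx a).1 (hy a).1, K.add_mem (hx a).2 (hy a).2⟩
    | mul x y _ _ hx hy =>
      intro a
      rw [comp_left_conv, comp_right_conv]
      exact ⟨K.sum_mem fun i _ => K.mul_mem (hx _).1 (hy _).1,
        K.sum_mem fun i _ => K.mul_mem (hx _).2 (hy _).2⟩
  have P2 : ∀ g ∈ K, ∃ t : Q →+ Q, (∀ h, t (ι h) = ι (T g.ofConv h)) ∧
      ∀ F ∈ F0, ∀ q : Q, t (algebraMap Z Q F * q) = algebraMap Z Q F * t q := by
    intro g hg
    induction hg using Algebra.adjoin_induction with
    | mem x hx =>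
      obtain ⟨⟨i, j⟩, rfl⟩ := hx
      exact ⟨TT i j, fun h => hT1 i j h, fun F hF q => hT2 F (hFF F hF) i j q⟩
    | algebraMap c =>
      refine ⟨AddMonoidHom.mulLeft (algebraMap k Q c), ?_, ?_⟩
      · intro h
        have e : T (algebraMap k (WithConv (H →ₗ[k] k)) c).ofConv h = c • h := by
          have e1 : (algebraMap k (WithConv (H →ₗ[k] k)) c).ofConv = c • counit (R := k) := by
            apply LinearMap.ext
            intro b
            change (algebraMap k (WithConv (H →ₗ[k] k)) c) b = _
            rw [LinearMap.convAlgebraMap_apply]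
            rfl
          rw [e1, T_apply]
          have e2 : ∀ w : H ⊗[k] H, fl (c • counit (R := k) (A := H)) w =
              c • fl (counit (R := k)) w := by
            intro w
            induction w with
            | zero => simp
            | tmul a b => rw [fl_tmul, fl_tmul, LinearMap.smul_apply, smul_assoc]
            | add x y hx hy => rw [map_add, hx, hy, map_add, smul_add]
          rw [e2, fl_counit]
        rw [e, map_smul, Algebra.smul_def]
        rfl
      · intro F _ q
        change algebraMap k Q c * (algebraMap Z Q F * q) = algebraMap Z Q F * (algebraMap k Q c * q)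
        rw [← mul_assoc, ← mul_assoc, Algebra.commutes]
    | add x y _ _ hx hy =>
      obtain ⟨t, ht1, ht2⟩ := hx
      obtain ⟨t', ht1', ht2'⟩ := hy
      refine ⟨t + t', ?_, ?_⟩
      · intro h
        rw [AddMonoidHom.add_apply, ht1, ht1', ← map_add]
        congr 1
        have e : ∀ w : H ⊗[k] H, fl x.ofConv w + fl y.ofConv w = fl (x + y).ofConv w := by
          intro w
          induction w with
          | zero => simp
          | tmul a b => rw [fl_tmul, fl_tmul, fl_tmul, ← add_smul]; rfl
          | add p q hp hq => rw [map_add, map_add, map_add, ← hp, ← hq]; abel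
        exact e _
      · intro F hF q
        rw [AddMonoidHom.add_apply, AddMonoidHom.add_apply, ht2 F hF, ht2' F hF, mul_add]
    | mul x y _ _ hx hy =>
      obtain ⟨t, ht1, ht2⟩ := hx
      obtain ⟨t', ht1', ht2'⟩ := hy
      refine ⟨t'.comp t, ?_, ?_⟩
      · intro h
        rw [AddMonoidHom.comp_apply, ht1, ht1', T_conv]
      · intro F hF q
        rw [AddMonoidHom.comp_apply, AddMonoidHom.comp_apply, ht2 F hF, ht2' F hF]
  have P3 : ∀ g ∈ K, ∀ n ∈ NN k Z ι, g n = counit (R := k) n * g 1 := by
    intro g hg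
    induction hg using Algebra.adjoin_induction with
    | mem x hx =>
      obtain ⟨⟨i, j⟩, rfl⟩ := hx
      exact fun n hn => f_N i j n hn
    | algebraMap c =>
      intro n _
      rw [LinearMap.convAlgebraMap_apply, LinearMap.convAlgebraMap_apply, Bialgebra.counit_one]
      simp only [smul_eq_mul, Algebra.algebraMap_self, RingHom.id_apply]
      ring
    | add x y _ _ hx hy =>
      intro n hn
      change x n + y n = counit (R := k) n * (x 1 + y 1)
      rw [hx n hn, hy n hn, mul_add]
    | mul x y _ _ hx hy =>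
      intro n hn
      exact conv_N (NN k Z ι) x y hx hy n hn (n2 n hn)
  -- finite dimension
  let K' : Submodule k (H →ₗ[k] k) :=
    (Subalgebra.toSubmodule K).comap (WithConv.linearEquiv k (H →ₗ[k] k)).symm.toLinearMap
  have memK : ∀ g, g ∈ K' ↔ toConv g ∈ K := fun g => Iff.rfl
  have hKfin : Module.Finite k K' := by
    have hfree := free_K K'
    rw [← Module.rank_lt_aleph0_iff]
    refine lt_of_le_of_lt (rank_le (n := Module.finrank F0 Q) ?_) (Cardinal.natCast_lt_aleph0)
    intro s hs
    have := bound ι F0 (fun a : s => toConv ((a : ↥K') : H →ₗ[k] k))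
      (fun c hc a => indep_elem K' s hs c hc a) (fun a => P2 _ ((memK _).1 (a : ↥K').2))
    rwa [Fintype.card_coe] at this
  -- the ideal
  let J : Ideal H :=
    { carrier := {h | ∀ g ∈ K', g h = 0}
      add_mem' := by
        intro a b ha hb g hg
        have h1 := ha g hg
        have h2 := hb g hg
        rw [map_add, h1, h2, add_zero]
      zero_mem' := by
        intro g _
        exact map_zero _
      smul_mem' := by
        intro c x hx g hg
        exact hx _ (P1 (toConv g) hg c).1 }
  have memJ : ∀ x, x ∈ J.restrictScalars k ↔ ∀ g ∈ K', g x = 0 := fun x => Iff.rfl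
  refine ⟨J, ⟨fun {a} b ha g hg => ?_⟩, coid K' K.one_mem
    (fun g hg g' hg' => K.mul_mem hg hg') _ memJ, ?_, ?_, ?_⟩
  · exact ha _ (P1 (toConv g) hg b).2
  · have := finq K' _ memJ
    exact Module.Finite.equiv (Submodule.Quotient.restrictScalarsEquiv k J)
  · intro h hh q hq
    have h1 : ∀ j, adlQ k Z ι h (W j) = 0 := by
      intro j
      rw [hWf]
      exact Finset.sum_eq_zero fun i _ => by rw [show f i j h = 0 from hh _ (fK i j), zero_smul]
    have h2 := hWs q hq
    have h3 : Submodule.span Z (Set.range W) ≤ LinearMap.ker (adlQ k Z ι h) := by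
      rw [Submodule.span_le]
      rintro x ⟨j, rfl⟩
      exact h1 j
    exact h3 h2
  · intro n hn hn0 g hg
    have := P3 (toConv g) hg n hn
    rw [hn0, zero_mul] at this
    exact this

end Pool.Agent.Lib.MP_c37a72_al.EG
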