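import Pool.Agent.Lib.MP_c37a72_al.EG.Spec

section
/-!
# MP_c37a72_al, block EG, module AGK (helper28)

`θ` is an antihomomorphism, and the sum of the conjugates of `a ∈ AA` lies in `k`.
The fixed elements `a` satisfy `a ⊗ 1 = ψ x`: apply the maps `θ_γ⁻¹ ⊗ γ` to `a ⊗ p`, where `p` has
trace `1`, and sum.
-/
set_option autoImplicit false

open scoped TensorProduct
open Coalgebra HopfAlgebra

namespace Pool.Agent.Lib.MP_c37a72_al.EG

universe u v w

namespace AGKM

section
variable {k : Type u} {AA : Type w} {P : Type v} [Field k] [Ring AA] [Algebra k AA]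
  [Field P] [Algebra k P]

theorem incl_inj {a b : AA} (h : a ⊗ₜ[k] (1 : P) = b ⊗ₜ[k] (1 : P)) : a = b := by
  have h1 : Function.Injective (Algebra.TensorProduct.includeLeft : AA →ₐ[k] AA ⊗[k] P) :=
    Algebra.TensorProduct.includeLeft_injective (algebraMap k P).injective
  exact h1 h

variable {Z : Type v} [Field Z] [Algebra Z P] {D : Type v} [Ring D] [Algebra k D]
  (ψ : D →ₐ[k] AA ⊗[k] P)

/-- maps which agree on the image of `ψ` -/
theorem ext_psi {ψ : D →ₐ[k] AA ⊗[k] P}
    (hspan : Submodule.span k {y : AA ⊗[k] P | ∃ x p, y = ψ x * (1 ⊗ₜ[k] p)} = ⊤)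
    {F₁ F₂ : AA →ₐ[k] AA}
    (h : ∀ x, Algebra.TensorProduct.map F₁ (AlgHom.id k P) (ψ x) =
      Algebra.TensorProduct.map F₂ (AlgHom.id k P) (ψ x)) (a : AA) : F₁ a = F₂ a := by
  have h1 : ∀ t : AA ⊗[k] P, Algebra.TensorProduct.map F₁ (AlgHom.id k P) t =
      Algebra.TensorProduct.map F₂ (AlgHom.id k P) t := by
    intro t
    have ht : t ∈ Submodule.span k {y : AA ⊗[k] P | ∃ x p, y = ψ x * (1 ⊗ₜ[k] p)} := by
      rw [hspan]
      trivial
    induction ht using Submodule.span_induction with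
    | mem t ht =>
      obtain ⟨x, p, rfl⟩ := ht
      rw [map_mul, map_mul, h x]
      simp
    | zero => simp
    | add s t _ _ hs ht => rw [map_add, map_add, hs, ht]
    | smul c t _ ht => rw [map_smul, map_smul, ht]
  have h2 := h1 (a ⊗ₜ[k] 1)
  simp only [Algebra.TensorProduct.map_tmul, map_one] at h2
  exact incl_inj h2

end

end AGKM

theorem specAGK : SpecAGK.{u, v, w} := by
  intro k H Z Q _ _ _ _ _ _ _ _ _ _ ι hI AA P _ _ _ _ _ _ ρ ψ θ hC
  have hanti : ∀ (γ δ : P ≃ₐ[Z] P) (a : AA), θ (γ * δ) a = θ δ (θ γ a) := by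
    intro γ δ a
    have h := AGKM.ext_psi (F₁ := (θ (γ * δ)).toAlgHom)
      (F₂ := (θ δ).toAlgHom.comp (θ γ).toAlgHom) hC.span (by
      intro x
      rw [← hC.thP]
      have e1 : ∀ t : AA ⊗[k] P, Algebra.TensorProduct.map (AlgHom.id k AA)
          ((γ * δ).toAlgHom.restrictScalars k) t =
          Algebra.TensorProduct.map (AlgHom.id k AA) (γ.toAlgHom.restrictScalars k)
            (Algebra.TensorProduct.map (AlgHom.id k AA) (δ.toAlgHom.restrictScalars k) t) := by
        intro t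
        induction t using TensorProduct.induction_on with
        | zero => simp
        | tmul a p => rfl
        | add s t hs ht => rw [map_add, map_add, map_add, hs, ht]
      have e2 : ∀ t : AA ⊗[k] P, Algebra.TensorProduct.map (AlgHom.id k AA)
          (γ.toAlgHom.restrictScalars k)
            (Algebra.TensorProduct.map (θ δ).toAlgHom (AlgHom.id k P) t) =
          Algebra.TensorProduct.map (θ δ).toAlgHom (AlgHom.id k P)
            (Algebra.TensorProduct.map (AlgHom.id k AA) (γ.toAlgHom.restrictScalars k) t) := by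
        intro t
        induction t using TensorProduct.induction_on with
        | zero => simp
        | tmul a p => rfl
        | add s t hs ht => rw [map_add, map_add, map_add, map_add, hs, ht]
      have e3 : ∀ t : AA ⊗[k] P, Algebra.TensorProduct.map (θ δ).toAlgHom (AlgHom.id k P)
          (Algebra.TensorProduct.map (θ γ).toAlgHom (AlgHom.id k P) t) =
          Algebra.TensorProduct.map ((θ δ).toAlgHom.comp (θ γ).toAlgHom) (AlgHom.id k P) t := by
        intro t
        induction t using TensorProduct.induction_on with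
        | zero => simp
        | tmul a p => rfl
        | add s t hs ht => rw [map_add, map_add, map_add, hs, ht]
      rw [e1, hC.thP, e2, hC.thP, e3]) a
    exact h
  refine ⟨hanti, ?_⟩
  intro _ a₀
  rcases subsingleton_or_nontrivial AA with hs | hn
  · exact ⟨0, Subsingleton.elim _ _⟩
  have := hC.finA
  have := hC.finP
  have := hC.gal
  set a : AA := ∑ γ : P ≃ₐ[Z] P, θ γ a₀ with ha
  have hfix : ∀ δ : P ≃ₐ[Z] P, θ δ a = a := by
    intro δ
    rw [ha, map_sum]
    have e1 : ∀ γ : P ≃ₐ[Z] P, θ δ (θ γ a₀) = θ (γ * δ) a₀ := fun γ => (hanti γ δ a₀).symm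
    rw [Finset.sum_congr rfl fun γ _ => e1 γ]
    exact Equiv.sum_comp (Equiv.mulRight δ) (fun γ => θ γ a₀)
  have htr : ∀ p : P, algebraMap Z P (Algebra.trace Z P p) = ∑ γ : P ≃ₐ[Z] P, γ p := by
    intro p
    rw [trace_eq_sum_automorphisms]
    exact Finset.sum_congr (by ext; simp) fun _ _ => rfl
  -- the maps `θ_γ⁻¹ ⊗ γ`
  let E : (P ≃ₐ[Z] P) → (AA ⊗[k] P →ₐ[k] AA ⊗[k] P) := fun γ =>
    Algebra.TensorProduct.map (θ γ).symm.toAlgHom (γ.toAlgHom.restrictScalars k)
  have hE : ∀ γ x, E γ (ψ x) = ψ x := by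
    intro γ x
    have e1 : ∀ t : AA ⊗[k] P, E γ t = Algebra.TensorProduct.map (θ γ).symm.toAlgHom (AlgHom.id k P)
        (Algebra.TensorProduct.map (AlgHom.id k AA) (γ.toAlgHom.restrictScalars k) t) := by
      intro t
      induction t using TensorProduct.induction_on with
      | zero => simp
      | tmul a p => rfl
      | add s t hs ht => rw [map_add, map_add, map_add, hs, ht]
    have e2 : ∀ t : AA ⊗[k] P, Algebra.TensorProduct.map (θ γ).symm.toAlgHom (AlgHom.id k P)
        (Algebra.TensorProduct.map (θ γ).toAlgHom (AlgHom.id k P) t) = t := by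
      intro t
      induction t using TensorProduct.induction_on with
      | zero => simp
      | tmul a p =>
        show (θ γ).symm (θ γ a) ⊗ₜ[k] p = a ⊗ₜ[k] p
        rw [AlgEquiv.symm_apply_apply]
      | add s t hs ht => rw [map_add, map_add, hs, ht]
    rw [e1, hC.thP, e2]
  have hsum : ∀ t : AA ⊗[k] P, ∃ x, ψ x = ∑ γ, E γ t := by
    intro t
    have ht : t ∈ Submodule.span k {y : AA ⊗[k] P | ∃ x p, y = ψ x * (1 ⊗ₜ[k] p)} := by
      rw [hC.span]
      trivial
    induction ht using Submodule.span_induction with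
    | mem t ht =>
      obtain ⟨x, p, rfl⟩ := ht
      refine ⟨x * algebraMap Z _ (Algebra.trace Z P p), ?_⟩
      rw [map_mul, hC.psiZ, htr]
      have e3 : ∀ γ, E γ (ψ x * (1 ⊗ₜ[k] p)) = ψ x * (1 ⊗ₜ[k] (γ p)) := by
        intro γ
        rw [map_mul, hE]
        congr 1
        show (θ γ).symm 1 ⊗ₜ[k] γ p = _
        rw [map_one]
      rw [Finset.sum_congr rfl fun γ _ => e3 γ, ← Finset.mul_sum, TensorProduct.tmul_sum]
    | zero => exact ⟨0, by simp⟩
    | add s t _ _ hs ht =>
      obtain ⟨x, hx⟩ := hs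
      obtain ⟨y, hy⟩ := ht
      refine ⟨x + y, ?_⟩
      rw [map_add, hx, hy, ← Finset.sum_add_distrib]
      exact Finset.sum_congr rfl fun γ _ => (map_add (E γ) s t).symm
    | smul c t _ ht =>
      obtain ⟨x, hx⟩ := ht
      refine ⟨c • x, ?_⟩
      rw [map_smul, hx, Finset.smul_sum]
      exact Finset.sum_congr rfl fun γ _ => (map_smul (E γ) c t).symm
  obtain ⟨p, hp⟩ := Algebra.trace_surjective Z P 1
  obtain ⟨x, hx⟩ := hsum (a ⊗ₜ[k] p)
  have hx1 : ψ x = a ⊗ₜ[k] 1 := by
    rw [hx]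
    have e4 : ∀ γ, E γ (a ⊗ₜ[k] p) = a ⊗ₜ[k] γ p := by
      intro γ
      show (θ γ).symm a ⊗ₜ[k] γ p = _
      congr 1
      rw [AlgEquiv.symm_apply_eq]
      exact (hfix γ).symm
    rw [Finset.sum_congr rfl fun γ _ => e4 γ, ← TensorProduct.tmul_sum, ← htr, hp, map_one]
  -- `ψ` is injective
  have hnt : Nontrivial (AA ⊗[k] P) := by
    refine ⟨⟨1, 0, fun h => ?_⟩⟩
    have h1 : (1 : AA) ⊗ₜ[k] (1 : P) = (0 : AA) ⊗ₜ[k] (1 : P) := by
      rw [TensorProduct.zero_tmul, ← Algebra.TensorProduct.one_def]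
      exact h
    exact one_ne_zero (AGKM.incl_inj h1)
  have hinj : Function.Injective ψ := by
    rw [injective_iff_map_eq_zero]
    intro y hy
    by_contra hne
    have hy0 : (y : Q) ≠ 0 := fun h => hne (Subtype.ext h)
    have hyinv : (y : Q)⁻¹ ∈ Opp k Z ι := by
      refine (Subalgebra.mem_centralizer_iff Z).mpr fun g hg => ?_
      have h1 : Commute g (y : Q) := (Subalgebra.mem_centralizer_iff Z).mp y.2 g hg
      exact h1.inv_right₀
    have h1 : ψ (y * ⟨(y : Q)⁻¹, hyinv⟩) = 0 := by rw [map_mul, hy, zero_mul]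
    have h2 : y * ⟨(y : Q)⁻¹, hyinv⟩ = 1 := Subtype.ext (mul_inv_cancel₀ hy0)
    rw [h2, map_one] at h1
    exact one_ne_zero h1
  -- `x` is integral over `k`
  have hint : IsIntegral k x := by
    obtain ⟨f, hf, hf0⟩ := Algebra.IsIntegral.isIntegral (R := k) a
    refine ⟨f, hf, ?_⟩
    rw [← Polynomial.aeval_def] at hf0 ⊢
    apply hinj
    rw [map_zero, ← Polynomial.aeval_algHom_apply, hx1]
    have e5 : (a ⊗ₜ[k] (1 : P)) =
        (Algebra.TensorProduct.includeLeft : AA →ₐ[k] AA ⊗[k] P) a := rfl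
    rw [e5, Polynomial.aeval_algHom_apply, hf0, map_zero]
  have hrange : x ∈ (algebraMap k ↥(Opp k Z ι)).range :=
    minpoly.mem_range_of_degree_eq_one k x
      (IsAlgClosed.degree_eq_one_of_irreducible k (minpoly.irreducible hint))
  obtain ⟨c, hc⟩ := hrange
  refine ⟨c, ?_⟩
  have h1 : a ⊗ₜ[k] (1 : P) = (algebraMap k AA c) ⊗ₜ[k] (1 : P) := by
    rw [← hx1, ← hc, AlgHom.commutes]
    rfl
  exact AGKM.incl_inj h1

end Pool.Agent.Lib.MP_c37a72_al.EG
end

section
/-!
# MP_c37a72_al, block EG, module CST: no proper nonzero stable coideal ideals of `N`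
-/
set_option autoImplicit false

open scoped TensorProduct
open Coalgebra HopfAlgebra

namespace Pool.Agent.Lib.MP_c37a72_al.EG

universe u v w

namespace CSTM

section Rows

variable {H : Type v} [Ring H]

theorem vecMul_central_smul {r : ℕ} (g : Fin r → H) (M : Matrix (Fin r) (Fin r) H) (c : H)
    (hc : Cent c) : Matrix.vecMul g (c • M) = fun j => c * Matrix.vecMul g M j := by
  funext j
  simp only [Matrix.vecMul, dotProduct, Matrix.smul_apply, smul_eq_mul, Finset.mul_sum]
  refine Finset.sum_congr rfl fun i _ => ?_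
  rw [← mul_assoc, hc (g i), mul_assoc]

theorem vecMul_pow {r : ℕ} (g : Fin r → H) (Y : Matrix (Fin r) (Fin r) H)
    (hg : Matrix.vecMul g Y = g) (s : ℕ) : Matrix.vecMul g (Y ^ s) = g := by
  induction s with
  | zero => simp
  | succ s ih => rw [pow_succ', ← Matrix.vecMul_vecMul, hg, ih]

theorem row_eq {r m : ℕ} (g : Fin r → H) (Y : Matrix (Fin r) (Fin r) H)
    (hg : Matrix.vecMul g Y = g) (c : Fin m → H) (hc : ∀ s, Cent (c s))
    (he : Y ^ m + ∑ s, c s • Y ^ (s : ℕ) = 0) (j : Fin r) : (1 + ∑ s, c s) * g j = 0 := by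
  have h1 : Matrix.vecMul g (Y ^ m + ∑ s, c s • Y ^ (s : ℕ)) j = 0 := by rw [he]; simp
  have h2 : Matrix.vecMul g (Y ^ m + ∑ s, c s • Y ^ (s : ℕ)) j =
      Matrix.vecMul g (Y ^ m) j + ∑ s, Matrix.vecMul g (c s • Y ^ (s : ℕ)) j := by
    simp only [Matrix.vecMul, dotProduct, Matrix.add_apply, mul_add, Finset.sum_add_distrib,
      Matrix.sum_apply, Finset.mul_sum]
    congr 1
    rw [Finset.sum_comm]
  rw [h2, vecMul_pow g Y hg] at h1
  rw [add_mul, Finset.sum_mul, one_mul, ← h1]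
  congr 1
  refine Finset.sum_congr rfl fun s _ => ?_
  rw [vecMul_central_smul g _ _ (hc s), vecMul_pow g Y hg s]

end Rows

section Coid

variable {k : Type u} {H : Type v} [Field k] [Ring H] [HopfAlgebra k H]

/-- An element of the range of `tt ⊗ H → H ⊗ H` is a finite sum of tensors with left legs in `tt`. -/
theorem exists_sum (tt : Submodule k H) (w : H ⊗[k] H)
    (hw : w ∈ LinearMap.range (TensorProduct.map tt.subtype (LinearMap.id : H →ₗ[k] H))) :
    ∃ (n : ℕ) (x y : Fin n → H), (∀ i, x i ∈ tt) ∧ w = ∑ i, x i ⊗ₜ[k] y i := by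
  obtain ⟨t, rfl⟩ := hw
  obtain ⟨n, a, b, rfl⟩ := TensorProduct.exists_sum_tmul_eq t
  refine ⟨n, fun i => (a i : H), b, fun i => (a i).2, ?_⟩
  simp

/-- A nonzero right coideal contains an element with counit `1`. -/
theorem exists_counit (tt : Submodule k H) (hne : tt ≠ ⊥)
    (hc : ∀ x ∈ tt, comul (R := k) x ∈ LinearMap.range (TensorProduct.map tt.subtype
        (LinearMap.id : H →ₗ[k] H))) : ∃ x ∈ tt, counit (R := k) x = 1 := by
  obtain ⟨z, hz, hz0⟩ : ∃ z ∈ tt, counit (R := k) z ≠ 0 := by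
    by_contra hcon
    push Not at hcon
    refine hne ((Submodule.eq_bot_iff _).2 fun x hx => ?_)
    obtain ⟨n, a, b, ha, e⟩ := exists_sum tt _ (hc x hx)
    have h1 := Coalgebra.rTensor_counit_comul (R := k) x
    rw [e, map_sum] at h1
    have h2 := congrArg (TensorProduct.lid k H) h1
    rw [map_sum, TensorProduct.lid_tmul, one_smul] at h2
    rw [← h2]
    refine Finset.sum_eq_zero fun i _ => ?_
    rw [LinearMap.rTensor_tmul, TensorProduct.lid_tmul, hcon _ (ha i), zero_smul]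
  refine ⟨(counit (R := k) z)⁻¹ • z, tt.smul_mem _ hz, ?_⟩
  rw [map_smul, smul_eq_mul, inv_mul_cancel₀ hz0]

/-- `S⁻¹(x₂) x₁ = ε(x)`. -/
theorem sinv_mul (hS : Function.Bijective (antipode k (A := H))) {n : ℕ} {x : H}
    {a b s : Fin n → H} (e : comul (R := k) x = ∑ i, a i ⊗ₜ[k] b i)
    (hs : ∀ i, antipode k (s i) = b i) : ∑ i, s i * a i = counit (R := k) x • (1 : H) := by
  apply hS.1
  rw [map_sum, map_smul, HopfAlgebra.antipode_one]
  have h1 := HopfAlgebra.mul_antipode_rTensor_comul_apply (R := k) x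
  rw [e, map_sum, map_sum] at h1
  rw [← Algebra.algebraMap_eq_smul_one, ← h1]
  refine Finset.sum_congr rfl fun i _ => ?_
  rw [HopfAlgebra.antipode_mul_antidistrib, hs, LinearMap.rTensor_tmul, LinearMap.mul'_apply]

end Coid

end CSTM

theorem specCST : SpecCST.{u, v} := by
  intro k H Z Q _ _ _ _ _ _ _ _ _ _ ι hQ hS hgen tt hI hICH hne hco
  obtain ⟨r, g, hg⟩ := hgen
  obtain ⟨j0, hj0⟩ : ∃ j, g j ≠ 0 := by
    by_contra hcon
    push Not at hcon
    obtain ⟨c, -, h1⟩ := hg 1
    refine one_ne_zero (α := H) ?_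
    rw [h1]
    exact Finset.sum_eq_zero fun i _ => by rw [hcon i, zero_mul]
  obtain ⟨x, hx, hx1⟩ := CSTM.exists_counit tt hne hco
  obtain ⟨n, a, b, ha, e⟩ := CSTM.exists_sum tt _ (hco x hx)
  choose s hs using fun i => hS.2 (b i)
  have h1 : ∑ i, s i * a i = 1 := by
    rw [CSTM.sinv_mul hS e hs, hx1, one_smul]
  choose c hc hce using fun j l => hg (g j * s l)
  -- the matrix
  obtain ⟨T, hT⟩ : ∃ T : Matrix (Fin r) (Fin r) H, ∀ i j, T i j = ∑ l, c j l i * a l :=
    ⟨Matrix.of fun i j => ∑ l, c j l i * a l, fun _ _ => rfl⟩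
  have hTt : ∀ i j, T i j ∈ tt := fun i j => by
    rw [hT]
    exact tt.sum_mem fun l _ => (hI.mul _ (hc j l i) _ (ha l)).1
  have hgT : Matrix.vecMul g T = g := by
    funext j
    simp only [Matrix.vecMul, dotProduct, hT, Finset.mul_sum]
    rw [Finset.sum_comm]
    calc ∑ l, ∑ i, g i * (c j l i * a l) = ∑ l, (g j * s l) * a l := by
          refine Finset.sum_congr rfl fun l _ => ?_
          rw [hce j l, Finset.sum_mul]
          exact Finset.sum_congr rfl fun i _ => (mul_assoc _ _ _).symm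
      _ = g j * ∑ l, s l * a l := by
          rw [Finset.mul_sum]
          exact Finset.sum_congr rfl fun i _ => (mul_assoc _ _ _)
      _ = g j := by rw [h1, mul_one]
  obtain ⟨d, hd, hde⟩ := hICH r T hTt
  have h2 := CSTM.row_eq g T hgT d (fun s => (hd s).2) hde j0
  have h3 := (mul_eq_zero.1 h2).resolve_right hj0
  rw [eq_neg_of_add_eq_zero_left h3]
  exact tt.neg_mem (tt.sum_mem fun s _ => (hd s).1)

end Pool.Agent.Lib.MP_c37a72_al.EG
end

section
/-!
# MP_c37a72_al, block EG, module OLF (helper28)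

`O_l` is the set of the locally finite elements, a division subring, stable; the invariants are the
elements of `Z`. Left and right are treated together (`Act`).
-/
set_option autoImplicit false

open scoped TensorProduct
open Coalgebra HopfAlgebra

namespace Pool.Agent.Lib.MP_c37a72_al.EG

universe u v w

namespace OLFM

section
variable {k : Type u} {Z : Type v} {H Q : Type v} [Field k] [Ring H] [HopfAlgebra k H]
  [Field Z] [Algebra k Z] [DivisionRing Q] [Algebra k Q] [Algebra Z Q] [IsScalarTower k Z Q]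

theorem exists_fin (t : H ⊗[k] H) : ∃ (n : ℕ) (x y : Fin n → H), t = ∑ i, x i ⊗ₜ[k] y i := by
  obtain ⟨S, hS⟩ := TensorProduct.exists_finset t
  refine ⟨S.card, fun i => (S.equivFin.symm i).1.1, fun i => (S.equivFin.symm i).1.2, ?_⟩
  rw [hS, ← Finset.sum_coe_sort S (fun p : H × H => p.1 ⊗ₜ[k] p.2)]
  exact (Equiv.sum_comp S.equivFin.symm (fun p : S => p.1.1 ⊗ₜ[k] p.1.2)).symm

theorem counit_left {h : H} {n : ℕ} {x y : Fin n → H}
    (e : comul (R := k) h = ∑ i, x i ⊗ₜ[k] y i) : ∑ i, counit (R := k) (x i) • y i = h := by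
  have h1 := Coalgebra.rTensor_counit_comul (R := k) h
  rw [e, map_sum] at h1
  have h2 := congrArg (TensorProduct.lid k H) h1
  simpa using h2

theorem counit_right {h : H} {n : ℕ} {x y : Fin n → H}
    (e : comul (R := k) h = ∑ i, x i ⊗ₜ[k] y i) : ∑ i, counit (R := k) (y i) • x i = h := by
  have h1 := Coalgebra.lTensor_counit_comul (R := k) h
  rw [e, map_sum] at h1
  have h2 := congrArg (TensorProduct.rid k H) h1
  simpa using h2

/-- what is used of an adjoint action -/
structure Act (A : H →ₗ[k] Module.End Z Q) : Prop where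
  comp : ∀ g h : H, ∃ g' : H, ∀ q : Q, A g (A h q) = A g' q
  mul : ∀ (h : H), ∃ (n : ℕ) (x y : Fin n → H), ∀ p q : Q,
    A h (p * q) = ∑ i, A (x i) p * A (y i) q
  one : ∀ h : H, A h 1 = algebraMap k Q (counit h)

/-- the orbit span -/
noncomputable def orb (A : H →ₗ[k] Module.End Z Q) (q : Q) : Submodule k Q :=
  Submodule.span k (Set.range fun h : H => A h q)

theorem orb_le {A : H →ₗ[k] Module.End Z Q} {q : Q} {S : Submodule k Q} (h : ∀ h : H, A h q ∈ S) :
    orb A q ≤ S := by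
  rw [orb, Submodule.span_le]
  rintro _ ⟨g, rfl⟩
  exact h g

theorem mem_orb {A : H →ₗ[k] Module.End Z Q} (h : H) (q : Q) : A h q ∈ orb A q :=
  Submodule.subset_span ⟨h, rfl⟩

theorem fg_of_le {S T : Submodule k Q} (h : S ≤ T) (hT : T.FG) : S.FG := by
  have : FiniteDimensional k T := Module.Finite.iff_fg.mpr hT
  have := Submodule.finiteDimensional_of_le h
  exact Module.Finite.iff_fg.mp this

theorem act_alg {A : H →ₗ[k] Module.End Z Q} (hA : Act A) (h : H) (z : Z) :
    A h (algebraMap Z Q z) = algebraMap k Q (counit h) * algebraMap Z Q z := by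
  rw [Algebra.algebraMap_eq_smul_one z, map_smul, hA.one, Algebra.mul_smul_comm, mul_one]

theorem fg_alg {A : H →ₗ[k] Module.End Z Q} (hA : Act A) (z : Z) :
    (orb A (algebraMap Z Q z)).FG := by
  refine fg_of_le (T := Submodule.span k {algebraMap Z Q z}) (orb_le fun h => ?_)
    (Submodule.fg_span_singleton _)
  rw [act_alg hA, ← Algebra.smul_def]
  exact Submodule.smul_mem _ _ (Submodule.mem_span_singleton_self _)

theorem fg_add {A : H →ₗ[k] Module.End Z Q} {p q : Q} (hp : (orb A p).FG) (hq : (orb A q).FG) :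
    (orb A (p + q)).FG := by
  refine fg_of_le (orb_le fun h => ?_) (hp.sup hq)
  rw [map_add]
  exact Submodule.add_mem_sup (mem_orb h p) (mem_orb h q)

theorem fg_mul {A : H →ₗ[k] Module.End Z Q} (hA : Act A) {p q : Q} (hp : (orb A p).FG)
    (hq : (orb A q).FG) : (orb A (p * q)).FG := by
  refine fg_of_le (orb_le fun h => ?_) (hp.mul hq)
  obtain ⟨n, x, y, e⟩ := hA.mul h
  rw [e]
  exact Submodule.sum_mem _ fun i _ => Submodule.mul_mem_mul (mem_orb _ p) (mem_orb _ q)

theorem fg_act {A : H →ₗ[k] Module.End Z Q} (hA : Act A) {q : Q} (hq : (orb A q).FG) (h : H) :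
    (orb A (A h q)).FG := by
  refine fg_of_le (orb_le fun g => ?_) hq
  obtain ⟨g', hg'⟩ := hA.comp g h
  rw [hg']
  exact mem_orb g' q

theorem mem_adjoin {A : H →ₗ[k] Module.End Z Q} (hA : Act A) (q : Q) :
    q ∈ Algebra.adjoin Z {q : Q | Module.Finite k (orb A q)} ↔ Module.Finite k (orb A q) := by
  constructor
  · intro h
    induction h using Algebra.adjoin_induction with
    | mem x hx => exact hx
    | algebraMap z => exact Module.Finite.iff_fg.mpr (fg_alg hA z)
    | add x y _ _ hx hy =>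
      exact Module.Finite.iff_fg.mpr (fg_add (Module.Finite.iff_fg.mp hx)
        (Module.Finite.iff_fg.mp hy))
    | mul x y _ _ hx hy =>
      exact Module.Finite.iff_fg.mpr (fg_mul hA (Module.Finite.iff_fg.mp hx)
        (Module.Finite.iff_fg.mp hy))
  · intro h
    exact Algebra.subset_adjoin h

/-- subalgebras of `Q` are closed under inverses -/
theorem inv_mem [Module.Finite Z Q] (B : Subalgebra Z Q) {q : Q} (hq : q ∈ B) : q⁻¹ ∈ B := by
  by_cases h0 : q = 0
  · rw [h0, inv_zero]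
    exact B.zero_mem
  have hfin : Module.Finite Z ↥B :=
    Module.Finite.of_injective B.val.toLinearMap Subtype.val_injective
  let f : ↥B →ₗ[Z] ↥B := LinearMap.mulLeft Z ⟨q, hq⟩
  have hinj : Function.Injective f := by
    intro a b hab
    have h1 : q * (a : Q) = q * (b : Q) := congrArg Subtype.val hab
    exact Subtype.ext (mul_left_cancel₀ h0 h1)
  have hsurj : Function.Surjective f := LinearMap.injective_iff_surjective.mp hinj
  obtain ⟨p, hp⟩ := hsurj 1
  have h1 : q * (p : Q) = 1 := congrArg Subtype.val hp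
  have h2 : (p : Q) = q⁻¹ := eq_inv_of_mul_eq_one_right h1
  rw [← h2]
  exact p.2

/-- an element which commutes with `H` lies in `Z` -/
theorem mem_Z {ι : H →ₐ[k] Q} (hI : IsCQ k H Z Q ι) {q : Q} (h : ∀ a : H, ι a * q = q * ι a) :
    ∃ z : Z, algebraMap Z Q z = q := by
  refine hI.cent q fun x => ?_
  obtain ⟨c, a, hc0, hc, e⟩ := hI.frac x
  have hc0' : ι c ≠ 0 := by
    rw [← map_zero ι]
    exact fun h' => hc0 (hI.inj h')
  refine mul_left_cancel₀ hc0' ?_
  calc ι c * (x * q) = ι a * q := by rw [← mul_assoc, e]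
    _ = q * ι a := h a
    _ = q * (ι c * x) := by rw [e]
    _ = ι c * (q * x) := by rw [← mul_assoc, ← h c, mul_assoc]

end

end OLFM

open OLFM in
theorem specOLF (hADA : SpecADA.{u, v}) (hADB : SpecADB.{u, v}) : SpecOLF.{u, v} := by
  intro k H Z Q _ _ _ _ _ _ _ _ _ ι hI
  obtain ⟨⟨hl1, hr1⟩, hm, hp, hone⟩ := hADA k H Z Q ι
  have hl : Act (adlQ k Z ι) := by
    refine ⟨fun g h => ⟨g * h, fun q => ?_⟩, fun h => ?_, fun h => (hone h).1⟩
    · rw [(hm g h).1]
      rfl
    · obtain ⟨n, x, y, e⟩ := exists_fin (comul (R := k) h)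
      exact ⟨n, x, y, fun p q => (hp h n x y e p q).1⟩
  have hr : Act (adrQ k Z ι) := by
    refine ⟨fun g h => ⟨h * g, fun q => ?_⟩, fun h => ?_, fun h => (hone h).2⟩
    · rw [(hm h g).2]
      rfl
    · obtain ⟨n, x, y, e⟩ := exists_fin (comul (R := k) h)
      exact ⟨n, x, y, fun p q => (hp h n x y e p q).2⟩
  have h1 : ∀ q : Q, q ∈ Ol k Z ι ↔ LFl k Z ι q := fun q => mem_adjoin hl q
  have h2 : ∀ q : Q, q ∈ Or k Z ι ↔ LFr k Z ι q := fun q => mem_adjoin hr q
  have := hI.fin
  refine ⟨h1, h2, fun q hq => inv_mem _ hq, fun q hq => inv_mem _ hq, ?_, ?_, ?_, ?_⟩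
  · intro h q hq
    rw [h1] at hq ⊢
    exact Module.Finite.iff_fg.mpr (fg_act hl (Module.Finite.iff_fg.mp hq) h)
  · intro h q hq
    rw [h2] at hq ⊢
    exact Module.Finite.iff_fg.mpr (fg_act hr (Module.Finite.iff_fg.mp hq) h)
  · intro q
    constructor
    · intro hq
      refine mem_Z hI fun a => ?_
      obtain ⟨n, x, y, e⟩ := exists_fin (comul (R := k) a)
      rw [(hADB k H Z Q ι a n x y e q).1]
      have h3 : ∀ i, adlQ k Z ι (x i) q * ι (y i) = q * ι (counit (R := k) (x i) • y i) := by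
        intro i
        rw [hq, map_smul, Algebra.mul_smul_comm, Algebra.smul_def, ← mul_assoc]
      rw [Finset.sum_congr rfl fun i _ => h3 i, ← Finset.mul_sum, ← map_sum, counit_left e]
    · rintro ⟨z, rfl⟩ h
      exact act_alg hl h z
  · intro q
    constructor
    · intro hq
      refine mem_Z hI fun a => ?_
      obtain ⟨n, x, y, e⟩ := exists_fin (comul (R := k) a)
      rw [(hADB k H Z Q ι a n x y e q).2.1]
      have h3 : ∀ i, ι (x i) * adrQ k Z ι (y i) q = ι (counit (R := k) (y i) • x i) * q := by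
        intro i
        rw [hq, map_smul, Algebra.smul_mul_assoc, Algebra.smul_def, ← mul_assoc, ← mul_assoc,
          Algebra.commutes]
      rw [Finset.sum_congr rfl fun i _ => h3 i, ← Finset.sum_mul, ← map_sum, counit_right e]
    · rintro ⟨z, rfl⟩ h
      exact act_alg hr h z

end Pool.Agent.Lib.MP_c37a72_al.EG
end

section
/-!
# MP_c37a72_al, block EG, module END: assembly
-/
set_option autoImplicit false

open scoped TensorProduct
open Coalgebra HopfAlgebra

namespace Pool.Agent.Lib.MP_c37a72_al.EG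

universe u v w

theorem specEND (hKFD : SpecKFD.{u, v}) (hBID : SpecBID.{u, v}) (hNHN : SpecNHN.{u, v})
    (hICB : SpecICB.{u, v, w}) (hRET : SpecRET.{u, v}) (hREY : SpecREY.{u, v, w})
    (hFIN : SpecFIN.{u, v}) : SpecEND.{u, v, w} := by
  intro k H Z Q _ _ _ _ _ _ _ _ _ _ _ _ _ ι hQ hS hF AA P _ _ _ _ _ _ ρ ψ θ hC
  obtain ⟨J, hJ2, hJc, hJf, hJO, hJN⟩ := hKFD k H Z Q ι hQ hF
  haveI := hJ2
  haveI := hBID k H J hJc hJf
  have hI : ∀ tt : Submodule k H, NIdl k Z ι tt → ICH k Z ι tt :=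
    hICB k H Z Q ι hQ AA P ρ ψ θ hC
  exact hFIN k H Z Q ι hQ (hNHN k H Z Q ι hQ hS J hJf hJO).2 hI
    (hRET k H Z Q ι hQ hS hI J hJf hJO hJN) (hREY k H Z Q ι hQ AA P ρ ψ θ hC)

end Pool.Agent.Lib.MP_c37a72_al.EG
end

section
/-!
# MP_c37a72_al, block EG, module FIN: `H` is a finitely generated module over its centre
-/
set_option autoImplicit false

open scoped TensorProduct
open Coalgebra HopfAlgebra

namespace Pool.Agent.Lib.MP_c37a72_al.EG

universe u v w

namespace FINM

section Rows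

variable {H : Type v} [Ring H]

theorem vecMul_central_smul {r : ℕ} (g : Fin r → H) (M : Matrix (Fin r) (Fin r) H) (c : H)
    (hc : Cent c) : Matrix.vecMul g (c • M) = fun j => c * Matrix.vecMul g M j := by
  funext j
  simp only [Matrix.vecMul, dotProduct, Matrix.smul_apply, smul_eq_mul, Finset.mul_sum]
  refine Finset.sum_congr rfl fun i _ => ?_
  rw [← mul_assoc, hc (g i), mul_assoc]

theorem vecMul_pow {r : ℕ} (g : Fin r → H) (Y : Matrix (Fin r) (Fin r) H) (h : H)
    (hg : ∀ j, h * g j = Matrix.vecMul g Y j) (s : ℕ) :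
    ∀ j, h ^ s * g j = Matrix.vecMul g (Y ^ s) j := by
  induction s with
  | zero => intro j; simp
  | succ s ih =>
    intro j
    have h1 : Matrix.vecMul g (Y ^ (s + 1)) = Matrix.vecMul (Matrix.vecMul g Y) (Y ^ s) := by
      rw [Matrix.vecMul_vecMul, pow_succ']
    rw [h1, pow_succ', mul_assoc, ih j]
    simp only [Matrix.vecMul, dotProduct, Finset.mul_sum]
    refine Finset.sum_congr rfl fun i _ => ?_
    have := hg i
    simp only [Matrix.vecMul, dotProduct] at this
    rw [← mul_assoc, this]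

theorem row_eq {r m : ℕ} (g : Fin r → H) (Y : Matrix (Fin r) (Fin r) H) (h : H)
    (hg : ∀ j, h * g j = Matrix.vecMul g Y j) (c : Fin m → H) (hc : ∀ s, Cent (c s))
    (he : Y ^ m + ∑ s, c s • Y ^ (s : ℕ) = 0) (j : Fin r) :
    (h ^ m + ∑ s, c s * h ^ (s : ℕ)) * g j = 0 := by
  have h1 : Matrix.vecMul g (Y ^ m + ∑ s, c s • Y ^ (s : ℕ)) j = 0 := by rw [he]; simp
  have h2 : Matrix.vecMul g (Y ^ m + ∑ s, c s • Y ^ (s : ℕ)) j =
      Matrix.vecMul g (Y ^ m) j + ∑ s, Matrix.vecMul g (c s • Y ^ (s : ℕ)) j := by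
    simp only [Matrix.vecMul, dotProduct, Matrix.add_apply, mul_add, Finset.sum_add_distrib,
      Matrix.sum_apply, Finset.mul_sum]
    congr 1
    rw [Finset.sum_comm]
  rw [h2] at h1
  rw [add_mul, Finset.sum_mul, ← h1, vecMul_pow g Y h hg m j]
  congr 1
  refine Finset.sum_congr rfl fun s _ => ?_
  rw [vecMul_central_smul g _ _ (hc s), mul_assoc, vecMul_pow g Y h hg s j]

/-- Cancel powers of `h`: a polynomial relation with central coefficients gives a nonzero central
multiple of `h`. -/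
theorem cancel [IsDomain H] (A : Set H) (hA : ∀ a ∈ A, Cent a) (h : H) (hh : h ≠ 0) :
    ∀ (m : ℕ) (c : ℕ → H), (∀ i, c i ∈ A) → (∃ i ≤ m, c i ≠ 0) →
      ∑ i ∈ Finset.range (m + 1), c i * h ^ i = 0 → ∃ v : H, ∃ a ∈ A, a ≠ 0 ∧ h * v = a := by
  intro m
  induction m with
  | zero =>
    intro c _ h0 hs
    obtain ⟨i, hi, hi0⟩ := h0
    have : i = 0 := by omega
    subst this
    simp at hs
    exact absurd hs hi0
  | succ m ih =>
    intro c hc h0 hs
    rw [Finset.sum_range_succ'] at hs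
    have e1 : ∑ i ∈ Finset.range (m + 1), c (i + 1) * h ^ (i + 1) =
        (∑ i ∈ Finset.range (m + 1), c (i + 1) * h ^ i) * h := by
      rw [Finset.sum_mul]
      refine Finset.sum_congr rfl fun i _ => ?_
      rw [pow_succ, mul_assoc]
    have e2 : h * (∑ i ∈ Finset.range (m + 1), c (i + 1) * h ^ i) =
        (∑ i ∈ Finset.range (m + 1), c (i + 1) * h ^ i) * h := by
      rw [Finset.sum_mul, Finset.mul_sum]
      refine Finset.sum_congr rfl fun i _ => ?_
      rw [← mul_assoc, hA _ (hc (i + 1)) h, mul_assoc, mul_assoc, ← pow_succ, ← pow_succ']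
    rw [e1, pow_zero, mul_one] at hs
    by_cases hc0 : c 0 = 0
    · rw [hc0, add_zero] at hs
      have hs' := (mul_eq_zero.1 hs).resolve_right hh
      refine ih (fun i => c (i + 1)) (fun i => hc _) ?_ hs'
      obtain ⟨i, hi, hi0⟩ := h0
      rcases i with _ | i
      · exact absurd hc0 hi0
      · exact ⟨i, by omega, hi0⟩
    · refine ⟨-(∑ i ∈ Finset.range (m + 1), c (i + 1) * h ^ i), c 0, hc 0, hc0, ?_⟩
      rw [mul_neg, e2]
      exact neg_eq_of_add_eq_zero_right hs

end Rows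

section Rey

variable (k : Type u) {H : Type v} [Field k] [Ring H] [HopfAlgebra k H]

theorem adRH_central (h c x : H) (hc : Cent c) : adRH k H h (c * x) = c * adRH k H h x := by
  rw [adRH_repr k H (Coalgebra.Repr.arbitrary k h), adRH_repr k H (Coalgebra.Repr.arbitrary k h),
    Finset.mul_sum]
  refine Finset.sum_congr rfl fun i _ => ?_
  rw [← mul_assoc, hc, ← mul_assoc, ← mul_assoc]

end Rey

section Noeth

variable {k : Type u} {H : Type v} [Field k] [Ring H] [Algebra k H]

theorem noeth [IsNoetherianRing H] (A : Subalgebra k H) (hA : ∀ a ∈ A, Cent a) (Φ : H →+ H)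
    (hΦ : ∀ x, Φ x ∈ A) (hm : ∀ a ∈ A, ∀ x, Φ (a * x) = a * Φ x) (h1 : Φ 1 = 1) :
    IsNoetherianRing ↥A := by
  have hfix : ∀ a ∈ A, Φ a = a := fun a ha => by
    have := hm a ha 1
    rwa [mul_one, h1, mul_one] at this
  have key : ∀ I : Ideal ↥A, ∀ y ∈ (Submodule.span H ((fun a : ↥A => (a : H)) '' (I : Set ↥A)) :
      Submodule H H), ∀ g : H, ∃ w ∈ I, (w : H) = Φ (g * y) := by
    intro I y hy
    induction hy using Submodule.span_induction with
    | mem y hy =>
      intro g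
      obtain ⟨a, ha, rfl⟩ := hy
      refine ⟨⟨Φ g, hΦ g⟩ * a, I.mul_mem_left _ ha, ?_⟩
      simp only [MulMemClass.coe_mul]
      rw [hA (a : H) a.2 g, hm a a.2, hA (a : H) a.2 (Φ g)]
    | zero => intro g; exact ⟨0, I.zero_mem, by simp⟩
    | add x y _ _ hx hy =>
      intro g
      obtain ⟨w1, h1, e1⟩ := hx g
      obtain ⟨w2, h2, e2⟩ := hy g
      exact ⟨w1 + w2, I.add_mem h1 h2, by rw [mul_add, map_add, ← e1, ← e2]; rfl⟩
    | smul r x _ hx =>
      intro g
      obtain ⟨w1, h1, e1⟩ := hx (g * r)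
      exact ⟨w1, h1, by rw [e1, smul_eq_mul, mul_assoc]⟩
  have key2 : ∀ I : Ideal ↥A, ∀ a : ↥A,
      (a : H) ∈ (Submodule.span H ((fun a : ↥A => (a : H)) '' (I : Set ↥A)) : Submodule H H) →
        a ∈ I := by
    intro I a ha
    obtain ⟨w, hw, e⟩ := key I a ha 1
    rw [one_mul, hfix a a.2] at e
    rwa [Subtype.ext e] at hw
  let f : Ideal ↥A ↪o Submodule H H :=
    OrderEmbedding.ofMapLEIff
      (fun I => Submodule.span H ((fun a : ↥A => (a : H)) '' (I : Set ↥A))) (by
        intro I J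
        constructor
        · intro hle a ha
          exact key2 J a (hle (Submodule.subset_span ⟨a, ha, rfl⟩))
        · intro hle
          exact Submodule.span_mono (Set.image_mono hle))
  have hH : WellFoundedGT (Submodule H H) := (isNoetherian_iff').1 (inferInstance : IsNoetherian H H)
  have : WellFoundedGT (Ideal ↥A) := f.wellFoundedGT
  exact (isNoetherian_iff').2 this

theorem fin_of_dep [IsDomain H] (A : Subalgebra k H) [IsNoetherianRing ↥A]
    (hA : ∀ a ∈ A, Cent a) (Φ : H →+ H)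
    (hΦ : ∀ x, Φ x ∈ A) (hm : ∀ a ∈ A, ∀ x, Φ (a * x) = a * Φ x) (h1 : Φ 1 = 1)
    (hinv : ∀ h : H, h ≠ 0 → ∃ v : H, ∃ a ∈ A, a ≠ 0 ∧ h * v = a) (n : ℕ) (hdep : DepA A n) :
    Module.Finite ↥A H := by
  classical
  have hfix : ∀ a ∈ A, Φ a = a := fun a ha => by
    have := hm a ha 1
    rwa [mul_one, h1, mul_one] at this
  -- a maximal independent family
  have hex : ∃ s : ℕ, ¬ ∃ v : Fin s → H, ∀ c : Fin s → H, (∀ i, c i ∈ A) → ∑ i, c i * v i = 0 →
      ∀ i, c i = 0 := by
    refine ⟨n + 1, ?_⟩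
    rintro ⟨v, hv⟩
    obtain ⟨c, hc, ⟨i, hi⟩, hs⟩ := hdep v
    exact hi (hv c hc hs i)
  have hs1 := Nat.find_spec hex
  have hmin : ∀ t < Nat.find hex, ∃ v : Fin t → H, ∀ c : Fin t → H, (∀ i, c i ∈ A) →
      ∑ i, c i * v i = 0 → ∀ i, c i = 0 := fun t ht => not_not.1 (Nat.find_min hex ht)
  obtain ⟨s, hs⟩ : ∃ s, Nat.find hex = s + 1 := by
    refine Nat.exists_eq_succ_of_ne_zero fun h0 => ?_
    rw [h0] at hs1
    exact hs1 ⟨Fin.elim0, fun _ _ _ i => i.elim0⟩
  obtain ⟨v, hv⟩ := hmin s (by omega)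
  rw [hs] at hs1
  have hmax : ∀ x : H, ∃ a ∈ A, a ≠ 0 ∧ ∃ c : Fin s → H, (∀ i, c i ∈ A) ∧
      a * x = ∑ i, c i * v i := by
    intro x
    have h2 : ∃ c : Fin (s + 1) → H, (∀ i, c i ∈ A) ∧
        ∑ i, c i * (Fin.cons x v : Fin (s + 1) → H) i = 0 ∧ ∃ i, c i ≠ 0 := by
      by_contra hcon
      refine hs1 ⟨Fin.cons x v, fun c hc hsum i => ?_⟩
      by_contra hne
      exact hcon ⟨c, hc, hsum, i, hne⟩
    obtain ⟨c, hc, hsum, i, hne⟩ := h2
    rw [Fin.sum_univ_succ] at hsum
    simp only [Fin.cons_zero, Fin.cons_succ] at hsum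
    refine ⟨c 0, hc 0, ?_, fun i => -(c i.succ), fun i => A.neg_mem (hc _), ?_⟩
    · intro h0
      rw [h0, zero_mul, zero_add] at hsum
      have h3 := hv (fun i => c i.succ) (fun i => hc _) hsum
      refine hne ?_
      refine Fin.cases h0 (fun j => h3 j) i
    · rw [eq_neg_of_add_eq_zero_left hsum, ← Finset.sum_neg_distrib]
      exact Finset.sum_congr rfl fun i _ => (neg_mul _ _).symm
  let Ψ : H →ₗ[↥A] (Fin s → ↥A) :=
    { toFun := fun h j => ⟨Φ (h * v j), hΦ _⟩
      map_add' := by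
        intro x y
        funext j
        apply Subtype.ext
        simp [add_mul]
      map_smul' := by
        intro a x
        funext j
        apply Subtype.ext
        simp only [RingHom.id_apply, Pi.smul_apply, smul_eq_mul, MulMemClass.coe_mul]
        rw [← hm a a.2]
        congr 1
        change ((a : H) * x) * v j = _
        rw [mul_assoc] }
  have hinj : Function.Injective Ψ := by
    rw [injective_iff_map_eq_zero]
    intro h hh
    by_contra hne
    have hz : ∀ j, Φ (h * v j) = 0 := fun j => congrArg Subtype.val (congrFun hh j)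
    obtain ⟨w, c, hcA, hc0, hw⟩ := hinv h hne
    obtain ⟨a, haA, ha0, d, hd, hsum⟩ := hmax w
    have e1 : a * c = Φ (h * (a * w)) := by
      rw [← mul_assoc, hA a haA h, mul_assoc, hw, hm a haA, hfix c hcA]
    have e2 : Φ (h * (a * w)) = 0 := by
      rw [hsum, Finset.mul_sum, map_sum]
      refine Finset.sum_eq_zero fun j _ => ?_
      rw [← mul_assoc, hA _ (hd j) h, mul_assoc, hm _ (hd j), hz j, mul_zero]
    rw [e2] at e1
    exact (mul_ne_zero ha0 hc0) e1
  have : IsNoetherian ↥A H := isNoetherian_of_injective Ψ hinj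
  infer_instance

theorem fin_center (A : Subalgebra k H) (hA : ∀ a ∈ A, Cent a) (hf : Module.Finite ↥A H) :
    Module.Finite (Subalgebra.center k H) H := by
  obtain ⟨s, hs⟩ := hf.1
  refine ⟨⟨s, ?_⟩⟩
  rw [eq_top_iff]
  intro x _
  have hx : x ∈ Submodule.span ↥A (s : Set H) := by rw [hs]; trivial
  induction hx using Submodule.span_induction with
  | mem x hx => exact Submodule.subset_span hx
  | zero => exact Submodule.zero_mem _
  | add x y _ _ hx hy => exact Submodule.add_mem _ (hx trivial) (hy trivial)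
  | smul a x _ hx =>
    have ha : (a : H) ∈ Subalgebra.center k H := by
      rw [Subalgebra.mem_center_iff]
      intro b
      exact hA a a.2 b
    exact Submodule.smul_mem _ (⟨a, ha⟩ : Subalgebra.center k H) (hx trivial)

end Noeth

end FINM

theorem specFIN (hNFA : SpecNFA.{u, v}) (hNUA : SpecNUA.{u, v}) : SpecFIN.{u, v} := by
  intro k H Z Q _ _ _ _ _ _ _ _ _ _ _ _ ι hQ hgen hICH hE he
  obtain ⟨n1, -, -, n4, -, -, n7, -⟩ := hNFA k H Z Q ι hQ
  obtain ⟨r, g, hg⟩ := hgen
  obtain ⟨E, hEN, hEl, hE1⟩ := hE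
  obtain ⟨e, he1, heA⟩ := he
  -- `N` is an ideal of itself
  have hNI : NIdl k Z ι (Subalgebra.toSubmodule (NN k Z ι)) :=
    { le := fun x hx => hx
      mul := fun n hn x hx => ⟨(NN k Z ι).mul_mem hn hx, (NN k Z ι).mul_mem hx hn⟩
      ad := fun h x hx => n4 h x hx }
  have hA : ∀ a ∈ A0 k Z ι, Cent a := fun a ha x =>
    (Subalgebra.mem_center_iff.1 (Algebra.mem_inf.1 ha).2 x)
  have hAN : ∀ a ∈ A0 k Z ι, a ∈ NN k Z ι := fun a ha => (Algebra.mem_inf.1 ha).1
  -- some generator is nonzero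
  obtain ⟨j0, hj0⟩ : ∃ j, g j ≠ 0 := by
    by_contra hcon
    push Not at hcon
    obtain ⟨c, -, h1⟩ := hg 1
    refine one_ne_zero (α := H) ?_
    rw [h1]
    exact Finset.sum_eq_zero fun i _ => by rw [hcon i, zero_mul]
  -- integrality
  obtain ⟨m, hint⟩ : ∃ m : ℕ, ∀ h : H, ∃ c : Fin m → H,
      (∀ s, c s ∈ A0 k Z ι) ∧ h ^ m + ∑ s, c s * h ^ (s : ℕ) = 0 := by
    refine ⟨r * Module.finrank Z ↥(Opp k Z ι), fun h => ?_⟩
    choose Y hY hYe using fun j => hg (h * g j)
    obtain ⟨c, hc, hce⟩ := hICH _ hNI r (Matrix.of fun i j => Y j i) (fun i j => hY j i)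
    refine ⟨c, fun s => Algebra.mem_inf.2 ⟨(hc s).1, Subalgebra.mem_center_iff.2 (hc s).2⟩, ?_⟩
    have := FINM.row_eq g (Matrix.of fun i j => Y j i) h
      (fun j => by rw [hYe j]; rfl) c (fun s => (hc s).2) hce j0
    exact (mul_eq_zero.1 this).resolve_right hj0
  -- nonzero central multiples
  have hinv : ∀ h : H, h ≠ 0 → ∃ v : H, ∃ a ∈ A0 k Z ι, a ≠ 0 ∧ h * v = a := by
    intro h hh
    obtain ⟨c, hc, hce⟩ := hint h
    refine FINM.cancel (A0 k Z ι : Set H) hA h hh m
      (fun i => if hi : i < m then c ⟨i, hi⟩ else if i = m then 1 else 0) ?_ ⟨m, le_rfl, by simp⟩ ?_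
    · intro i
      split_ifs
      · exact hc _
      · exact (A0 k Z ι).one_mem
      · exact (A0 k Z ι).zero_mem
    · rw [Finset.sum_range_succ, ← hce, add_comm]
      congr 1
      · simp
      · rw [Finset.sum_range]
        refine Finset.sum_congr rfl fun i _ => ?_
        rw [dif_pos i.2]
  -- the projection
  let Φ : H →+ H := ((adRH k H e) ∘ₗ E).toAddMonoidHom
  have hΦ : ∀ x, Φ x ∈ A0 k Z ι := fun x => heA _ (hEN x)
  have hΦm : ∀ a ∈ A0 k Z ι, ∀ x, Φ (a * x) = a * Φ x := by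
    intro a ha x
    change adRH k H e (E (a * x)) = a * adRH k H e (E x)
    rw [hEl a (hAN a ha), FINM.adRH_central k e a _ (hA a ha)]
  have hΦ1 : Φ 1 = 1 := by
    change adRH k H e (E 1) = 1
    rw [hE1, he1]
  have := FINM.noeth (A0 k Z ι) hA Φ hΦ hΦm hΦ1
  obtain ⟨n, hn⟩ := hNUA k H Z Q ι hQ (A0 k Z ι) hA ⟨_, fun z _ => ⟨_, le_rfl, hint z⟩⟩
  exact FINM.fin_center (A0 k Z ι) hA
    (FINM.fin_of_dep (A0 k Z ι) hA Φ hΦ hΦm hΦ1 hinv n hn)

end Pool.Agent.Lib.MP_c37a72_al.EG
end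

section
/-!
# MP_c37a72_al, block EG, module NUA (helper28)

If the central elements of `H` have bounded degree over the central subalgebra `A` then every `n + 1`
elements of `H` are dependent over `A`, for some `n`.
-/
set_option autoImplicit false

open scoped TensorProduct
open Coalgebra HopfAlgebra

namespace Pool.Agent.Lib.MP_c37a72_al.EG

universe u v w

namespace NUAM

open IntermediateField in
/-- A field `Z` which is the fraction field of a subalgebra whose elements have bounded degree over `F`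
is finite over `F`. -/
theorem fin_of_bound {k F Z : Type*} [Field k] [Infinite k] [Field F] [CharZero F] [Field Z]
    [Algebra F Z] [Algebra k F] [Algebra k Z] [IsScalarTower k F Z] (C : Subalgebra k Z) (B : ℕ)
    (hB : ∀ z ∈ C, IsIntegral F z ∧ (minpoly F z).natDegree ≤ B)
    (hfrac : ∀ z : Z, ∃ a ∈ C, ∃ b ∈ C, b ≠ 0 ∧ b * z = a) : Module.Finite F Z := by
  -- an element of maximal degree
  obtain ⟨z₀, hz₀, hmax⟩ : ∃ z₀ ∈ C, ∀ z ∈ C, (minpoly F z).natDegree ≤
      (minpoly F z₀).natDegree := by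
    let s : Set ℕ := {d | ∃ z ∈ C, (minpoly F z).natDegree = d}
    have hs : s.Nonempty := ⟨_, 0, C.zero_mem, rfl⟩
    have hb : BddAbove s := ⟨B, by
      rintro d ⟨z, hz, rfl⟩
      exact (hB z hz).2⟩
    obtain ⟨z₀, hz₀, e⟩ := Nat.sSup_mem hs hb
    refine ⟨z₀, hz₀, fun z hz => ?_⟩
    rw [e]
    exact le_csSup hb ⟨z, hz, rfl⟩
  have hz₀i : IsIntegral F z₀ := (hB z₀ hz₀).1
  have key : ∀ z ∈ C, z ∈ F⟮z₀⟯ := by
    intro z hz
    have hzi : IsIntegral F z := (hB z hz).1
    let M : IntermediateField F Z := adjoin F {z₀, z}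
    have hMfin : FiniteDimensional F M := finiteDimensional_adjoin_pair hz₀i hzi
    have hz₀M : z₀ ∈ M := subset_adjoin F _ (by simp)
    have hzM : z ∈ M := subset_adjoin F _ (by simp)
    have hfinite : Finite (IntermediateField F M) :=
      (Field.exists_primitive_element_iff_finite_intermediateField F M).mp
        ⟨inferInstance, Field.exists_primitive_element F M⟩
    let f : k → IntermediateField F M := fun c =>
      F⟮(⟨z₀, hz₀M⟩ + algebraMap F M (algebraMap k F c) * ⟨z, hzM⟩ : M)⟯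
    obtain ⟨c, c', hne, heq⟩ := Finite.exists_ne_map_eq_of_infinite f
    -- both elements lie in `F⟮z₀ + c z⟯`
    have hc : (⟨z₀, hz₀M⟩ + algebraMap F M (algebraMap k F c) * ⟨z, hzM⟩ : M) ∈ f c :=
      mem_adjoin_simple_self F _
    have hc' : (⟨z₀, hz₀M⟩ + algebraMap F M (algebraMap k F c') * ⟨z, hzM⟩ : M) ∈ f c := by
      rw [heq]
      exact mem_adjoin_simple_self F _
    have hd : algebraMap F M (algebraMap k F (c - c')) * ⟨z, hzM⟩ ∈ f c := by
      have h1 := sub_mem hc hc'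
      have h2 : (⟨z₀, hz₀M⟩ + algebraMap F M (algebraMap k F c) * ⟨z, hzM⟩ : M) -
          (⟨z₀, hz₀M⟩ + algebraMap F M (algebraMap k F c') * ⟨z, hzM⟩) =
          algebraMap F M (algebraMap k F (c - c')) * ⟨z, hzM⟩ := by
        rw [map_sub, map_sub]
        ring
      rwa [h2] at h1
    have hcc : algebraMap k F (c - c') ≠ 0 := by
      rw [Ne, map_eq_zero, sub_eq_zero]
      exact hne
    have hzf : (⟨z, hzM⟩ : M) ∈ f c := by
      have h3 : algebraMap F M ((algebraMap k F (c - c'))⁻¹) ∈ f c := _root_.algebraMap_mem _ _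
      have h4 := mul_mem h3 hd
      rw [← mul_assoc, ← map_mul, inv_mul_cancel₀ hcc, map_one, one_mul] at h4
      exact h4
    have hz₀f : (⟨z₀, hz₀M⟩ : M) ∈ f c := by
      have h3 : algebraMap F M (algebraMap k F c) ∈ f c := _root_.algebraMap_mem _ _
      have h4 := sub_mem hc (mul_mem h3 hzf)
      rwa [add_sub_cancel_right] at h4
    -- move to `Z`
    let y : Z := z₀ + algebraMap F Z (algebraMap k F c) * z
    have hyC : y ∈ C := by
      refine add_mem hz₀ (mul_mem ?_ hz)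
      rw [← IsScalarTower.algebraMap_apply k F Z]
      exact C.algebraMap_mem c
    have hmap : (f c).map M.val = F⟮y⟯ := by
      rw [adjoin_map, Set.image_singleton]
      rfl
    have hzy : z ∈ F⟮y⟯ := by
      rw [← hmap]
      exact ⟨⟨z, hzM⟩, hzf, rfl⟩
    have hz₀y : z₀ ∈ F⟮y⟯ := by
      rw [← hmap]
      exact ⟨⟨z₀, hz₀M⟩, hz₀f, rfl⟩
    have hyi : IsIntegral F y := (hB y hyC).1
    have hyfin : FiniteDimensional F F⟮y⟯ := adjoin.finiteDimensional hyi
    have hle : F⟮z₀⟯ ≤ F⟮y⟯ := adjoin_simple_le_iff.mpr hz₀y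
    have heq' : F⟮z₀⟯ = F⟮y⟯ := by
      apply eq_of_le_of_finrank_le hle
      rw [adjoin.finrank hyi, adjoin.finrank hz₀i]
      exact hmax y hyC
    rw [heq']
    exact hzy
  have hfin : FiniteDimensional F F⟮z₀⟯ := adjoin.finiteDimensional hz₀i
  refine Module.Finite.of_surjective (F⟮z₀⟯.val.toLinearMap) ?_
  intro z
  obtain ⟨a, ha, b, hb, hb0, e⟩ := hfrac z
  refine ⟨⟨z, ?_⟩, rfl⟩
  have h1 : z = a / b := by
    rw [eq_div_iff hb0, mul_comm]
    exact e
  rw [h1]
  exact div_mem (key a ha) (key b hb)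

end NUAM

theorem specNUA : SpecNUA.{u, v} := by
  intro k H Z Q _ _ _ _ _ _ _ _ _ _ _ ι hI A hA hbound
  obtain ⟨B, hB⟩ := hbound
  have hfinQ := hI.fin
  let j : Z →ₐ[k] Q := IsScalarTower.toAlgHom k Z Q
  have hj : ∀ z, j z = algebraMap Z Q z := fun z => rfl
  have jinj : Function.Injective j := (algebraMap Z Q).injective
  have hcomm : ∀ (z : Z) (q : Q), algebraMap Z Q z * q = q * algebraMap Z Q z :=
    fun z q => Algebra.commutes z q
  have hcent : ∀ c : H, Cent c → ∃ z : Z, algebraMap Z Q z = ι c := by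
    intro c hc
    refine OLFM.mem_Z hI fun a => ?_
    rw [← map_mul, ← map_mul, hc a]
  -- the subalgebras of `Z`
  let C : Subalgebra k Z := ((Subalgebra.center k H).map ι).comap j
  let SA : Subalgebra k Z := (A.map ι).comap j
  have hC : ∀ z, z ∈ C ↔ ∃ c : H, Cent c ∧ ι c = algebraMap Z Q z := by
    intro z
    constructor
    · rintro ⟨c, hc, e⟩
      exact ⟨c, fun x => (Subalgebra.mem_center_iff.mp hc x), e⟩
    · rintro ⟨c, hc, e⟩
      exact ⟨c, Subalgebra.mem_center_iff.mpr fun x => hc x, e⟩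
  have hSA : ∀ z, z ∈ SA ↔ ∃ a ∈ A, ι a = algebraMap Z Q z := by
    intro z
    constructor
    · rintro ⟨c, hc, e⟩
      exact ⟨c, hc, e⟩
    · rintro ⟨c, hc, e⟩
      exact ⟨c, hc, e⟩
  let F : IntermediateField k Z := IntermediateField.adjoin k (SA : Set Z)
  have hSAF : ∀ z ∈ SA, z ∈ F := fun z hz => IntermediateField.subset_adjoin k _ hz
  have hF : ∀ z ∈ F, ∃ r ∈ SA, ∃ s ∈ SA, s ≠ 0 ∧ z * s = r := by
    intro z hz
    rw [IntermediateField.mem_adjoin_iff_div, Algebra.adjoin_eq] at hz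
    obtain ⟨r, hr, s, hs, e⟩ := hz
    by_cases hs0 : s = 0
    · refine ⟨0, SA.zero_mem, 1, SA.one_mem, one_ne_zero, ?_⟩
      rw [e, hs0, div_zero, zero_mul]
    · refine ⟨r, hr, s, hs, hs0, ?_⟩
      rw [e, div_mul_cancel₀ _ hs0]
  have hdeg : ∀ z ∈ C, IsIntegral F z ∧ (minpoly F z).natDegree ≤ B := by
    intro z hz
    obtain ⟨c, hc, e⟩ := (hC z).mp hz
    obtain ⟨m, hm, a, ha, he⟩ := hB c hc
    have ha' : ∀ i, ∃ y : Z, y ∈ SA ∧ algebraMap Z Q y = ι (a i) := by
      intro i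
      obtain ⟨y, hy⟩ := hcent (a i) (hA _ (ha i))
      exact ⟨y, (hSA y).mpr ⟨a i, ha i, hy.symm⟩, hy⟩
    choose y hy hy' using ha'
    let g : Fin m → F := fun i => ⟨y i, hSAF _ (hy i)⟩
    let p : Polynomial F := Polynomial.X ^ m + ∑ i : Fin m, Polynomial.C (g i) *
      Polynomial.X ^ (i : ℕ)
    have hlt : (∑ i : Fin m, Polynomial.C (g i) * Polynomial.X ^ (i : ℕ)).degree < (m : WithBot ℕ) :=
      Polynomial.degree_sum_fin_lt g
    have hmonic : p.Monic := Polynomial.monic_X_pow_add hlt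
    have hnat : p.natDegree ≤ m := by
      refine Polynomial.natDegree_le_iff_degree_le.mpr ?_
      refine le_trans (Polynomial.degree_add_le _ _) (max_le ?_ hlt.le)
      exact Polynomial.degree_X_pow_le m
    have hroot : Polynomial.aeval z p = 0 := by
      apply jinj
      rw [map_zero, hj]
      have e1 : Polynomial.aeval z p = z ^ m + ∑ i : Fin m, y i * z ^ (i : ℕ) := by
        simp only [p, map_add, map_pow, map_sum, map_mul, Polynomial.aeval_X, Polynomial.aeval_C]
        rfl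
      rw [e1, map_add, map_pow, map_sum, ← e]
      have e2 : ∀ i : Fin m, algebraMap Z Q (y i * z ^ (i : ℕ)) = ι (a i * c ^ (i : ℕ)) := by
        intro i
        rw [map_mul, map_pow, hy', ← e, map_mul, map_pow]
      rw [Finset.sum_congr rfl fun i _ => e2 i, ← map_sum, ← map_pow, ← map_add, he, map_zero]
    refine ⟨⟨p, hmonic, ?_⟩, ?_⟩
    · rw [← Polynomial.aeval_def]
      exact hroot
    · exact (Polynomial.natDegree_le_natDegree
        (minpoly.min F z hmonic hroot)).trans (hnat.trans hm)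
  have hfrac : ∀ z : Z, ∃ a ∈ C, ∃ b ∈ C, b ≠ 0 ∧ b * z = a := by
    intro z
    obtain ⟨c, h, hc0, hc, e⟩ := hI.frac (algebraMap Z Q z)
    obtain ⟨b, hb⟩ := hcent c hc
    have hh : Cent h := by
      intro x
      apply hI.inj
      rw [map_mul, map_mul, ← e, ← hb]
      rw [← mul_assoc, ← hcomm b (ι x), mul_assoc, ← hcomm z (ι x), mul_assoc]
    refine ⟨b * z, (hC _).mpr ⟨h, hh, ?_⟩, b, (hC b).mpr ⟨c, hc, hb.symm⟩, ?_, rfl⟩
    · rw [map_mul, hb, e]
    · intro h0
      rw [h0, map_zero] at hb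
      exact hc0 (hI.inj (by rw [← hb, map_zero]))
  have hZF : Module.Finite F Z := NUAM.fin_of_bound C B hdeg hfrac
  have hQF : Module.Finite F Q := Module.Finite.trans Z Q
  refine ⟨Module.finrank F Q, ?_⟩
  intro x
  have hdep : ¬ LinearIndependent F (fun i => ι (x i)) := by
    intro h
    have := h.fintype_card_le_finrank
    simp at this
  rw [Fintype.not_linearIndependent_iff] at hdep
  obtain ⟨g, hg, i₀, hi₀⟩ := hdep
  have hgr : ∀ i, ∃ r ∈ SA, ∃ s ∈ SA, s ≠ 0 ∧ (g i : Z) * s = r := fun i => hF _ (g i).2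
  choose r hr s hs hs0 hrs using hgr
  -- the common denominator
  have hprod : ∀ i, ∃ t ∈ SA, (g i : Z) * ∏ l, s l = t ∧ True := by
    intro i
    refine ⟨(g i : Z) * ∏ l, s l, ?_, rfl, trivial⟩
    rw [← Finset.mul_prod_erase Finset.univ s (Finset.mem_univ i), ← mul_assoc, hrs]
    exact mul_mem (hr i) (prod_mem fun l _ => hs l)
  choose t ht ht' _ using hprod
  have hta : ∀ i, ∃ a ∈ A, ι a = algebraMap Z Q (t i) := fun i => (hSA _).mp (ht i)
  choose a ha hat using hta
  refine ⟨a, ha, ⟨i₀, ?_⟩, ?_⟩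
  · intro h0
    have h1 := hat i₀
    rw [h0, map_zero, eq_comm, map_eq_zero, ← ht', mul_eq_zero] at h1
    rcases h1 with h1 | h1
    · exact hi₀ (Subtype.ext h1)
    · rw [Finset.prod_eq_zero_iff] at h1
      obtain ⟨l, _, hl⟩ := h1
      exact hs0 l hl
  · apply hI.inj
    rw [map_zero, map_sum]
    have e3 : ∀ i, ι (a i * x i) = algebraMap Z Q (∏ l, s l) * (g i • ι (x i)) := by
      intro i
      rw [map_mul, hat, ← ht', map_mul, hcomm (g i : Z), mul_assoc]
      congr 1
      have e4 : g i • ι (x i) = (g i : Z) • ι (x i) := rfl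
      rw [e4, Algebra.smul_def]
    rw [Finset.sum_congr rfl fun i _ => e3 i, ← Finset.mul_sum, hg, mul_zero]

end Pool.Agent.Lib.MP_c37a72_al.EG
end
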