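import Pool.Agent.Lib.MP_c37a72_al.EG.ADB

/-!
# OPP: stability of the centralizer of the locally finite part
-/

set_option autoImplicit false

open scoped TensorProduct
open Coalgebra HopfAlgebra WithConv

namespace Pool.Agent.Lib.MP_c37a72_al.EG

universe u v w

open ADAM ADBM in
/-- **OPP**. -/
theorem specOPP (hOLF : SpecOLF.{u, v}) : SpecOPP.{u, v} := by
  intro k H Z Q _ _ _ _ _ _ _ _ _ ι hcq
  have hst := (hOLF k H Z Q ι hcq).2.2.2.2.1
  have hmem : ∀ x : Q, x ∈ Opp k Z ι ↔ ∀ g ∈ Ol k Z ι, g * x = x * g := fun x =>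
    Subalgebra.mem_centralizer_iff Z
  refine ⟨?_, ?_, ?_⟩
  · intro h x hx
    rw [hmem] at hx ⊢
    intro b hb
    have hc : cst k H x * cL ι b = cL ι b * cst k H x := by
      refine conv_ext fun g => ?_
      rw [cst_mul_apply, mul_cst_apply]
      have h1 := hx _ (hst g b hb)
      rw [adlQ_eq_cL] at h1
      exact h1.symm
    rw [adrQ_eq_cR, ← cst_mul_apply, ← mul_cst_apply]
    congr 2
    calc cst k H b * cR ι x = (cst k H b * cS ι) * cst k H x * cI ι := by
          rw [cR]; simp only [mul_assoc]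
      _ = cS ι * (cL ι b * cst k H x) * cI ι := by rw [← cS_mul_cL]; simp only [mul_assoc]
      _ = cS ι * cst k H x * (cL ι b * cI ι) := by rw [← hc]; simp only [mul_assoc]
      _ = cR ι x * cst k H b := by rw [cL_mul_cI, cR]; simp only [mul_assoc]
  · intro x hx
    rw [hmem] at hx ⊢
    intro g hg
    exact ((show Commute g x from hx g hg).inv_right₀).eq
  · intro h n x y e hx q hq
    rw [adlQ_eq k Z ι e]
    have h1 : ∀ i, ι (x i) * q * ι (antipode k (y i)) = q * ι (x i * antipode k (y i)) := by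
      intro i
      have h2 := hx i
      rw [hmem] at h2
      rw [← h2 q hq, map_mul, mul_assoc]
    rw [Finset.sum_congr rfl fun i _ => h1 i, ← Finset.mul_sum, ← map_sum]
    have h3 := sum_mul_antipode_eq_algebraMap_counit (R := k) (a := h)
      (⟨Finset.univ, x, y, e.symm⟩ : Coalgebra.Repr k h (Fin n))
    simp only at h3
    rw [h3, AlgHom.commutes, Algebra.commutes]

end Pool.Agent.Lib.MP_c37a72_al.EG
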