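import Pool.Agent.Lib.MP_c37a72_al.EG.Spec

/-!
# MP_c37a72_al, block EG, module RET: `N` is a direct summand
-/

set_option autoImplicit false

open scoped TensorProduct
open Coalgebra HopfAlgebra WithConv

namespace Pool.Agent.Lib.MP_c37a72_al.EG

universe u v w

namespace RETM

section A
variable {k : Type u} {H : Type v} [Field k] [Ring H] [HopfAlgebra k H]

/-- `id ⊗ φ` -/
noncomputable def sl (φ : H →ₗ[k] k) : H ⊗[k] H →ₗ[k] H :=
  (TensorProduct.rid k H).toLinearMap ∘ₗ LinearMap.lTensor H φ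

lemma sl_tmul (φ : H →ₗ[k] k) (a b : H) : sl φ (a ⊗ₜ[k] b) = φ b • a := by
  simp [sl]

/-- `F ⊗ id` -/
noncomputable def fl (F : H →ₗ[k] k) : H ⊗[k] H →ₗ[k] H :=
  (TensorProduct.lid k H).toLinearMap ∘ₗ LinearMap.rTensor H F

lemma fl_tmul (F : H →ₗ[k] k) (a b : H) : fl F (a ⊗ₜ[k] b) = F a • b := by
  simp [fl]

lemma fl_counit (a : H) : fl (counit (R := k)) (comul (R := k) a) = a := by
  unfold fl
  rw [LinearMap.comp_apply, rTensor_counit_comul]
  simp

/-- membership in `V ⊗ H` by functionals -/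
lemma mem_iff (V : Submodule k H) (w : H ⊗[k] H) :
    w ∈ LinearMap.range (TensorProduct.map V.subtype (LinearMap.id : H →ₗ[k] H)) ↔
      ∀ φ : H →ₗ[k] k, sl φ w ∈ V := by
  constructor
  · rintro ⟨u, rfl⟩ φ
    induction u with
    | zero => simp
    | tmul a b =>
      rw [TensorProduct.map_tmul, sl_tmul]
      exact V.smul_mem _ a.2
    | add x y hx hy =>
      rw [map_add, map_add]
      exact V.add_mem hx hy
  · intro hV
    classical
    set B := Module.Basis.ofVectorSpace k H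
    have h1 : (TensorProduct.equivFinsuppOfBasisRight B).symm
        (TensorProduct.equivFinsuppOfBasisRight B w) = w :=
      LinearEquiv.symm_apply_apply _ _
    rw [TensorProduct.equivFinsuppOfBasisRight_symm_apply] at h1
    rw [← h1]
    apply Submodule.sum_mem
    intro i _
    rw [TensorProduct.equivFinsuppOfBasisRight_apply]
    exact ⟨(⟨sl (B.coord i) w, hV _⟩ : V) ⊗ₜ[k] B i, rfl⟩

/-- `T F a = F(a₁) a₂` -/
noncomputable def T (F : H →ₗ[k] k) : H →ₗ[k] H := fl F ∘ₗ comul

lemma T_apply (F : H →ₗ[k] k) (a : H) : T F a = fl F (comul (R := k) a) := rfl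

lemma comul_T (F : H →ₗ[k] k) (a : H) :
    comul (R := k) (T F a) = LinearMap.rTensor H (T F) (comul (R := k) a) := by
  have h0 : ∀ (u : H ⊗[k] H) (b : H), ((TensorProduct.lid k (H ⊗[k] H)).toLinearMap ∘ₗ
      LinearMap.rTensor (H ⊗[k] H) F) (TensorProduct.assoc k H H H (u ⊗ₜ[k] b)) =
      (fl F u) ⊗ₜ[k] b := by
    intro u b
    induction u with
    | zero => simp
    | tmul x y => simp [fl_tmul, TensorProduct.smul_tmul']
    | add x y hx hy => rw [TensorProduct.add_tmul, map_add, map_add, hx, hy, map_add,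
        TensorProduct.add_tmul]
  have h1 : ∀ w : H ⊗[k] H, comul (R := k) (fl F w) =
      ((TensorProduct.lid k (H ⊗[k] H)).toLinearMap ∘ₗ LinearMap.rTensor (H ⊗[k] H) F)
        (LinearMap.lTensor H (comul (R := k) (A := H)) w) := by
    intro w
    induction w with
    | zero => simp
    | tmul a b => simp [fl_tmul]
    | add x y hx hy => simp only [map_add, hx, hy]
  have h2 : ∀ w : H ⊗[k] H, LinearMap.rTensor H (T F) w =
      ((TensorProduct.lid k (H ⊗[k] H)).toLinearMap ∘ₗ LinearMap.rTensor (H ⊗[k] H) F)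
        (TensorProduct.assoc k H H H (LinearMap.rTensor H (comul (R := k) (A := H)) w)) := by
    intro w
    induction w with
    | zero => simp
    | tmul a b => rw [LinearMap.rTensor_tmul, LinearMap.rTensor_tmul, h0, T_apply]
    | add x y hx hy => simp only [map_add, hx, hy]
  rw [T_apply, h1, h2, coassoc_apply]

lemma sl_comul_T (F φ : H →ₗ[k] k) (a : H) :
    sl φ (comul (R := k) (T F a)) = T F (sl φ (comul (R := k) a)) := by
  rw [comul_T]
  have h : ∀ w : H ⊗[k] H, sl φ (LinearMap.rTensor H (T F) w) = T F (sl φ w) := by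
    intro w
    induction w with
    | zero => simp
    | tmul a b => rw [LinearMap.rTensor_tmul, sl_tmul, sl_tmul, map_smul]
    | add x y hx hy => simp only [map_add, hx, hy]
  exact h _

lemma T_left (N : Subalgebra k H) (F : H →ₗ[k] k)
    (hF : ∀ n ∈ N, ∀ a : H, F (n * a) = counit (R := k) n * F a) (n : H)
    (hn : comul (R := k) n ∈ LinearMap.range (TensorProduct.map
      N.val.toLinearMap (LinearMap.id : H →ₗ[k] H))) (a : H) :
    T F (n * a) = n * T F a := by
  obtain ⟨u, hu⟩ := hn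
  have h1 : ∀ (u : ↥N ⊗[k] H) (w : H ⊗[k] H), fl F (TensorProduct.map
      N.val.toLinearMap (LinearMap.id : H →ₗ[k] H) u * w) =
      fl (counit (R := k)) (TensorProduct.map
      N.val.toLinearMap (LinearMap.id : H →ₗ[k] H) u) * fl F w := by
    intro u w
    induction u with
    | zero => simp
    | tmul a b =>
      induction w with
      | zero => simp
      | tmul c d =>
        rw [TensorProduct.map_tmul, Algebra.TensorProduct.tmul_mul_tmul, fl_tmul, fl_tmul, fl_tmul]
        change F ((a : H) * c) • (b * d) = counit (R := k) (a : H) • b * F c • d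
        rw [hF _ a.2, smul_mul_smul_comm]
      | add x y hx hy => rw [mul_add, map_add, hx, hy, map_add, mul_add]
    | add x y hx hy => rw [map_add, add_mul, map_add, hx, hy, map_add, add_mul]
  rw [T_apply, Bialgebra.comul_mul, ← hu, h1, hu, fl_counit, T_apply]

lemma T_right (N : Subalgebra k H) (F : H →ₗ[k] k)
    (hF : ∀ n ∈ N, ∀ a : H, F (a * n) = F a * counit (R := k) n) (n : H)
    (hn : comul (R := k) n ∈ LinearMap.range (TensorProduct.map
      N.val.toLinearMap (LinearMap.id : H →ₗ[k] H))) (a : H) :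
    T F (a * n) = T F a * n := by
  obtain ⟨u, hu⟩ := hn
  have h1 : ∀ (u : ↥N ⊗[k] H) (w : H ⊗[k] H), fl F (w * TensorProduct.map
      N.val.toLinearMap (LinearMap.id : H →ₗ[k] H) u) =
      fl F w * fl (counit (R := k)) (TensorProduct.map
      N.val.toLinearMap (LinearMap.id : H →ₗ[k] H) u) := by
    intro u w
    induction u with
    | zero => simp
    | tmul a b =>
      induction w with
      | zero => simp
      | tmul c d =>
        rw [TensorProduct.map_tmul, Algebra.TensorProduct.tmul_mul_tmul, fl_tmul, fl_tmul, fl_tmul]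
        change F (c * (a : H)) • (d * b) = F c • d * counit (R := k) (a : H) • b
        rw [hF _ a.2, smul_mul_smul_comm]
      | add x y hx hy => rw [add_mul, map_add, hx, hy, map_add, add_mul]
    | add x y hx hy => rw [map_add, mul_add, map_add, hx, hy, map_add, mul_add]
  rw [T_apply, Bialgebra.comul_mul, ← hu, h1, hu, fl_counit, T_apply]

/-! ### the right adjoint action and the coproduct -/

/-- `mulLeft X ∘ (F * G) = (mulLeft X ∘ F) * G` -/
lemma mulLeft_conv {B : Type v} [Ring B] [Algebra k B] (X : B) (F G : WithConv (H →ₗ[k] B)) :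
    toConv (LinearMap.mulLeft k X ∘ₗ (F * G).ofConv) =
      toConv (LinearMap.mulLeft k X ∘ₗ F.ofConv) * G := by
  apply WithConv.ext
  apply LinearMap.ext
  intro g
  let r := ℛ k g
  have h1 := r.convMul_apply F G
  have h2 := r.convMul_apply (toConv (LinearMap.mulLeft k X ∘ₗ F.ofConv)) G
  change X * (F * G) g = (toConv (LinearMap.mulLeft k X ∘ₗ F.ofConv) * G) g
  rw [h1, h2, Finset.mul_sum]
  exact Finset.sum_congr rfl fun i _ => (mul_assoc _ _ _).symm

lemma one_comp {B : Type v} [Ring B] [Algebra k B] (f : H →ₐ[k] B) :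
    f.toLinearMap ∘ₗ (1 : WithConv (H →ₗ[k] H)).ofConv = (1 : WithConv (H →ₗ[k] B)).ofConv := by
  ext a
  simp [LinearMap.convOne_def]

lemma conv_S {B : Type v} [Ring B] [Algebra k B] (f : H →ₐ[k] B) :
    toConv f.toLinearMap * toConv (f.toLinearMap ∘ₗ antipode k) = 1 := by
  have h := LinearMap.algHom_comp_convMul_distrib (R := k) (C := H) f (toConv LinearMap.id)
    (toConv (antipode k (A := H)))
  rw [LinearMap.id_mul_antipode, one_comp] at h
  exact (ofConv_injective h).symm

lemma S_conv {B : Type v} [Ring B] [Algebra k B] (f : H →ₐ[k] B) :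
    toConv (f.toLinearMap ∘ₗ antipode k) * toConv f.toLinearMap = 1 := by
  have h := LinearMap.algHom_comp_convMul_distrib (R := k) (C := H) f
    (toConv (antipode k (A := H))) (toConv LinearMap.id)
  rw [LinearMap.antipode_mul_id, one_comp] at h
  exact (ofConv_injective h).symm

/-- `h ↦ h ⊗ 1` -/
noncomputable def i1 (k : Type u) (H : Type v) [Field k] [Ring H] [HopfAlgebra k H] :
    H →ₐ[k] H ⊗[k] H := Algebra.TensorProduct.includeLeft

/-- `h ↦ 1 ⊗ h` -/
noncomputable def i2 (k : Type u) (H : Type v) [Field k] [Ring H] [HopfAlgebra k H] :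
    H →ₐ[k] H ⊗[k] H := Algebra.TensorProduct.includeRight

lemma i1_apply (h : H) : i1 k H h = h ⊗ₜ[k] (1 : H) := rfl

lemma i2_apply (h : H) : i2 k H h = (1 : H) ⊗ₜ[k] h := rfl

lemma comul_conv : toConv (Bialgebra.comulAlgHom k H).toLinearMap =
    toConv (i1 k H).toLinearMap * toConv (i2 k H).toLinearMap := by
  apply WithConv.ext
  apply LinearMap.ext
  intro g
  let r := ℛ k g
  change comul (R := k) g = (toConv (i1 k H).toLinearMap * toConv (i2 k H).toLinearMap) g
  rw [r.convMul_apply, ← r.eq]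
  refine Finset.sum_congr rfl fun i _ => ?_
  change _ = (r.left i ⊗ₜ[k] (1 : H)) * ((1 : H) ⊗ₜ[k] r.right i)
  rw [Algebra.TensorProduct.tmul_mul_tmul, mul_one, one_mul]

lemma key (X : H ⊗[k] H) :
    toConv ((i1 k H).toLinearMap ∘ₗ antipode k) *
      toConv (LinearMap.mulLeft k X ∘ₗ (i1 k H).toLinearMap) =
    toConv (i2 k H).toLinearMap *
      (toConv ((Bialgebra.comulAlgHom k H).toLinearMap ∘ₗ antipode k) *
        toConv (LinearMap.mulLeft k X ∘ₗ (Bialgebra.comulAlgHom k H).toLinearMap)) *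
      toConv ((i2 k H).toLinearMap ∘ₗ antipode k) := by
  have e1 : toConv (i1 k H).toLinearMap = toConv (Bialgebra.comulAlgHom k H).toLinearMap *
      toConv ((i2 k H).toLinearMap ∘ₗ antipode k) := by
    rw [comul_conv, mul_assoc, conv_S, mul_one]
  have e2 : toConv ((i1 k H).toLinearMap ∘ₗ antipode k) =
      toConv (i2 k H).toLinearMap *
        toConv ((Bialgebra.comulAlgHom k H).toLinearMap ∘ₗ antipode k) := by
    have h3 : toConv ((i1 k H).toLinearMap ∘ₗ antipode k) *
        toConv (Bialgebra.comulAlgHom k H).toLinearMap = toConv (i2 k H).toLinearMap := by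
      rw [comul_conv, ← mul_assoc, S_conv, one_mul]
    rw [← h3, mul_assoc, conv_S, mul_one]
  have e3 : toConv (LinearMap.mulLeft k X ∘ₗ (i1 k H).toLinearMap) =
      toConv (LinearMap.mulLeft k X ∘ₗ (Bialgebra.comulAlgHom k H).toLinearMap) *
        toConv ((i2 k H).toLinearMap ∘ₗ antipode k) := by
    have h4 := mulLeft_conv X (toConv (Bialgebra.comulAlgHom k H).toLinearMap)
      (toConv ((i2 k H).toLinearMap ∘ₗ antipode k))
    rw [← e1] at h4
    exact h4
  rw [e2, e3]
  simp only [mul_assoc]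

lemma D_apply (X : H ⊗[k] H) (g : H) :
    (toConv ((i1 k H).toLinearMap ∘ₗ antipode k) *
      toConv (LinearMap.mulLeft k X ∘ₗ (i1 k H).toLinearMap)) g =
    TensorProduct.map (adRH k H g) (LinearMap.id : H →ₗ[k] H) X := by
  let r := ℛ k g
  rw [r.convMul_apply]
  induction X with
  | zero =>
    rw [map_zero]
    apply Finset.sum_eq_zero
    intro i _
    change (i1 k H) (antipode k (r.left i)) * (0 * (i1 k H) (r.right i)) = 0
    rw [zero_mul, mul_zero]
  | tmul a b =>
    rw [TensorProduct.map_tmul, adRH_repr k H r, TensorProduct.sum_tmul]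
    refine Finset.sum_congr rfl fun i _ => ?_
    change (antipode k (r.left i) ⊗ₜ[k] (1 : H)) * ((a ⊗ₜ[k] b) * (r.right i ⊗ₜ[k] (1 : H))) = _
    rw [Algebra.TensorProduct.tmul_mul_tmul, Algebra.TensorProduct.tmul_mul_tmul, one_mul, mul_one,
      mul_assoc]
    rfl
  | add x y hx hy =>
    rw [map_add, ← hx, ← hy, ← Finset.sum_add_distrib]
    refine Finset.sum_congr rfl fun i _ => ?_
    change (i1 k H) (antipode k (r.left i)) * ((x + y) * (i1 k H) (r.right i)) =
      (i1 k H) (antipode k (r.left i)) * (x * (i1 k H) (r.right i)) +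
      (i1 k H) (antipode k (r.left i)) * (y * (i1 k H) (r.right i))
    rw [add_mul, mul_add]

lemma E_apply (x g : H) :
    (toConv ((Bialgebra.comulAlgHom k H).toLinearMap ∘ₗ antipode k) *
        toConv (LinearMap.mulLeft k (comul (R := k) x) ∘ₗ
          (Bialgebra.comulAlgHom k H).toLinearMap)) g =
    comul (R := k) (adRH k H g x) := by
  let r := ℛ k g
  rw [r.convMul_apply, adRH_repr k H r, map_sum]
  refine Finset.sum_congr rfl fun i _ => ?_
  change comul (R := k) (antipode k (r.left i)) * (comul (R := k) x * comul (R := k) (r.right i)) = _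
  rw [Bialgebra.comul_mul, Bialgebra.comul_mul, mul_assoc]

/-- the coproduct of the right adjoint action and right coideals -/
lemma ad_coideal (R : Submodule k (H ⊗[k] H))
    (hR : ∀ (h : H), ∀ w ∈ R, ((1 : H) ⊗ₜ[k] h) * w ∈ R ∧ w * ((1 : H) ⊗ₜ[k] h) ∈ R)
    (x : H) (hx : ∀ g, comul (R := k) (adRH k H g x) ∈ R) (g : H) :
    TensorProduct.map (adRH k H g) (LinearMap.id : H →ₗ[k] H) (comul (R := k) x) ∈ R := by
  rw [← D_apply, key]
  -- left factor
  have h1 : ∀ (F : WithConv (H →ₗ[k] H ⊗[k] H)), (∀ g, F g ∈ R) → ∀ g,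
      (toConv (i2 k H).toLinearMap * F) g ∈ R := by
    intro F hF g
    let r := ℛ k g
    rw [r.convMul_apply]
    apply R.sum_mem
    intro i _
    exact (hR _ _ (hF _)).1
  have h2 : ∀ (F : WithConv (H →ₗ[k] H ⊗[k] H)), (∀ g, F g ∈ R) → ∀ g,
      (F * toConv ((i2 k H).toLinearMap ∘ₗ antipode k)) g ∈ R := by
    intro F hF g
    let r := ℛ k g
    rw [r.convMul_apply]
    apply R.sum_mem
    intro i _
    exact (hR _ _ (hF _)).2
  apply h2
  apply h1
  intro g
  rw [E_apply]
  exact hx g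

lemma sl_i2_left (φ : H →ₗ[k] k) (h : H) (w : H ⊗[k] H) :
    sl φ (((1 : H) ⊗ₜ[k] h) * w) = sl (φ ∘ₗ LinearMap.mulLeft k h) w := by
  induction w with
  | zero => simp
  | tmul a b => rw [Algebra.TensorProduct.tmul_mul_tmul, sl_tmul, sl_tmul, one_mul]; rfl
  | add x y hx hy => rw [mul_add, map_add, hx, hy, map_add]

lemma sl_i2_right (φ : H →ₗ[k] k) (h : H) (w : H ⊗[k] H) :
    sl φ (w * ((1 : H) ⊗ₜ[k] h)) = sl (φ ∘ₗ LinearMap.mulRight k h) w := by
  induction w with
  | zero => simp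
  | tmul a b => rw [Algebra.TensorProduct.tmul_mul_tmul, sl_tmul, sl_tmul, mul_one]; rfl
  | add x y hx hy => rw [add_mul, map_add, hx, hy, map_add]

lemma sl_ad (φ : H →ₗ[k] k) (g : H) (w : H ⊗[k] H) :
    sl φ (TensorProduct.map (adRH k H g) (LinearMap.id : H →ₗ[k] H) w) = adRH k H g (sl φ w) := by
  induction w with
  | zero => simp
  | tmul a b => rw [TensorProduct.map_tmul, sl_tmul, sl_tmul, map_smul]; rfl
  | add x y hx hy => rw [map_add, map_add, hx, hy, map_add, map_add]

/-- the largest `◁`-stable subspace -/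
noncomputable def t1 (t0 : Submodule k H) : Submodule k H := ⨅ g : H, t0.comap (adRH k H g)

lemma mem_t1 (t0 : Submodule k H) (x : H) : x ∈ t1 t0 ↔ ∀ g : H, adRH k H g x ∈ t0 := by
  simp [t1, Submodule.mem_iInf]

lemma t1_coideal (t0 : Submodule k H)
    (h0 : ∀ x ∈ t0, ∀ φ : H →ₗ[k] k, sl φ (comul (R := k) x) ∈ t0) (x : H) (hx : x ∈ t1 t0) :
    comul (R := k) x ∈ LinearMap.range (TensorProduct.map (t1 t0).subtype
        (LinearMap.id : H →ₗ[k] H)) := by
  rw [mem_iff]
  intro φ
  rw [mem_t1]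
  intro g
  rw [← sl_ad]
  have h1 := ad_coideal (LinearMap.range (TensorProduct.map t0.subtype
        (LinearMap.id : H →ₗ[k] H))) ?_ x ?_ g
  · exact (mem_iff _ _).1 h1 φ
  · intro h w hw
    rw [mem_iff] at hw
    rw [mem_iff, mem_iff]
    exact ⟨fun φ => by rw [sl_i2_left]; exact hw _, fun φ => by rw [sl_i2_right]; exact hw _⟩
  · intro g
    rw [mem_iff]
    exact h0 _ ((mem_t1 _ _).1 hx g)

/-- lowest coefficient -/
lemma low [IsDomain H] (N : Subalgebra k H) (x : H) (hx : x ≠ 0) (hxN : x ∈ N) :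
    ∀ (m : ℕ) (c : ℕ → H), (∀ s, c s ∈ N) → c m ≠ 0 →
      ∑ s ∈ Finset.range (m + 1), c s * x ^ s = 0 →
      ∃ s ≤ m, c s ≠ 0 ∧ ∃ y ∈ N, c s = y * x := by
  intro m
  induction m with
  | zero =>
    intro c hc h0 hs
    simp at hs
    exact absurd hs h0
  | succ m ih =>
    intro c hc hm hs
    rw [Finset.sum_range_succ'] at hs
    have e : ∑ s ∈ Finset.range (m + 1), c (s + 1) * x ^ (s + 1) =
        (∑ s ∈ Finset.range (m + 1), c (s + 1) * x ^ s) * x := by
      rw [Finset.sum_mul]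
      refine Finset.sum_congr rfl fun s _ => ?_
      rw [pow_succ, mul_assoc]
    rw [e, pow_zero, mul_one] at hs
    by_cases h0 : c 0 = 0
    · rw [h0, add_zero] at hs
      have h1 := (mul_eq_zero.1 hs).resolve_right hx
      obtain ⟨s, hs1, hs2, hs3⟩ := ih (fun s => c (s + 1)) (fun s => hc _) hm h1
      exact ⟨s + 1, by omega, hs2, hs3⟩
    · refine ⟨0, by omega, h0, -(∑ s ∈ Finset.range (m + 1), c (s + 1) * x ^ s), ?_, ?_⟩
      · exact N.neg_mem (N.sum_mem fun s _ => N.mul_mem (hc _) (N.pow_mem hxN _))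
      · rw [neg_mul]
        exact eq_neg_of_add_eq_zero_right hs

end A

section B

variable {k : Type u} {H : Type v} [Field k] [Ring H] [HopfAlgebra k H] (J : Ideal H)
  [J.IsTwoSided] [J.IsHopfIdeal k]

lemma mk_T (t : Module.Dual k (H ⧸ J)) (ht : ∀ v, TensorProduct.lid k (H ⧸ J)
      (t.rTensor (H ⧸ J) (comul (R := k) v)) = t v • (1 : H ⧸ J)) (a : H) :
    Ideal.Quotient.mk J (T (t ∘ₗ (Ideal.Quotient.mkₐ k J).toLinearMap) a) =
      t (Ideal.Quotient.mk J a) • (1 : H ⧸ J) := by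
  rw [← ht, Bialgebra.Quotient.comul_mk, T_apply]
  have h : ∀ w : H ⊗[k] H, Ideal.Quotient.mk J
      (fl (t ∘ₗ (Ideal.Quotient.mkₐ k J).toLinearMap) w) = TensorProduct.lid k (H ⧸ J)
      (t.rTensor (H ⧸ J) (TensorProduct.map (Ideal.Quotient.mkₐ k J).toLinearMap
        (Ideal.Quotient.mkₐ k J).toLinearMap w)) := by
    intro w
    induction w with
    | zero => simp
    | tmul a b =>
      rw [fl_tmul, TensorProduct.map_tmul, LinearMap.rTensor_tmul, TensorProduct.lid_tmul]
      exact map_smul (Ideal.Quotient.mkₐ k J) _ _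
    | add x y hx hy => rw [map_add, map_add, hx, hy, map_add, map_add, map_add]
  exact h _

lemma T_hat (t : Module.Dual k (H ⧸ J)) (ht : ∀ v, TensorProduct.lid k (H ⧸ J)
      (t.rTensor (H ⧸ J) (comul (R := k) v)) = t v • (1 : H ⧸ J)) (a : H) :
    TensorProduct.map (Ideal.Quotient.mkₐ k J).toLinearMap (LinearMap.id : H →ₗ[k] H)
        (comul (R := k) (T (t ∘ₗ (Ideal.Quotient.mkₐ k J).toLinearMap) a)) =
      1 ⊗ₜ[k] (T (t ∘ₗ (Ideal.Quotient.mkₐ k J).toLinearMap) a) := by
  rw [comul_T, T_apply _ a]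
  have h : ∀ w : H ⊗[k] H, TensorProduct.map (Ideal.Quotient.mkₐ k J).toLinearMap
      (LinearMap.id : H →ₗ[k] H) (LinearMap.rTensor H
        (T (t ∘ₗ (Ideal.Quotient.mkₐ k J).toLinearMap)) w) =
      1 ⊗ₜ[k] (fl (t ∘ₗ (Ideal.Quotient.mkₐ k J).toLinearMap) w) := by
    intro w
    induction w with
    | zero => simp
    | tmul a b =>
      rw [fl_tmul, LinearMap.rTensor_tmul, TensorProduct.map_tmul]
      change (Ideal.Quotient.mk J (T (t ∘ₗ (Ideal.Quotient.mkₐ k J).toLinearMap) a)) ⊗ₜ[k] b = _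
      rw [mk_T J t ht, TensorProduct.smul_tmul]
      rfl
    | add x y hx hy => rw [map_add, map_add, hx, hy, map_add, TensorProduct.tmul_add]
  exact h _

end B

end RETM

open RETM in
theorem specRET (hINT : SpecINT.{u, v}) (hNHN : SpecNHN.{u, v}) (hNFA : SpecNFA.{u, v})
    (hCST : SpecCST.{u, v}) (hADA : SpecADA.{u, v}) : SpecRET.{u, v} := by
  intro k H Z Q _ _ _ _ _ _ _ _ _ _ ι hQ hS hI J _ _ hJf hJO hJN
  obtain ⟨n1, n2, n3, n4, n5, n6, n7, n8⟩ := hNFA k H Z Q ι hQ
  obtain ⟨a1, a2, a3, a4⟩ := hADA k H Z Q ι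
  obtain ⟨q1, q2⟩ := hNHN k H Z Q ι hQ hS J hJf hJO
  have := hJf
  obtain ⟨n, t, Λ, ht, hΛ⟩ := hINT k (H ⧸ J)
  -- the adjoint action on `H`
  have ad1 : ∀ x : H, adRH k H 1 x = x := by
    intro x
    apply hQ.inj
    rw [n6, a1.2]
    rfl
  have ad2 : ∀ g h x : H, adRH k H (g * h) x = adRH k H h (adRH k H g x) := by
    intro g h x
    apply hQ.inj
    rw [n6, (a2 g h).2, n6, n6]
    rfl
  have ad3 : ∀ (h : H) (n : ℕ) (x y : Fin n → H), comul (R := k) h = ∑ i, x i ⊗ₜ[k] y i →
      ∀ p q : H, adRH k H h (p * q) = ∑ i, adRH k H (x i) p * adRH k H (y i) q := by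
    intro h n x y e p q
    apply hQ.inj
    rw [n6, map_mul, (a3 h n x y e (ι p) (ι q)).2, map_sum]
    refine Finset.sum_congr rfl fun i _ => ?_
    rw [map_mul, n6, n6]
  -- the functionals
  set F : Fin n → (H →ₗ[k] k) := fun i => t i ∘ₗ (Ideal.Quotient.mkₐ k J).toLinearMap with hF
  have hmk : ∀ m ∈ NN k Z ι, Ideal.Quotient.mk J m = algebraMap k (H ⧸ J) (counit (R := k) m) := by
    intro m hm
    have h1 : m - algebraMap k H (counit (R := k) m) ∈ J := by
      apply hJN
      · exact (NN k Z ι).sub_mem hm ((NN k Z ι).algebraMap_mem _)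
      · rw [map_sub, Bialgebra.counit_algebraMap, sub_self]
    have h2 := Ideal.Quotient.eq.2 h1
    rw [h2]
    rfl
  have hF1 : ∀ i, ∀ m ∈ NN k Z ι, ∀ a : H, F i (m * a) = counit (R := k) m * F i a := by
    intro i m hm a
    change t i (Ideal.Quotient.mk J (m * a)) = counit (R := k) m * t i (Ideal.Quotient.mk J a)
    rw [map_mul, hmk m hm, ← Algebra.smul_def, map_smul, smul_eq_mul]
  have hF2 : ∀ i, ∀ m ∈ NN k Z ι, ∀ a : H, F i (a * m) = F i a * counit (R := k) m := by
    intro i m hm a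
    change t i (Ideal.Quotient.mk J (a * m)) = t i (Ideal.Quotient.mk J a) * counit (R := k) m
    rw [map_mul, hmk m hm, ← Algebra.commutes, ← Algebra.smul_def, map_smul, smul_eq_mul, mul_comm]
  have hTN : ∀ i a, T (F i) a ∈ NN k Z ι := fun i a => q1 _ (T_hat J (t i) (ht i) a)
  have hTl : ∀ i, ∀ m ∈ NN k Z ι, ∀ a : H, T (F i) (m * a) = m * T (F i) a :=
    fun i m hm a => T_left (NN k Z ι) (F i) (hF1 i) m (n2 m hm) a
  have hTr : ∀ i, ∀ m ∈ NN k Z ι, ∀ a : H, T (F i) (a * m) = T (F i) a * m :=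
    fun i m hm a => T_right (NN k Z ι) (F i) (hF2 i) m (n2 m hm) a
  -- the ideal `t₀`
  set t0 : Submodule k H := LinearMap.range (∑ i, T (F i) ∘ₗ LinearMap.proj (R := k)
    (φ := fun _ : Fin n => H) i) with ht0
  have mem0 : ∀ x : H, x ∈ t0 ↔ ∃ a : Fin n → H, ∑ i, T (F i) (a i) = x := by
    intro x
    rw [ht0, LinearMap.mem_range]
    constructor
    · rintro ⟨a, ha⟩
      refine ⟨a, ?_⟩
      rw [← ha, LinearMap.sum_apply]
      rfl
    · rintro ⟨a, ha⟩
      refine ⟨a, ?_⟩
      rw [← ha, LinearMap.sum_apply]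
      rfl
  have t0N : ∀ x ∈ t0, x ∈ NN k Z ι := by
    intro x hx
    obtain ⟨a, rfl⟩ := (mem0 x).1 hx
    exact (NN k Z ι).sum_mem fun i _ => hTN i _
  have t0mul : ∀ m ∈ NN k Z ι, ∀ x ∈ t0, m * x ∈ t0 ∧ x * m ∈ t0 := by
    intro m hm x hx
    obtain ⟨a, rfl⟩ := (mem0 x).1 hx
    refine ⟨(mem0 _).2 ⟨fun i => m * a i, ?_⟩, (mem0 _).2 ⟨fun i => a i * m, ?_⟩⟩
    · rw [Finset.mul_sum]
      exact Finset.sum_congr rfl fun i _ => hTl i m hm _
    · rw [Finset.sum_mul]
      exact Finset.sum_congr rfl fun i _ => hTr i m hm _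
  have t0co : ∀ x ∈ t0, ∀ φ : H →ₗ[k] k, sl φ (comul (R := k) x) ∈ t0 := by
    intro x hx φ
    obtain ⟨a, rfl⟩ := (mem0 x).1 hx
    refine (mem0 _).2 ⟨fun i => sl φ (comul (R := k) (a i)), ?_⟩
    rw [map_sum, map_sum]
    exact Finset.sum_congr rfl fun i _ => (sl_comul_T (F i) φ (a i)).symm
  have t0ne : t0 ≠ ⊥ := by
    intro hbot
    have h1 : ∀ i a, T (F i) a = 0 := by
      intro i a
      have h2 : T (F i) a ∈ t0 := by
        classical
        refine (mem0 _).2 ⟨Pi.single i a, ?_⟩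
        rw [Finset.sum_eq_single i]
        · rw [Pi.single_eq_same]
        · intro j _ hj
          rw [Pi.single_eq_of_ne hj, map_zero]
        · intro h
          exact absurd (Finset.mem_univ _) h
      rw [hbot] at h2
      exact (Submodule.mem_bot k).1 h2
    have h3 : ∀ i (v : H ⧸ J), t i v = 0 := by
      intro i v
      obtain ⟨a, rfl⟩ := Ideal.Quotient.mk_surjective v
      have h4 := mk_T J (t i) (ht i) a
      have h5 : T (t i ∘ₗ (Ideal.Quotient.mkₐ k J).toLinearMap) a = 0 := h1 i a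
      rw [h5, map_zero] at h4
      have h6 := congrArg (counit (R := k)) h4
      rw [map_zero, map_smul, Bialgebra.counit_one, smul_eq_mul, mul_one] at h6
      exact h6.symm
    have h7 := hΛ 1
    rw [Bialgebra.counit_one] at h7
    rw [Finset.sum_eq_zero (fun i _ => h3 i _)] at h7
    exact zero_ne_one h7
  -- the ideal `t₁`
  have le10 : ∀ x ∈ t1 t0, x ∈ t0 := by
    intro x hx
    have := (mem_t1 t0 x).1 hx 1
    rwa [ad1] at this
  have idl : NIdl k Z ι (t1 t0) := by
    refine ⟨fun x hx => t0N x (le10 x hx), ?_, ?_⟩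
    · intro m hm x hx
      rw [mem_t1] at hx
      rw [mem_t1, mem_t1]
      constructor
      · intro g
        obtain ⟨l, p, q, e⟩ := TensorProduct.exists_sum_tmul_eq (comul (R := k) g)
        rw [ad3 g l p q e]
        exact t0.sum_mem fun i _ => (t0mul _ (n4 _ m hm) _ (hx _)).1
      · intro g
        obtain ⟨l, p, q, e⟩ := TensorProduct.exists_sum_tmul_eq (comul (R := k) g)
        rw [ad3 g l p q e]
        exact t0.sum_mem fun i _ => (t0mul _ (n4 _ m hm) _ (hx _)).2
    · intro h x hx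
      rw [mem_t1] at hx ⊢
      intro g
      rw [← ad2]
      exact hx _
  have idlN : NIdl k Z ι (Subalgebra.toSubmodule (NN k Z ι)) :=
    ⟨fun x hx => hx, fun m hm x hx => ⟨(NN k Z ι).mul_mem hm hx, (NN k Z ι).mul_mem hx hm⟩,
      fun h x hx => n4 h x hx⟩
  have t1ne : t1 t0 ≠ ⊥ := by
    obtain ⟨x, hx, hx0⟩ := (Submodule.ne_bot_iff _).1 t0ne
    have hxN := t0N x hx
    have hex := hI _ idlN 1 (Matrix.diagonal fun _ => x) (by
      intro i j
      have : i = j := Subsingleton.elim _ _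
      subst this
      rw [Matrix.diagonal_apply_eq]
      exact hxN)
    generalize 1 * Module.finrank Z ↥(Opp k Z ι) = m at hex
    obtain ⟨c, hc, hc2⟩ := hex
    have hc3 := congrFun (congrFun hc2 0) 0
    rw [Matrix.add_apply, Matrix.sum_apply, Matrix.diagonal_pow, Matrix.diagonal_apply_eq,
      Matrix.zero_apply] at hc3
    let c' : ℕ → H := fun s => if h : s < m then c ⟨s, h⟩ else 1
    have hcm : c' m = 1 := dif_neg (lt_irrefl m)
    have hc'A : ∀ s, c' s ∈ A0 k Z ι := by
      intro s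
      by_cases h : s < m
      · have e : c' s = c ⟨s, h⟩ := dif_pos h
        rw [e]
        refine ⟨(hc _).1, ?_⟩
        exact Subalgebra.mem_center_iff.2 (hc _).2
      · have e : c' s = 1 := dif_neg h
        rw [e]
        exact (A0 k Z ι).one_mem
    have hsum : ∑ s ∈ Finset.range (m + 1), c' s * x ^ s = 0 := by
      rw [Finset.sum_range_succ, hcm, one_mul, Finset.sum_range, add_comm]
      rw [← hc3]
      congr 1
      refine Finset.sum_congr rfl fun s _ => ?_
      have e : c' (s : ℕ) = c s := dif_pos s.2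
      rw [e, Matrix.smul_apply, Matrix.diagonal_pow, Matrix.diagonal_apply_eq, smul_eq_mul,
        Pi.pow_apply]
    obtain ⟨s, _, hs1, y, hy, hs2⟩ := low (NN k Z ι) x hx0 hxN m c'
      (fun s => (hc'A s).1) (by rw [hcm]; exact one_ne_zero) hsum
    intro hbot
    apply hs1
    rw [← Submodule.mem_bot k, ← hbot, mem_t1]
    intro g
    rw [n7 _ (hc'A s)]
    apply t0.smul_mem
    rw [hs2]
    exact (t0mul y hy x hx).1
  have h1 : (1 : H) ∈ t1 t0 := hCST k H Z Q ι hQ hS q2 (t1 t0) idl (hI _ idl) t1ne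
    (fun x hx => t1_coideal t0 t0co x hx)
  obtain ⟨a, ha⟩ := (mem0 1).1 (le10 1 h1)
  refine ⟨∑ i, T (F i) ∘ₗ LinearMap.mulRight k (a i), ?_, ?_, ?_⟩
  · intro x
    rw [LinearMap.sum_apply]
    exact (NN k Z ι).sum_mem fun i _ => hTN i _
  · intro m hm x
    rw [LinearMap.sum_apply, LinearMap.sum_apply, Finset.mul_sum]
    refine Finset.sum_congr rfl fun i _ => ?_
    change T (F i) (m * x * a i) = m * T (F i) (x * a i)
    rw [mul_assoc, hTl i m hm]
  · rw [LinearMap.sum_apply, ← ha]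
    refine Finset.sum_congr rfl fun i _ => ?_
    change T (F i) ((∑ i, T (F i) (a i)) * a i) = T (F i) (a i)
    rw [ha, one_mul]

end Pool.Agent.Lib.MP_c37a72_al.EG
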