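import Pool.Agent.Lib.MP_c37a72_al.EG.Spec

/-!
# MP_c37a72_al, block EG: module COO
-/

set_option autoImplicit false
set_option linter.all false

open scoped TensorProduct
open Coalgebra HopfAlgebra

namespace Pool.Agent.Lib.MP_c37a72_al.EG

universe u v w

namespace COOM

section coord

variable {k : Type u} {AA : Type w} {P : Type v} [Field k] [Ring AA] [Algebra k AA] [Field P]
  [Algebra k P]

/-- the contraction `(φ ⊗ 1) y` -/
noncomputable def cf (φ : AA →ₗ[k] k) : AA ⊗[k] P →ₗ[k] P :=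
  (TensorProduct.lid k P).toLinearMap ∘ₗ φ.rTensor P

@[simp] theorem cf_tmul (φ : AA →ₗ[k] k) (a : AA) (p : P) :
    cf φ (a ⊗ₜ[k] p) = φ a • p := by
  simp [cf]

theorem cf_eq (φ : AA →ₗ[k] k) (y : AA ⊗[k] P) :
    cf φ y = TensorProduct.lid k P (φ.rTensor P y) := rfl

theorem cf_mul (φ : AA →ₗ[k] k) (y : AA ⊗[k] P) (p : P) :
    cf φ (y * (1 ⊗ₜ[k] p)) = cf φ y * p := by
  induction y using TensorProduct.induction_on with
  | zero => simp
  | tmul a q => simp
  | add x y hx hy => rw [add_mul, map_add, hx, hy, map_add, add_mul]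

theorem cf_mul_left (φ : AA →ₗ[k] k) (y : AA ⊗[k] P) (a : AA) :
    cf φ (y * (a ⊗ₜ[k] 1)) = cf (φ ∘ₗ LinearMap.mulRight k a) y := by
  induction y using TensorProduct.induction_on with
  | zero => simp
  | tmul b q => simp
  | add x y hx hy => rw [add_mul, map_add, hx, hy, map_add]

theorem cf_map (φ : AA →ₗ[k] k) (g : AA →ₗ[k] AA) (y : AA ⊗[k] P) :
    cf φ (TensorProduct.map g (LinearMap.id : P →ₗ[k] P) y) = cf (φ ∘ₗ g) y := by
  induction y using TensorProduct.induction_on with
  | zero => simp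
  | tmul b q => simp
  | add x y hx hy => rw [map_add, map_add, hx, hy, map_add]

theorem one_tmul_comm (y : AA ⊗[k] P) (p : P) : (1 ⊗ₜ[k] p) * y = y * (1 ⊗ₜ[k] p) := by
  induction y using TensorProduct.induction_on with
  | zero => simp
  | tmul b q => simp [mul_comm]
  | add x y hx hy => rw [mul_add, add_mul, hx, hy]

theorem tmul_one_comm (a : AA) (p : P) :
    (a ⊗ₜ[k] (1 : P)) * ((1 : AA) ⊗ₜ[k] p) = ((1 : AA) ⊗ₜ[k] p) * (a ⊗ₜ[k] (1 : P)) := by
  simp

theorem expand {m : ℕ} (B : Module.Basis (Fin m) k AA) (y : AA ⊗[k] P) :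
    y = ∑ l, B l ⊗ₜ[k] cf (B.coord l) y := by
  induction y using TensorProduct.induction_on with
  | zero => simp
  | tmul b q =>
    conv_lhs => rw [← B.sum_repr b, TensorProduct.sum_tmul]
    refine Finset.sum_congr rfl fun l _ => ?_
    rw [cf_tmul, TensorProduct.smul_tmul]
    rfl
  | add x y hx hy =>
    conv_lhs => rw [hx, hy]
    rw [← Finset.sum_add_distrib]
    refine Finset.sum_congr rfl fun l _ => ?_
    rw [map_add, TensorProduct.tmul_add]

theorem cf_inj {m : ℕ} (B : Module.Basis (Fin m) k AA) {x y : AA ⊗[k] P}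
    (h : ∀ l, cf (B.coord l) x = cf (B.coord l) y) : x = y := by
  rw [expand B x, expand B y]
  exact Finset.sum_congr rfl fun l _ => by rw [h l]

end coord

section basis

variable {k : Type u} {Z : Type v} {H Q : Type v} [Field k] [Ring H] [HopfAlgebra k H]
  [Field Z] [Algebra k Z] [DivisionRing Q] [Algebra k Q] [Algebra Z Q] [IsScalarTower k Z Q]
  {ι : H →ₐ[k] Q} {AA : Type w} {P : Type v} [Ring AA] [Algebra k AA] [Field P] [Algebra k P]
  [Algebra Z P] [IsScalarTower k Z P] {ρ : H →ₗ[k] Module.End k AA}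
  {ψ : ↥(Opp k Z ι) →ₐ[k] AA ⊗[k] P} {θ : (P ≃ₐ[Z] P) → (AA ≃ₐ[k] AA)}

theorem psi_smul (hc : CPkg k Z ι ρ ψ θ) (z : Z) (x : ↥(Opp k Z ι)) :
    ψ (z • x) = ψ x * (1 ⊗ₜ[k] algebraMap Z P z) := by
  rw [Algebra.smul_def, map_mul, hc.psiZ, one_tmul_comm]

theorem psi_sum (hc : CPkg k Z ι ρ ψ θ) {m : ℕ} (X : Module.Basis (Fin m) Z ↥(Opp k Z ι))
    (x : ↥(Opp k Z ι)) :
    ψ x = ∑ i, ψ (X i) * (1 ⊗ₜ[k] algebraMap Z P (X.repr x i)) := by
  conv_lhs => rw [← X.sum_repr x, map_sum]
  exact Finset.sum_congr rfl fun i _ => psi_smul hc _ _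

/-- the matrix of the `ψ(X i)` in the basis `B l ⊗ 1` -/
noncomputable def CM (ψ : ↥(Opp k Z ι) →ₐ[k] AA ⊗[k] P) {m : ℕ} (B : Module.Basis (Fin m) k AA)
    (X : Module.Basis (Fin m) Z ↥(Opp k Z ι)) : Matrix (Fin m) (Fin m) P :=
  Matrix.of fun l i => cf (B.coord l) (ψ (X i))

theorem CM_apply {m : ℕ} (B : Module.Basis (Fin m) k AA)
    (X : Module.Basis (Fin m) Z ↥(Opp k Z ι)) (l i : Fin m) :
    CM ψ B X l i = cf (B.coord l) (ψ (X i)) := rfl

theorem exists_inv (hc : CPkg k Z ι ρ ψ θ) {m : ℕ} (B : Module.Basis (Fin m) k AA)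
    (X : Module.Basis (Fin m) Z ↥(Opp k Z ι)) :
    ∃ D : Matrix (Fin m) (Fin m) P, CM ψ B X * D = 1 ∧ D * CM ψ B X = 1 := by
  have key : ∀ y ∈ Submodule.span k {y : AA ⊗[k] P | ∃ x p, y = ψ x * (1 ⊗ₜ[k] p)},
      ∃ q : Fin m → P, y = ∑ i, ψ (X i) * (1 ⊗ₜ[k] q i) := by
    intro y hy
    induction hy using Submodule.span_induction with
    | mem y h =>
      obtain ⟨x, p, rfl⟩ := h
      refine ⟨fun i => algebraMap Z P (X.repr x i) * p, ?_⟩
      rw [psi_sum hc X x, Finset.sum_mul]
      refine Finset.sum_congr rfl fun i _ => ?_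
      rw [mul_assoc, Algebra.TensorProduct.tmul_mul_tmul, one_mul]
    | zero => exact ⟨0, by simp⟩
    | add x y _ _ hx hy =>
      obtain ⟨p, hp⟩ := hx
      obtain ⟨q, hq⟩ := hy
      refine ⟨p + q, ?_⟩
      rw [hp, hq, ← Finset.sum_add_distrib]
      refine Finset.sum_congr rfl fun i _ => ?_
      rw [Pi.add_apply, TensorProduct.tmul_add, mul_add]
    | smul c x _ hx =>
      obtain ⟨p, hp⟩ := hx
      refine ⟨fun i => c • p i, ?_⟩
      rw [hp, Finset.smul_sum]
      refine Finset.sum_congr rfl fun i _ => ?_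
      rw [TensorProduct.tmul_smul, mul_smul_comm]
  have h : ∀ l : Fin m, ∃ q : Fin m → P,
      (B l ⊗ₜ[k] (1 : P) : AA ⊗[k] P) = ∑ i, ψ (X i) * (1 ⊗ₜ[k] q i) := by
    intro l
    exact key _ (by rw [hc.span]; exact Submodule.mem_top)
  choose q hq using h
  have e : CM ψ B X * Matrix.of (fun i l => q l i) = 1 := by
    ext l' l
    rw [Matrix.mul_apply]
    have h1 := congrArg (cf (B.coord l')) (hq l)
    rw [map_sum, cf_tmul] at h1
    simp only [cf_mul] at h1
    simp only [CM_apply, Matrix.of_apply]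
    rw [← h1, Matrix.one_apply]
    simp [Module.Basis.coord_apply, Finsupp.single_apply, eq_comm]
  exact ⟨_, e, mul_eq_one_comm.mp e⟩

/-- an endomorphism of `AA ⊗ P` which commutes with `P`, in coordinates -/
theorem cf_endo {m : ℕ} (B : Module.Basis (Fin m) k AA) (T : AA ⊗[k] P →ₗ[k] AA ⊗[k] P)
    (hT : ∀ y p, T (y * (1 ⊗ₜ[k] p)) = T y * (1 ⊗ₜ[k] p)) (φ : AA →ₗ[k] k) (y : AA ⊗[k] P) :
    cf φ (T y) = ∑ l, cf φ (T (B l ⊗ₜ[k] 1)) * cf (B.coord l) y := by
  conv_lhs => rw [expand B y, map_sum, map_sum]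
  refine Finset.sum_congr rfl fun l _ => ?_
  have : (B l ⊗ₜ[k] cf (B.coord l) y : AA ⊗[k] P) =
      (B l ⊗ₜ[k] 1) * (1 ⊗ₜ[k] cf (B.coord l) y) := by simp
  rw [this, hT, cf_mul]

/-- `P`-linear combination of the columns -/
theorem cf_psi_sum {m : ℕ} (B : Module.Basis (Fin m) k AA)
    (X : Module.Basis (Fin m) Z ↥(Opp k Z ι)) (hc : CPkg k Z ι ρ ψ θ) (x : ↥(Opp k Z ι))
    (l : Fin m) :
    cf (B.coord l) (ψ x) = ∑ i, CM ψ B X l i * algebraMap Z P (X.repr x i) := by
  conv_lhs => rw [psi_sum hc X x, map_sum]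
  exact Finset.sum_congr rfl fun i _ => by rw [cf_mul, CM_apply]

theorem psi_inj (hc : CPkg k Z ι ρ ψ θ) {m : ℕ} (B : Module.Basis (Fin m) k AA)
    (X : Module.Basis (Fin m) Z ↥(Opp k Z ι)) : Function.Injective ψ := by
  rw [injective_iff_map_eq_zero]
  intro x hx
  obtain ⟨D, -, hD⟩ := exists_inv hc B X
  have h : Matrix.mulVec (CM ψ B X) (fun i => algebraMap Z P (X.repr x i)) = 0 := by
    ext l
    have := cf_psi_sum B X hc x l
    rw [hx, map_zero] at this
    exact this.symm
  have h2 : (fun i => algebraMap Z P (X.repr x i)) = 0 := by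
    have := congrArg (Matrix.mulVec D) h
    rwa [Matrix.mulVec_mulVec, hD, Matrix.one_mulVec, Matrix.mulVec_zero] at this
  apply X.repr.injective
  rw [map_zero]
  ext i
  have := congrFun h2 i
  simpa using this

/-- the bases -/
theorem exists_bases (hQ : IsCQ k H Z Q ι) (hc : CPkg k Z ι ρ ψ θ) :
    ∃ m : ℕ, Module.finrank Z ↥(Opp k Z ι) = m ∧ Nonempty (Module.Basis (Fin m) k AA) ∧
      Nonempty (Module.Basis (Fin m) Z ↥(Opp k Z ι)) := by
  have := hQ.fin
  have := hc.finA
  have h2 : Module.Finite Z ↥(Opp k Z ι) :=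
    inferInstanceAs (Module.Finite Z ↥(Subalgebra.toSubmodule (Opp k Z ι)))
  exact ⟨_, rfl, ⟨Module.finBasisOfFinrankEq k AA hc.dim⟩, ⟨Module.finBasis Z _⟩⟩

end basis

end COOM

open COOM in
/-- **COO** -/
theorem specCOO (hOPP : SpecOPP.{u, v}) (hDNS : SpecDNS.{u, v}) : SpecCOO.{u, v, w} := by
  intro k H Z Q _ _ _ _ _ _ _ _ _ ι hQ AA P _ _ _ _ _ _ ρ ψ θ hc φ
  obtain ⟨m, hm, ⟨B⟩, ⟨X⟩⟩ := exists_bases hQ hc
  obtain ⟨D, hCD, hDC⟩ := exists_inv hc B X
  obtain ⟨hstab, -, -⟩ := hOPP k H Z Q ι hQ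
  -- the space `E`
  set E : Submodule k (AA →ₗ[k] AA) :=
    Submodule.span k {e | ∃ (h : H) (b : AA), e = LinearMap.mulRight k b ∘ₗ ρ h} with hE
  have hmem : φ ∈ E := by
    by_contra hφ
    obtain ⟨lam, hlφ, hlE⟩ := Submodule.exists_le_ker_of_notMem hφ
    -- elementary endomorphisms
    let el : Fin m → Fin m → (AA →ₗ[k] AA) := fun l' l => (B.coord l).smulRight (B l')
    have hel : ∀ e : AA →ₗ[k] AA, e = ∑ l, ∑ l', B.coord l' (e (B l)) • el l' l := by
      intro e
      refine B.ext fun j => ?_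
      rw [LinearMap.sum_apply]
      simp only [LinearMap.sum_apply, LinearMap.smul_apply, el, LinearMap.smulRight_apply,
        Module.Basis.coord_apply, Module.Basis.repr_self, Finsupp.single_apply]
      rw [Finset.sum_eq_single j]
      · simp only [if_true, one_smul]
        exact (B.sum_repr (e (B j))).symm
      · intro l _ hl
        refine Finset.sum_eq_zero fun l' _ => ?_
        rw [if_neg (fun h => hl h.symm)]
        simp
      · simp
    have hlam : ∀ e : AA →ₗ[k] AA, lam e = ∑ l, ∑ l', B.coord l' (e (B l)) * lam (el l' l) := by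
      intro e
      conv_lhs => rw [hel e]
      simp [map_sum]
    set L : Matrix (Fin m) (Fin m) P := Matrix.of fun l l' => algebraMap k P (lam (el l' l))
      with hL
    -- the trace of `L C F D` vanishes
    have key : ∀ F : Matrix (Fin m) (Fin m) Z,
        Matrix.trace (L * (CM ψ B X * F.map (algebraMap Z P) * D)) = 0 := by
      intro F
      obtain ⟨n, h, b, hb⟩ := hDNS k H Z Q ι hQ (Matrix.toLin X X F)
      let T : AA ⊗[k] P →ₗ[k] AA ⊗[k] P := ∑ j, LinearMap.mulRight k (ψ (b j)) ∘ₗ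
        TensorProduct.map (ρ (h j)) (LinearMap.id : P →ₗ[k] P)
      have hTa : ∀ y, T y = ∑ j, TensorProduct.map (ρ (h j)) (LinearMap.id : P →ₗ[k] P) y *
          ψ (b j) := by
        intro y
        simp [T, LinearMap.sum_apply]
      have hmapc : ∀ (g : AA →ₗ[k] AA) (y : AA ⊗[k] P) (p : P),
          TensorProduct.map g (LinearMap.id : P →ₗ[k] P) (y * (1 ⊗ₜ[k] p)) =
          TensorProduct.map g (LinearMap.id : P →ₗ[k] P) y * (1 ⊗ₜ[k] p) := by
        intro g y p
        induction y using TensorProduct.induction_on with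
        | zero => simp
        | tmul b q => simp
        | add x y hx hy => rw [add_mul, map_add, hx, hy, map_add, add_mul]
      have hT : ∀ y p, T (y * (1 ⊗ₜ[k] p)) = T y * (1 ⊗ₜ[k] p) := by
        intro y p
        rw [hTa, hTa, Finset.sum_mul]
        refine Finset.sum_congr rfl fun j _ => ?_
        rw [hmapc, mul_assoc, one_tmul_comm, ← mul_assoc]
      have hTx : ∀ x : ↥(Opp k Z ι), T (ψ x) = ψ (Matrix.toLin X X F x) := by
        intro x
        have e : Matrix.toLin X X F x =
            ∑ j, (⟨adrQ k Z ι (h j) x, hstab (h j) x x.2⟩ : ↥(Opp k Z ι)) * b j := by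
          apply Subtype.ext
          rw [hb x, AddSubmonoidClass.coe_finsetSum]
          rfl
        rw [hTa, e, map_sum]
        refine Finset.sum_congr rfl fun j _ => ?_
        rw [map_mul, hc.psiH (h j) x ⟨adrQ k Z ι (h j) x, hstab (h j) x x.2⟩ rfl]
      set M : Matrix (Fin m) (Fin m) P :=
        Matrix.of fun l' l => cf (B.coord l') (T (B l ⊗ₜ[k] 1)) with hM
      have e1 : M * CM ψ B X = CM ψ B X * F.map (algebraMap Z P) := by
        ext l' i
        rw [Matrix.mul_apply, Matrix.mul_apply]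
        have h1 := cf_endo B T hT (B.coord l') (ψ (X i))
        rw [hTx, cf_psi_sum B X hc] at h1
        simp only [hM, Matrix.of_apply, Matrix.map_apply, CM_apply] at h1 ⊢
        rw [← h1]
        refine Finset.sum_congr rfl fun j _ => ?_
        congr 2
        rw [Matrix.toLin_self]
        simp [Finsupp.single_apply]
      have e2 : M = CM ψ B X * F.map (algebraMap Z P) * D := by
        rw [← e1, mul_assoc, hCD, mul_one]
      rw [← e2]
      have e3 : ∀ l l', M l' l = ∑ j, ∑ s, algebraMap k P (B.coord l' (ρ (h j) (B l) * B s)) *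
          cf (B.coord s) (ψ (b j)) := by
        intro l l'
        rw [hM, Matrix.of_apply, hTa, map_sum]
        refine Finset.sum_congr rfl fun j _ => ?_
        rw [TensorProduct.map_tmul]
        conv_lhs => rw [expand B (ψ (b j)), Finset.mul_sum, map_sum]
        refine Finset.sum_congr rfl fun s _ => ?_
        simp [Algebra.smul_def]
      rw [Matrix.trace]
      simp only [Matrix.diag_apply, Matrix.mul_apply]
      have e4 : ∀ l, ∑ l', L l l' * M l' l = ∑ j, ∑ s, cf (B.coord s) (ψ (b j)) *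
          ∑ l', algebraMap k P (B.coord l' (ρ (h j) (B l) * B s) * lam (el l' l)) := by
        intro l
        simp only [e3, Finset.mul_sum]
        rw [Finset.sum_comm]
        refine Finset.sum_congr rfl fun j _ => ?_
        rw [Finset.sum_comm]
        refine Finset.sum_congr rfl fun s _ => ?_
        refine Finset.sum_congr rfl fun l' _ => ?_
        rw [hL, Matrix.of_apply, (algebraMap k P).map_mul]
        ring
      simp only [e4]
      rw [Finset.sum_comm]
      refine Finset.sum_eq_zero fun j _ => ?_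
      rw [Finset.sum_comm]
      refine Finset.sum_eq_zero fun s _ => ?_
      rw [← Finset.mul_sum]
      have e5 : ∑ l, ∑ l', algebraMap k P (B.coord l' (ρ (h j) (B l) * B s) * lam (el l' l)) =
          algebraMap k P (lam (LinearMap.mulRight k (B s) ∘ₗ ρ (h j))) := by
        rw [hlam]
        simp [map_sum]
      rw [e5]
      have : lam (LinearMap.mulRight k (B s) ∘ₗ ρ (h j)) = 0 :=
        hlE (Submodule.subset_span ⟨h j, B s, rfl⟩)
      rw [this, map_zero, mul_zero]
    have hz : D * L * CM ψ B X = 0 := by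
      ext i j
      have h1 := key (Matrix.single j i 1)
      have e1 : Matrix.trace (L * (CM ψ B X * (Matrix.single j i (1 : Z)).map (algebraMap Z P) * D)) =
          Matrix.trace (D * L * CM ψ B X * (Matrix.single j i (1 : Z)).map (algebraMap Z P)) := by
        rw [← mul_assoc, Matrix.trace_mul_comm, ← mul_assoc, ← mul_assoc]
      rw [e1] at h1
      have e2 : (Matrix.single j i (1 : Z)).map (algebraMap Z P) = Matrix.single j i (1 : P) := by
        rw [Matrix.map_single]
        simp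
      rw [e2, Matrix.trace_mul_single] at h1
      simpa using h1
    have hL0 : L = 0 := by
      have : L = CM ψ B X * (D * L * CM ψ B X) * D := by
        have : CM ψ B X * (D * L * CM ψ B X) * D = (CM ψ B X * D) * L * (CM ψ B X * D) := by
          simp only [mul_assoc]
        rw [this, hCD, one_mul, mul_one]
      rw [this, hz, mul_zero, zero_mul]
    apply hlφ
    rw [hlam]
    refine Finset.sum_eq_zero fun l _ => Finset.sum_eq_zero fun l' _ => ?_
    have : lam (el l' l) = 0 := by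
      have := congrFun (congrFun hL0 l) l'
      simpa [hL] using this
    rw [this, mul_zero]
  -- extraction
  have key2 : ∀ e ∈ E, ∃ (n : ℕ) (h : Fin n → H) (b : Fin n → AA), ∀ a : AA,
      e a = ∑ j, ρ (h j) a * b j := by
    intro e he
    rw [hE] at he
    induction he using Submodule.span_induction with
    | mem e h =>
      obtain ⟨h, b, rfl⟩ := h
      exact ⟨1, fun _ => h, fun _ => b, fun a => by simp⟩
    | zero => exact ⟨0, Fin.elim0, Fin.elim0, fun a => by simp⟩
    | add x y _ _ hx hy =>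
      obtain ⟨n, h, b, hb⟩ := hx
      obtain ⟨n', h', b', hb'⟩ := hy
      refine ⟨n + n', Fin.append h h', Fin.append b b', fun a => ?_⟩
      rw [LinearMap.add_apply, hb, hb', Fin.sum_univ_add]
      simp
    | smul c x _ hx =>
      obtain ⟨n, h, b, hb⟩ := hx
      refine ⟨n, h, fun j => c • b j, fun a => ?_⟩
      rw [LinearMap.smul_apply, hb, Finset.smul_sum]
      exact Finset.sum_congr rfl fun j _ => by rw [mul_smul_comm]
  exact key2 φ hmem

end Pool.Agent.Lib.MP_c37a72_al.EG
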