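import Pool.Agent.Lib.MP_c37a72_al.EG.Base

/-!
# MP_c37a72_al, block EG (endgame): from `[Z : F₀] < ∞` and constancy to `H` finite over its centre

Text: `/team-store/MP_c37a72_END.md`. No hypothesis on `H ⊗ H`. Module `XXX` is the file
`Pool/Agent/Lib/MP_c37a72_al/EG/XXX.lean`, which imports `Pool.Agent.Lib.MP_c37a72_al.EG.Spec`, with
`theorem specXXX (hYYY : SpecYYY) .. : SpecXXX`; every Spec of this file and of `SpecH.lean` may be taken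
as a hypothesis; own lemmas in the namespace `Pool.Agent.Lib.MP_c37a72_al.EG.XXXM`.

Notation: `Δ h = h₁ ⊗ h₂`, `S` the antipode, `h ▷ q = adlQ h q = h₁ q S(h₂)`,
`q ◁ h = adrQ h q = S(h₁) q h₂`, `n ◁ h = adRH h n` for `n ∈ H`. Representations of `Δ h` are written
`Δ h = ∑ i, x i ⊗ y i` with `x y : Fin n → H`; the lemmas `adlQ_eq, adrQ_eq, adRH_eq` (and `adlQ_repr,
adrQ_repr, adRH_repr` for `Coalgebra.Repr`) of `Base.lean` evaluate the actions.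
-/

set_option autoImplicit false

open scoped TensorProduct
open Coalgebra HopfAlgebra

namespace Pool.Agent.Lib.MP_c37a72_al.EG

universe u v w

/-- **ADA** (150 lines). The adjoint actions are actions and `Q` is a module algebra.

PROOF. `(gh) ▷ q = g₁ h₁ q S(h₂) S(g₂)` (`Δ` is multiplicative, `antipode_mul_antidistrib`);
`q ◁ (gh) = S(h₁) S(g₁) q g₂ h₂`. `(h₁ ▷ p)(h₂ ▷ q) = h₁ p S(h₂) h₃ q S(h₄) = h₁ p ε(h₂) q S(h₃)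
= h ▷ (p q)`, and the mirror. `h ▷ 1 = h₁ S(h₂) = ε(h)`. (Coassociativity: the map
`a ⊗ b ⊗ c ⊗ d ↦ a p S(b) c q S(d)` is applied to `(Δ ⊗ Δ)Δ h`; contract the two middle legs.) -/
def SpecADA : Prop :=
  ∀ (k : Type u) (H Z Q : Type v) [Field k] [Ring H] [HopfAlgebra k H] [Field Z] [Algebra k Z]
    [DivisionRing Q] [Algebra k Q] [Algebra Z Q] [IsScalarTower k Z Q] (ι : H →ₐ[k] Q),
    (adlQ k Z ι 1 = 1 ∧ adrQ k Z ι 1 = 1) ∧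
    (∀ g h : H, adlQ k Z ι (g * h) = adlQ k Z ι g * adlQ k Z ι h ∧
      adrQ k Z ι (g * h) = adrQ k Z ι h * adrQ k Z ι g) ∧
    (∀ (h : H) (n : ℕ) (x y : Fin n → H), comul (R := k) h = ∑ i, x i ⊗ₜ[k] y i → ∀ p q : Q,
      adlQ k Z ι h (p * q) = ∑ i, adlQ k Z ι (x i) p * adlQ k Z ι (y i) q ∧
      adrQ k Z ι h (p * q) = ∑ i, adrQ k Z ι (x i) p * adrQ k Z ι (y i) q) ∧
    ∀ h : H, adlQ k Z ι h 1 = algebraMap k Q (counit h) ∧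
      adrQ k Z ι h 1 = algebraMap k Q (counit h)

/-- **ADB** (150 lines). Commutation rules (`Δ h = ∑ x_i ⊗ y_i`).

PROOF. (1) `(h₁ ▷ q) h₂ = h₁ q S(h₂) h₃ = h q`. (2) `h₁ (q ◁ h₂) = h₁ S(h₂) q h₃ = q h`.
(3) `S(h₁)(h₂ ▷ q) = S(h₁) h₂ q S(h₃) = q S(h)`. (4) `(q ◁ h₁) S(h₂) = S(h₁) q h₂ S(h₃) = S(h) q`.
(5) with `S s_i = y_i`: `adrQ s_i q = S(s_i₁) q s_i₂`; by SpecHAN `Δ(y_i) = S(s_i₂) ⊗ S(s_i₁)`, so
`∑ S(s_i₁) ⊗ S(s_i₂) ⊗ x_i` is the flip of `∑ Δ(y_i) ⊗ x_i`, i.e. `h₃ ⊗ h₂ ⊗ h₁`, and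
`∑ adrQ s_i q · x_i = h₃ q S⁻¹(h₂) h₁`; `S⁻¹(h₂) h₁ = ε(h)` (apply the injective `S`:
`S(h₁) h₂ = ε(h)`). -/
def SpecADB : Prop :=
  ∀ (k : Type u) (H Z Q : Type v) [Field k] [Ring H] [HopfAlgebra k H] [Field Z] [Algebra k Z]
    [DivisionRing Q] [Algebra k Q] [Algebra Z Q] [IsScalarTower k Z Q] (ι : H →ₐ[k] Q),
    ∀ (h : H) (n : ℕ) (x y : Fin n → H), comul (R := k) h = ∑ i, x i ⊗ₜ[k] y i → ∀ q : Q,
      ι h * q = ∑ i, adlQ k Z ι (x i) q * ι (y i) ∧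
      q * ι h = ∑ i, ι (x i) * adrQ k Z ι (y i) q ∧
      q * ι (antipode k h) = ∑ i, ι (antipode k (x i)) * adlQ k Z ι (y i) q ∧
      ι (antipode k h) * q = ∑ i, adrQ k Z ι (x i) q * ι (antipode k (y i)) ∧
      (Function.Bijective (antipode k (A := H)) → ∀ s : Fin n → H, (∀ i, antipode k (s i) = y i) →
        ι h * q = ∑ i, adrQ k Z ι (s i) q * ι (x i))

/-- **OLF** (200 lines). `O_l` is the set of locally finite elements, a division subring, `▷`-stable;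
invariants.

PROOF. `{q : LFl q}` is closed under sums, products (ADA: `H ▷ (pq)` is contained in the product of the
two finite-dimensional spaces), contains `Z` (`h ▷ z = ε(h) z`: `adlQ` is `Z`-linear, `h ▷ 1 = ε(h)`) and
is closed under `Z`-multiples: so `Algebra.adjoin` adds nothing. Inverses: `0 ≠ q ∈ O_l`; left
multiplication by `q` on the finite-dimensional `Z`-space `O_l` is injective, so surjective:
`q p = 1` with `p ∈ O_l`. Stability: `H ▷ (h ▷ q) ⊆ H ▷ q`. Invariants: if `h ▷ q = ε(h) q` for all `h`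
then `h q = (h₁ ▷ q) h₂ = q h` (ADB), so `q` commutes with `ι(H)`, hence with `Q` (fractions,
`IsCQ.frac`), so it comes from `Z` (`IsCQ.cent`). Conversely elements of `Z` are invariant. The same on
the right (ADB (2)). -/
def SpecOLF : Prop :=
  ∀ (k : Type u) (H Z Q : Type v) [Field k] [Ring H] [HopfAlgebra k H] [Field Z] [Algebra k Z]
    [DivisionRing Q] [Algebra k Q] [Algebra Z Q] [IsScalarTower k Z Q] (ι : H →ₐ[k] Q),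
    IsCQ k H Z Q ι →
    (∀ q : Q, q ∈ Ol k Z ι ↔ LFl k Z ι q) ∧ (∀ q : Q, q ∈ Or k Z ι ↔ LFr k Z ι q) ∧
    (∀ q ∈ Ol k Z ι, q⁻¹ ∈ Ol k Z ι) ∧ (∀ q ∈ Or k Z ι, q⁻¹ ∈ Or k Z ι) ∧
    (∀ (h : H), ∀ q ∈ Ol k Z ι, adlQ k Z ι h q ∈ Ol k Z ι) ∧
    (∀ (h : H), ∀ q ∈ Or k Z ι, adrQ k Z ι h q ∈ Or k Z ι) ∧
    (∀ q : Q, (∀ h : H, adlQ k Z ι h q = algebraMap k Q (counit h) * q) ↔
      ∃ z : Z, algebraMap Z Q z = q) ∧
    ∀ q : Q, (∀ h : H, adrQ k Z ι h q = algebraMap k Q (counit h) * q) ↔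
      ∃ z : Z, algebraMap Z Q z = q

/-- **OPP** (80 lines). `O''` is stable under `◁` and inverses; trivial actions.

PROOF. (1) `x ∈ O''`, `b ∈ O_l`: `(x ◁ h) b = S(h₁) x h₂ b = S(h₁) x (h₂ ▷ b) h₃
= S(h₁)(h₂ ▷ b) x h₃ = b S(h₁) x h₂ = b (x ◁ h)` (ADB (1), `h₂ ▷ b ∈ O_l` commutes with `x`, ADB (3)).
(2) obvious in a division ring. (3) If `Δ h = ∑ x_i ⊗ y_i` with all `ι(x_i) ∈ O''` and `q ∈ O_l` then
`h ▷ q = ∑ x_i q S(y_i) = q ∑ x_i S(y_i) = ε(h) q`. -/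
def SpecOPP : Prop :=
  ∀ (k : Type u) (H Z Q : Type v) [Field k] [Ring H] [HopfAlgebra k H] [Field Z] [Algebra k Z]
    [DivisionRing Q] [Algebra k Q] [Algebra Z Q] [IsScalarTower k Z Q] (ι : H →ₐ[k] Q),
    IsCQ k H Z Q ι →
    (∀ (h : H), ∀ x ∈ Opp k Z ι, adrQ k Z ι h x ∈ Opp k Z ι) ∧
    (∀ x ∈ Opp k Z ι, x⁻¹ ∈ Opp k Z ι) ∧
    ∀ (h : H) (n : ℕ) (x y : Fin n → H), comul (R := k) h = ∑ i, x i ⊗ₜ[k] y i →
      (∀ i, ι (x i) ∈ Opp k Z ι) → ∀ q ∈ Ol k Z ι, adlQ k Z ι h q = algebraMap k Q (counit h) * q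

/-- **NFA** (250 lines). Facts on `N`.

PROOF. Let `h ∈ N`, write `Δ h = ∑ x_i ⊗ y_i` with `k`-independent `y_i`. Commuting with `x ⊗ 1`,
`x ∈ O_l`, means `∑ (x ι(x_i) - ι(x_i) x) ⊗ y_i = 0`, so `ι(x_i) ∈ O''`. (a) `ι h = ∑ ε(y_i) ι(x_i) ∈ O''`.
(b) `(Δ ⊗ 1)Δ h = (1 ⊗ Δ)Δ h` commutes with `x ⊗ 1 ⊗ 1`; its first form is `∑ Δ(x_i) ⊗ y_i`, so each
`x_i ∈ N` (independence of the `y_i`). (c) criterion: `Δ y = ∑ x_i ⊗ y_i`, `ι(x_i) ∈ O''` implies `y ∈ N`.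
(d) `N ◁ H ⊆ N`: with `Δ n = n₁ ⊗ n₂`, `Δ(n ◁ h) = Δ(S h₁) Δ(n) Δ(h₂)
= S(h₂) n₁ h₃ ⊗ S(h₁) n₂ h₄ = (n₁ ◁ h₂) ⊗ S(h₁) n₂ h₃` (HAN), and `ι(n₁ ◁ h₂) ∈ O''` (OPP, (a) for the
`x_i ∈ N`); use (c). (e) `n ▷` is trivial on `O_l`: OPP (3). (f) `ι(n ◁ h) = ι(n) ◁ h`. (g) `c ∈ A₀`
satisfies `c ◁ h = ε(h) c`; conversely `n ∈ N` with `n ◁ h = ε(h) n` for all `h` is central:
`n h = h₁ (n ◁ h₂) = h n` (ADB (2)), so `n ∈ A₀`. -/
def SpecNFA : Prop :=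
  ∀ (k : Type u) (H Z Q : Type v) [Field k] [Ring H] [HopfAlgebra k H] [Field Z] [Algebra k Z]
    [DivisionRing Q] [Algebra k Q] [Algebra Z Q] [IsScalarTower k Z Q] (ι : H →ₐ[k] Q),
    IsCQ k H Z Q ι →
    (∀ h ∈ NN k Z ι, ι h ∈ Opp k Z ι) ∧
    (∀ h ∈ NN k Z ι, comul (R := k) h ∈ LinearMap.range (TensorProduct.map
      (NN k Z ι).val.toLinearMap (LinearMap.id : H →ₗ[k] H))) ∧
    (∀ (h : H) (n : ℕ) (x y : Fin n → H), comul (R := k) h = ∑ i, x i ⊗ₜ[k] y i →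
      (∀ i, ι (x i) ∈ Opp k Z ι) → h ∈ NN k Z ι) ∧
    (∀ (g : H), ∀ h ∈ NN k Z ι, adRH k H g h ∈ NN k Z ι) ∧
    (∀ h ∈ NN k Z ι, ∀ q ∈ Ol k Z ι, adlQ k Z ι h q = algebraMap k Q (counit h) * q) ∧
    (∀ g h : H, ι (adRH k H g h) = adrQ k Z ι g (ι h)) ∧
    (∀ c ∈ A0 k Z ι, ∀ g : H, adRH k H g c = counit (R := k) g • c) ∧
    ∀ c ∈ NN k Z ι, (∀ g : H, adRH k H g c = counit (R := k) g • c) → c ∈ A0 k Z ι

/-- **WEX** (100 lines). A finite-dimensional `▷`-stable space which generates `O_l` over `Z`.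

PROOF. `O_l` is a `Z`-subspace of the finite-dimensional `Q`; let `b_1, .., b_s` be a `Z`-basis,
`W = ∑ span_k (H ▷ b_l)`, finite-dimensional by OLF, `▷`-stable (`g ▷ (h ▷ b) = (gh) ▷ b`), contains
`b_l = 1 ▷ b_l`. Take a `k`-basis `w_j` of `W` and the coordinates `f_ij(h)` of `h ▷ w_j`. -/
def SpecWEX : Prop :=
  ∀ (k : Type u) (H Z Q : Type v) [Field k] [Ring H] [HopfAlgebra k H] [Field Z] [Algebra k Z]
    [DivisionRing Q] [Algebra k Q] [Algebra Z Q] [IsScalarTower k Z Q] (ι : H →ₐ[k] Q),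
    IsCQ k H Z Q ι →
    ∃ (r : ℕ) (W : Fin r → Q) (f : Fin r → Fin r → Module.Dual k H), LinearIndependent k W ∧
      (∀ j, W j ∈ Ol k Z ι) ∧ (∀ (h : H) (j : Fin r), adlQ k Z ι h (W j) = ∑ i, f i j h • W i) ∧
      ∀ q ∈ Ol k Z ι, q ∈ Submodule.span Z (Set.range W)

/-- **TQ** (250 lines). The matrix `T(h) = (f_ij(h₁) h₂)` extends to `Q`, linearly over `F₀`.

PROOF. (1) `Δ(h)(w_j ⊗ 1) = ∑_i (w_i ⊗ 1) Δ(T_ij(h))` in `Q ⊗ Q`: `h₁ w_j ⊗ h₂ = (h₁ ▷ w_j) h₂ ⊗ h₃`.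
(2) `∑_j (w_j ⊗ 1) Δ(v_j) = 0`, `v_j ∈ H`, implies `v_j = 0`: `q ⊗ h ↦ q h₁ ⊗ h₂` is bijective on
`Q ⊗ H` (inverse `q ⊗ h ↦ q S(h₁) ⊗ h₂`), so `∑ w_j ⊗ v_j = 0`. (3) `T : H → M_r(H)` is multiplicative
(from (1) and (2), or directly). For `0 ≠ c` central in `H` and `v ∈ H^r` with `T(c) v = 0`:
`Δ(c) ∑_j (w_j ⊗ 1) Δ(v_j) = 0`, so by REG and (2) `v = 0`. Hence `ι T(c) ∈ M_r(Q)` is injective on
`Q^r` (columns; common central right denominators), so invertible. (4) For `q = ι(c)⁻¹ ι(h)` put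
`T_Q(q) = T(c)⁻¹ T(h)`: well defined, additive and multiplicative (two fractions have a common central
denominator; `T(c)` commutes with `T(h)`), `T_Q(ι h) = ι T(h)`. (5) `F ∈ F₀`, `F = c⁻¹ h`: from
`Δ(c)(w_j ⊗ 1)Δ(h) = Δ(h)(w_j ⊗ 1)Δ(c)` and (1), (2): `T_ij(c) h = T_ij(h) c` in `H`, so
`T_ij(h) = T_ij(c) F` in `Q` (`F = h c⁻¹`), `T_Q(F) = F · 1`, and `T_Q(F q) = F T_Q(q)`. -/
def SpecTQ : Prop :=
  ∀ (k : Type u) (H Z Q : Type v) [Field k] [Ring H] [IsDomain H] [HopfAlgebra k H] [Field Z]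
    [Algebra k Z] [DivisionRing Q] [Algebra k Q] [Algebra Z Q] [IsScalarTower k Z Q]
    (ι : H →ₐ[k] Q), IsCQ k H Z Q ι →
    ∀ (r : ℕ) (W : Fin r → Q) (f : Fin r → Fin r → Module.Dual k H), LinearIndependent k W →
      (∀ j, W j ∈ Ol k Z ι) → (∀ (h : H) (j : Fin r), adlQ k Z ι h (W j) = ∑ i, f i j h • W i) →
    ∃ T : Fin r → Fin r → (Q →+ Q),
      (∀ i j (h : H), T i j (ι h) = ι (TensorProduct.lid k H ((f i j).rTensor H (comul h)))) ∧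
      ∀ (F : Z), InF0 k Z ι F → ∀ i j (q : Q),
        T i j (algebraMap Z Q F * q) = algebraMap Z Q F * T i j q

/-- **KFD** (300 lines). `[Z : F₀] < ∞` gives a two-sided ideal and coideal `J` of finite codimension which
kills `O_l` and contains `N⁺`.

PROOF. `W`, `f_ij` (WEX), `T_ij : Q → Q` (TQ), `F₀`-linear. `K ⊆ H*` := the subalgebra generated by the
`f_ij` for the convolution product `(g * g')(h) = g(h₁) g'(h₂)` (unit `ε`). For `g ∈ H*` put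
`t_g(h) = g(h₁) h₂`. (1) For `g ∈ K` there is an additive `F₀`-linear `t_g^Q : Q → Q` with
`t_g^Q(ι h) = ι(t_g h)`: true for the `f_ij`, and `t_{g * g'} = t_{g'} ∘ t_g`. (2) If
`g_1, .., g_s ∈ K` are `k`-independent and `∑ q_a t_{g_a}^Q = 0` then `q_a = 0`: for `h ∈ H`,
`∑ q_a g_a(h₁) h₂ = 0`; apply this to the first leg of `Δ` and multiply by `S` of the second:
`0 = ∑ q_a g_a(h₁) h₂ S(h₃) = ∑ q_a g_a(h)`. (3) So the `t_{g_a}^Q` are left `Q`-independent in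
`Hom_{F₀}(Q, Q)`, of left `Q`-dimension `[Q : F₀] = [Q : Z][Z : F₀]`: `s ≤ [Q : F₀]`, `dim_k K < ∞`.
(4) `K` is closed under `g ↦ g(a ·)` and `g ↦ g(· a)`: for `f_ij(ab) = ∑ f_il(a) f_lj(b)` (ADA), and
`(g * g')(a b) = g(a₁ b₁) g'(a₂ b₂)`. (5) `J = {h : g(h) = 0 for all g ∈ K}`: two-sided by (4); `H / J`
embeds in the dual of `K`; `K → (H / J)*` is bijective (`K` separates points of the finite-dimensional
`H / J`), and `(g ⊗ g')(Δ x) = (g * g')(x) = 0` for `x ∈ J`, so `(π ⊗ π)Δ x = 0`; `ε ∈ K`. (6) `J` kills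
the `w_j` (coordinates `f_ij`) and so `O_l = Z W` (`adlQ` is `Z`-linear). (7) `n ∈ N`: `n ▷ w_j = ε(n) w_j`
(NFA), so `f_ij(n) = ε(n) δ_ij = ε(n) f_ij(1)`, and by NFA (b) `(g * g')(n) = g(n₁) g'(n₂)
= g(1) ε(n₁) g'(n₂)`: `g(n) = ε(n) g(1)` for `g ∈ K`. So `ε(n) = 0` implies `n ∈ J`. -/
def SpecKFD : Prop :=
  ∀ (k : Type u) (H Z Q : Type v) [Field k] [Ring H] [IsDomain H] [HopfAlgebra k H] [Field Z]
    [Algebra k Z] [DivisionRing Q] [Algebra k Q] [Algebra Z Q] [IsScalarTower k Z Q]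
    (ι : H →ₐ[k] Q), IsCQ k H Z Q ι → HF0 k Z ι →
    ∃ J : Ideal H, J.IsTwoSided ∧ (J.restrictScalars k).IsCoideal ∧ Module.Finite k (H ⧸ J) ∧
      (∀ h ∈ J, ∀ q ∈ Ol k Z ι, adlQ k Z ι h q = 0) ∧
      ∀ n ∈ NN k Z ι, counit (R := k) n = 0 → n ∈ J

/-- **BID** (150 lines). A two-sided ideal and coideal `J` of finite codimension is a Hopf ideal.

PROOF. `U = H / J` is a finite-dimensional bialgebra, `π : H → U`. `β_H(h ⊗ g) = h₁ ⊗ h₂ g` on `H ⊗ H`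
is bijective with inverse `h ⊗ g ↦ h₁ ⊗ S(h₂) g`; `β_U (π ⊗ π) = (π ⊗ π) β_H`, so `β_U` is surjective,
hence bijective. So `(π ⊗ π) β_H(t) = 0` implies `(π ⊗ π) t = 0`. For `h ∈ J`, `t = h₁ ⊗ S(h₂)`:
`β_H(t) = h ⊗ 1`, so `(π ⊗ π)(h₁ ⊗ S(h₂)) = 0`; apply `ε_U ⊗ 1`: `π(S h) = 0`. -/
def SpecBID : Prop :=
  ∀ (k : Type u) (H : Type v) [Field k] [Ring H] [HopfAlgebra k H] (J : Ideal H) [J.IsTwoSided],
    (J.restrictScalars k).IsCoideal → Module.Finite k (H ⧸ J) → J.IsHopfIdeal k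

/-- **NHN** (150 lines). `H` is a finitely generated right module over `N`.

PROOF. `N̂ = {y : π(y₁) ⊗ y₂ = 1 ⊗ y}`. (i) `N̂ ⊆ N`: for `q ∈ O_l`, `y q = (y₁ ▷ q) y₂` (ADB (1)), and
`(a, b) ↦ (a ▷ q) b` factors through `H / J ⊗ H`, so `y q = (1 ▷ q) y = q y`: `ι y ∈ O''`. Write
`Δ y = ∑ x_i ⊗ y_i` with independent `y_i`; by coassociativity `∑ (π ⊗ 1)Δ(x_i) ⊗ y_i
= ∑ (1 ⊗ x_i) ⊗ y_i`, so `x_i ∈ N̂`, `ι(x_i) ∈ O''`, so `y ∈ N` (NFA (c)). (ii) SpecKTK. -/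
def SpecNHN : Prop :=
  ∀ (k : Type u) (H Z Q : Type v) [Field k] [Ring H] [HopfAlgebra k H] [Field Z] [Algebra k Z]
    [DivisionRing Q] [Algebra k Q] [Algebra Z Q] [IsScalarTower k Z Q] (ι : H →ₐ[k] Q),
    IsCQ k H Z Q ι → Function.Bijective (antipode k (A := H)) →
    ∀ (J : Ideal H) [J.IsTwoSided] [J.IsHopfIdeal k], Module.Finite k (H ⧸ J) →
      (∀ h ∈ J, ∀ q ∈ Ol k Z ι, adlQ k Z ι h q = 0) →
      (∀ y : H, TensorProduct.map (Ideal.Quotient.mkₐ k J).toLinearMap (LinearMap.id : H →ₗ[k] H)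
        (comul (R := k) y) = 1 ⊗ₜ[k] y → y ∈ NN k Z ι) ∧
      ∃ (n : ℕ) (g : Fin n → H), ∀ a : H, ∃ c : Fin n → H, (∀ i, c i ∈ NN k Z ι) ∧
        a = ∑ i, g i * c i

/-- **DNS** (200 lines). Density: every `Z`-linear endomorphism of `O''` is `x ↦ ∑ (x ◁ h_j) b_j`.

PROOF. `M = O''`, a finite-dimensional `Z`-space. `𝓡` = set of the operators `x ↦ ∑ (x ◁ h_j) b_j`,
`b_j ∈ O''`: closed under sums and composition (`((x ◁ h) b) ◁ h' = (x ◁ h h'₁)(b ◁ h'₂)`, ADA), contains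
the right multiplications, maps `M` to `M` (OPP). An `𝓡`-submodule `≠ 0` of `M` is `M` (`O''` is a
division ring). A map `φ : M → M` commuting with `𝓡` is `φ(x) = c x`, `c = φ(1)`, and
`c ◁ h = φ(1) ◁ h = φ(1 ◁ h) = ε(h) c`, so `c ∈ Z` (OLF). Either use `jacobson_density`
(Mathlib.RingTheory.SimpleModule.Basic) or the induction: if `W₀` is a `Z`-subspace, `y ∉ W₀`, then some
`T ∈ 𝓡` kills `W₀` and not `y` (`W₀ = W₁ + Z w`, `L = {T : T W₁ = 0}`, `L w = M`; if `T w = 0 ⇒ T y = 0` on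
`L` then `T w ↦ T y` is `φ(x) = z x`, `z ∈ Z`, so `L (y - z w) = 0`, `y - z w ∈ W₁`). For a basis
`x_1, .., x_m` get `T_i` with `T_i x_j = 0` (`j ≠ i`), `T_i x_i ≠ 0`, multiply on the right to reach any
value. -/
def SpecDNS : Prop :=
  ∀ (k : Type u) (H Z Q : Type v) [Field k] [Ring H] [HopfAlgebra k H] [Field Z] [Algebra k Z]
    [DivisionRing Q] [Algebra k Q] [Algebra Z Q] [IsScalarTower k Z Q] (ι : H →ₐ[k] Q),
    IsCQ k H Z Q ι → ∀ φ : ↥(Opp k Z ι) →ₗ[Z] ↥(Opp k Z ι),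
    ∃ (n : ℕ) (h : Fin n → H) (b : Fin n → ↥(Opp k Z ι)), ∀ x : ↥(Opp k Z ι),
      ((φ x : ↥(Opp k Z ι)) : Q) = ∑ j, adrQ k Z ι (h j) (x : Q) * (b j : Q)

section
variable (k : Type u) (Z : Type v) {H Q : Type v} [Field k] [Ring H] [HopfAlgebra k H]
  [Field Z] [Algebra k Z] [DivisionRing Q] [Algebra k Q] [Algebra Z Q] [IsScalarTower k Z Q]
  (ι : H →ₐ[k] Q) {AA : Type w} {P : Type v} [Ring AA] [Algebra k AA] [Field P] [Algebra k P]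

/-- Coordinates in `P` of the elements of `tt`: all `(φ ⊗ 1) ψ(ι n)`, `n ∈ tt`, `φ ∈ AA*`. -/
def SS (ψ : ↥(Opp k Z ι) →ₐ[k] AA ⊗[k] P) (tt : Submodule k H) : Set P :=
  {p | ∃ (x : ↥(Opp k Z ι)) (n : H) (φ : AA →ₗ[k] k), n ∈ tt ∧ (x : Q) = ι n ∧
    p = TensorProduct.lid k P (φ.rTensor P (ψ x))}

/-- The `k`-span of all products of at least one element of `SS`. -/
def TP (ψ : ↥(Opp k Z ι) →ₐ[k] AA ⊗[k] P) (tt : Submodule k H) : Submodule k P :=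
  Submodule.span k {p | ∃ l : List P, l ≠ [] ∧ (∀ s ∈ l, s ∈ SS k Z ι ψ tt) ∧ p = l.prod}

end

/-- **COO** (200 lines). Every `k`-linear endomorphism of `AA` is `a ↦ ∑ (a ◁ h_j) b_j`.

PROOF. Let `m = dim_k AA = [O'' : Z]`. (1) Let `x_i` be a `Z`-basis of `O''`; the `ψ(x_i)` span the
`P`-space `AA ⊗ P` of dimension `m` (field `span`, `ψ(z x) = ψ(x)(1 ⊗ z)` by `psiZ`), so they are a
`P`-basis. (2) Every `P`-linear endomorphism of `AA ⊗ P` is a `P`-combination of those which extend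
`Z`-linear endomorphisms of `O''`; by DNS and `psiH` these are `y ↦ ∑ (ρ(h_j) ⊗ 1)(y) ψ(b_j)`, and
`ψ(b_j) = ∑ a_l ⊗ p_l`. So with `E ⊆ End_k(AA)` the span of the maps `a ↦ ρ(h)(a) b`, the `P`-span of
`{e ⊗ 1 : e ∈ E}` is `End_P(AA ⊗ P)`. Hence `E = End_k(AA)`: compare dimensions, or take a linear
functional on `End_k(AA)` which kills `E` and extend it to `P`. -/
def SpecCOO : Prop :=
  ∀ (k : Type u) (H Z Q : Type v) [Field k] [Ring H] [HopfAlgebra k H] [Field Z] [Algebra k Z]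
    [DivisionRing Q] [Algebra k Q] [Algebra Z Q] [IsScalarTower k Z Q] (ι : H →ₐ[k] Q),
    IsCQ k H Z Q ι →
    ∀ (AA : Type w) (P : Type v) [Ring AA] [Algebra k AA] [Field P] [Algebra k P] [Algebra Z P]
      [IsScalarTower k Z P] (ρ : H →ₗ[k] Module.End k AA) (ψ : ↥(Opp k Z ι) →ₐ[k] AA ⊗[k] P)
      (θ : (P ≃ₐ[Z] P) → (AA ≃ₐ[k] AA)), CPkg k Z ι ρ ψ θ → ∀ φ : AA →ₗ[k] AA,
    ∃ (n : ℕ) (h : Fin n → H) (b : Fin n → AA), ∀ a : AA, φ a = ∑ j, ρ (h j) a * b j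

/-- **AGK** (200 lines). `θ` is an antihomomorphism and the sum of the conjugates of `a ∈ AA` lies in `k`
(`k` algebraically closed).

PROOF. (1) `(id ⊗ γδ)ψ = (id ⊗ γ)(θ_δ ⊗ id)ψ = (θ_δ ⊗ id)(id ⊗ γ)ψ = (θ_δ θ_γ ⊗ id)ψ` on `O''`; both
`θ_{γδ} ⊗ id` and `θ_δ θ_γ ⊗ id` are `P`-linear and `ψ(O'')` spans `AA ⊗ P`, so
`θ_{γδ} = θ_δ θ_γ`. (2) `s = ∑_γ θ_γ(a)` is fixed by every `θ_δ`. (3) Let `a` be fixed by every `θ_γ`.
Write `a ⊗ 1 = ∑ ψ(x_i)(1 ⊗ p_i)`, `x_i` a `Z`-basis of `O''` (then `ψ(x_i)` is a `P`-basis of `AA ⊗ P`).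
Apply `(θ_γ⁻¹ ⊗ id)(id ⊗ γ)`, which fixes `ψ(x_i)` and `a ⊗ 1`: `γ p_i = p_i` for all `γ`, so `p_i ∈ Z`
(Galois), `a ⊗ 1 = ψ(x)`. (4) The set `B` of all fixed `a` is a finite-dimensional `k`-subalgebra of `AA`
and `a ↦ x` embeds it in the division ring `O''` (`ψ` is injective, `AA ≠ 0`). So `B` has no zero
divisors, is algebraic over the algebraically closed field `k`: `B = k`. -/
def SpecAGK : Prop :=
  ∀ (k : Type u) (H Z Q : Type v) [Field k] [IsAlgClosed k] [Ring H] [HopfAlgebra k H] [Field Z]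
    [Algebra k Z] [DivisionRing Q] [Algebra k Q] [Algebra Z Q] [IsScalarTower k Z Q]
    (ι : H →ₐ[k] Q), IsCQ k H Z Q ι →
    ∀ (AA : Type w) (P : Type v) [Ring AA] [Algebra k AA] [Field P] [Algebra k P] [Algebra Z P]
      [IsScalarTower k Z P] (ρ : H →ₗ[k] Module.End k AA) (ψ : ↥(Opp k Z ι) →ₐ[k] AA ⊗[k] P)
      (θ : (P ≃ₐ[Z] P) → (AA ≃ₐ[k] AA)), CPkg k Z ι ρ ψ θ →
    (∀ (γ δ : P ≃ₐ[Z] P) (a : AA), θ (γ * δ) a = θ δ (θ γ a)) ∧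
    ∀ [Fintype (P ≃ₐ[Z] P)] (a : AA), ∃ c : k, ∑ γ : P ≃ₐ[Z] P, θ γ a = algebraMap k AA c

/-- **ICA** (200 lines). Descent: an element of `Z` which lies in `TP(tt)` lies in `tt`.

PROOF. Let `Y` be the `k`-span of all `ψ(ι n)(b ⊗ 1)`, `n ∈ tt`, `b ∈ AA`. (1) For `s ∈ SS(tt)`,
`s = (φ ⊗ 1)ψ(ι n)`: `1 ⊗ s ∈ Y`. Indeed COO for `a ↦ φ(a) 1`: `φ(a) 1 = ∑ ρ(h_j)(a) b_j`, so
`1 ⊗ s = ∑ (ρ(h_j) ⊗ 1)(ψ(ι n))(b_j ⊗ 1) = ∑ ψ(ι(n ◁ h_j))(b_j ⊗ 1)` (`psiH`, NFA (f)) and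
`n ◁ h_j ∈ tt`. (2) `Y (1 ⊗ s) ⊆ Y` for `s ∈ SS(tt)`: `1 ⊗ s` is central, and
`ψ(ι n')(b ⊗ 1)(1 ⊗ s) = ψ(ι n')(1 ⊗ s)(b ⊗ 1) = ∑ ψ(ι(n' (n ◁ h_j)))(b_j b ⊗ 1)`. So
`1 ⊗ TP ⊆ Y`. (3) Let `z ∈ Z`, `z ∈ TP`: `ψ(z) = 1 ⊗ z = ∑_j ψ(ι n_j)(b_j ⊗ 1)`. For `γ ∈ Gal(P/Z)` apply
`id ⊗ γ` (fixes `1 ⊗ z`), use `thP`, then apply `θ_γ⁻¹ ⊗ id`:
`1 ⊗ z = ∑_j ψ(ι n_j)(θ_γ⁻¹(b_j) ⊗ 1)`. Sum over `γ` (AGK: `θ_γ⁻¹ = θ_{γ⁻¹}`,
`∑_γ θ_γ⁻¹(b_j) = β_j ∈ k`): `|G| ψ(z) = ψ(ι(∑ β_j n_j))`. `char k = 0` and `ψ` is injective. -/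
def SpecICA : Prop :=
  ∀ (k : Type u) (H Z Q : Type v) [Field k] [IsAlgClosed k] [CharZero k] [Ring H]
    [HopfAlgebra k H] [Field Z] [Algebra k Z] [DivisionRing Q] [Algebra k Q] [Algebra Z Q]
    [IsScalarTower k Z Q] (ι : H →ₐ[k] Q), IsCQ k H Z Q ι →
    ∀ (AA : Type w) (P : Type v) [Ring AA] [Algebra k AA] [Field P] [Algebra k P] [Algebra Z P]
      [IsScalarTower k Z P] (ρ : H →ₗ[k] Module.End k AA) (ψ : ↥(Opp k Z ι) →ₐ[k] AA ⊗[k] P)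
      (θ : (P ≃ₐ[Z] P) → (AA ≃ₐ[k] AA)), CPkg k Z ι ρ ψ θ →
    ∀ tt : Submodule k H, NIdl k Z ι tt → ∀ z : Z, algebraMap Z P z ∈ TP k Z ι ψ tt →
      ∃ x ∈ tt, ι x = algebraMap Z Q z

/-- Integrality with coefficients in the ideal `tt` of `N`: every square matrix with entries in `tt`
satisfies a monic equation of degree `r d` whose other coefficients lie in `tt` and are central. -/
def ICH (k : Type u) (Z : Type v) {H Q : Type v} [Field k] [Ring H] [HopfAlgebra k H]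
    [Field Z] [Algebra k Z] [DivisionRing Q] [Algebra k Q] [Algebra Z Q] [IsScalarTower k Z Q]
    (ι : H →ₐ[k] Q) (tt : Submodule k H) : Prop :=
  ∀ (r : ℕ) (T : Matrix (Fin r) (Fin r) H), (∀ i j, T i j ∈ tt) →
    ∃ c : Fin (r * Module.finrank Z ↥(Opp k Z ι)) → H, (∀ s, c s ∈ tt ∧ Cent (c s)) ∧
      T ^ (r * Module.finrank Z ↥(Opp k Z ι)) + ∑ s, c s • T ^ (s : ℕ) = 0

/-- **ICB** (250 lines). Integrality with coefficients in the ideal `tt`.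

PROOF. `L_T : (O'')^r → (O'')^r`, `v ↦ (∑_j ι(T_ij) v_j)_i` (NFA (a)), `Z`-linear, `χ` its characteristic
polynomial, monic of degree `r [O'' : Z]`. Base change along `Z → P`: with `x_l` a `Z`-basis of `O''`,
`ψ(x_l)` is a `P`-basis of `AA ⊗ P` (COO (1)), so `χ` (mapped to `P`) is the characteristic polynomial of
`v ↦ (∑_j ψ(ι T_ij) v_j)_i` on `(AA ⊗ P)^r` over `P`, which can be computed in the basis `a_l ⊗ 1`, `a_l` a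
`k`-basis of `AA`: if `ψ(ι T_ij) = ∑_s a_s ⊗ p_s` and `a_s a_l' = ∑_l C_l a_l`, `C_l ∈ k`, the entries of
the matrix `M` are `k`-combinations of the `p_s ∈ SS(tt)`. Let `R₀ = Algebra.adjoin k SS(tt) ⊆ P` and `I`
the ideal of `R₀` generated by `SS(tt)`; `M` has entries in `I`, so all coefficients of `χ` except the
leading one lie in `I` (`Matrix.coeff_charpoly_mem_ideal_pow`), and `I = TP(tt)` as a set. By ICA they
are `ι(x_s)`, `x_s ∈ tt`, central in `H` as `ι(x_s) ∈ Z`. Cayley–Hamilton: `χ(L_T) = 0`; evaluate at the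
standard vectors `e_j` (`1 ∈ O''`): `T^m + ∑ x_s T^s = 0` (`ι` injective). -/
def SpecICB : Prop :=
  ∀ (k : Type u) (H Z Q : Type v) [Field k] [IsAlgClosed k] [CharZero k] [Ring H]
    [HopfAlgebra k H] [Field Z] [Algebra k Z] [DivisionRing Q] [Algebra k Q] [Algebra Z Q]
    [IsScalarTower k Z Q] (ι : H →ₐ[k] Q), IsCQ k H Z Q ι →
    ∀ (AA : Type w) (P : Type v) [Ring AA] [Algebra k AA] [Field P] [Algebra k P] [Algebra Z P]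
      [IsScalarTower k Z P] (ρ : H →ₗ[k] Module.End k AA) (ψ : ↥(Opp k Z ι) →ₐ[k] AA ⊗[k] P)
      (θ : (P ≃ₐ[Z] P) → (AA ≃ₐ[k] AA)), CPkg k Z ι ρ ψ θ →
    ∀ tt : Submodule k H, NIdl k Z ι tt → ICH k Z ι tt

/-- **CST** (150 lines). `N` has no proper nonzero `◁`-stable ideal which is a right coideal.

PROOF. Let `tt ≠ 0` be one. `ε(tt) ≠ 0`: for `x ∈ tt`, `x = ε(x₁) x₂` with `x₁ ∈ tt`. For `x ∈ tt` with
`ε(x) = 1`: `S⁻¹(x₂) x₁ = ε(x) 1 = 1` (apply `S`: `S(x₁) x₂ = ε(x)`), so `1 = ∑_l h_l τ_l`, `τ_l ∈ tt`.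
Hypothesis: `H = ∑ g_i N`. So `g_j = ∑_l (g_j h_l) τ_l = ∑_i g_i T_ij`, `T_ij ∈ tt` (write
`g_j h_l = ∑_i g_i n_ijl`). As row vectors `g = g T`, so `g = g T^s`. ICH: `T^m + ∑ c_s T^s = 0`; hence
`0 = g T^m + ∑ c_s g T^s = (1 + ∑ c_s) g` (`c_s` central). Some `g_j ≠ 0` (`1 ∈ H = ∑ g_i N`), `H` is a
domain: `1 = - ∑ c_s ∈ tt`. -/
def SpecCST : Prop :=
  ∀ (k : Type u) (H Z Q : Type v) [Field k] [Ring H] [IsDomain H] [HopfAlgebra k H] [Field Z]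
    [Algebra k Z] [DivisionRing Q] [Algebra k Q] [Algebra Z Q] [IsScalarTower k Z Q]
    (ι : H →ₐ[k] Q), IsCQ k H Z Q ι → Function.Bijective (antipode k (A := H)) →
    (∃ (n : ℕ) (g : Fin n → H), ∀ a : H, ∃ c : Fin n → H, (∀ i, c i ∈ NN k Z ι) ∧
        a = ∑ i, g i * c i) →
    ∀ tt : Submodule k H, NIdl k Z ι tt → ICH k Z ι tt → tt ≠ ⊥ →
      (∀ x ∈ tt, comul (R := k) x ∈ LinearMap.range (TensorProduct.map tt.subtype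
        (LinearMap.id : H →ₗ[k] H))) → (1 : H) ∈ tt

/-- **RET** (300 lines). `N` is a direct summand: there is a left `N`-linear `E : H → N` with `E(1) = 1`.

PROOF. `U = H / J` (a finite-dimensional Hopf algebra), `π`, SpecINT: `t_i ∈ U*`, `Λ_i ∈ U`,
`t_i(v₁) v₂ = t_i(v) 1`, `∑ t_i(Λ_i v) = ε(v)`. `T_i(a) := t_i(π(a₁)) a₂`. (1) `T_i(a) ∈ N̂ ⊆ N` (NHN):
`π(T_i(a)₁) ⊗ T_i(a)₂ = t_i(π(a₁)) π(a₂) ⊗ a₃ = 1 ⊗ T_i(a)`. (2) For `n ∈ N`: `π(n₁) ⊗ n₂ = 1 ⊗ n`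
(NFA (b): `n₁ ∈ N`, and `n₁ - ε(n₁) ∈ N⁺ ⊆ J`), so `T_i(n a) = n T_i(a)`, `T_i(a n) = T_i(a) n`.
(3) `t₀ := ∑ T_i(H)` is a two-sided ideal of `N`, a right coideal (`Δ(T_i(a)) = T_i(a₁) ⊗ a₂`) and `≠ 0`
(otherwise `t_i(π(a)) = ε(T_i(a)) = 0` for all `a`). (4) `t₁ := {x ∈ t₀ : x ◁ g ∈ t₀ for all g}` is an
ideal of `N` (`(n x) ◁ g = (n ◁ g₁)(x ◁ g₂)`, NFA (d)), `◁`-stable, and a right coideal: let
`Δ x = ∑ x_i ⊗ y_i`, `y_i` independent; `∑ (x_i ◁ g) ⊗ y_i = (1 ⊗ g₁) Δ(x ◁ g₂) (1 ⊗ S(g₃)) ∈ t₀ ⊗ H`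
(computation NFA (d)), so `x_i ◁ g ∈ t₀`. (5) `t₁ ≠ 0`: let `0 ≠ x ∈ t₀`; ICH for `tt = N`, `r = 1`:
`∑_{s ≤ m} c_s x^s = 0`, `c_m = 1`, `c_s ∈ A₀`; let `s` be minimal with `c_s ≠ 0`; `s < m`; cancel `x^s`:
`c_s = - ∑_{j > s} c_j x^(j-s) ∈ t₀`, nonzero, `c_s ◁ g = ε(g) c_s` (NFA (g)), so `c_s ∈ t₁`.
(6) CST: `1 ∈ t₁ ⊆ t₀`, `1 = ∑ T_i(u_i)`. `E(x) := ∑ T_i(x u_i)`. -/
def SpecRET : Prop :=
  ∀ (k : Type u) (H Z Q : Type v) [Field k] [Ring H] [IsDomain H] [HopfAlgebra k H] [Field Z]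
    [Algebra k Z] [DivisionRing Q] [Algebra k Q] [Algebra Z Q] [IsScalarTower k Z Q]
    (ι : H →ₐ[k] Q), IsCQ k H Z Q ι → Function.Bijective (antipode k (A := H)) →
    (∀ tt : Submodule k H, NIdl k Z ι tt → ICH k Z ι tt) →
    ∀ (J : Ideal H) [J.IsTwoSided] [J.IsHopfIdeal k], Module.Finite k (H ⧸ J) →
      (∀ h ∈ J, ∀ q ∈ Ol k Z ι, adlQ k Z ι h q = 0) →
      (∀ n ∈ NN k Z ι, counit (R := k) n = 0 → n ∈ J) →
    ∃ E : H →ₗ[k] H, (∀ x, E x ∈ NN k Z ι) ∧ (∀ n ∈ NN k Z ι, ∀ x, E (n * x) = n * E x) ∧ E 1 = 1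

/-- **REY** (150 lines). A Reynolds element `e ∈ H`: `n ◁ e ∈ A₀` for `n ∈ N`, `1 ◁ e = 1`.

PROOF. `G = Gal(P/Z)`. `r(a) := |G|⁻¹ ∑_γ θ_γ(a) ∈ k` (AGK). By COO for `a ↦ r(a) 1`:
`r(a) 1 = ∑_j ρ(h_j)(a) b_j`. Replace `a` by `θ_γ⁻¹(a)` and apply `θ_γ` (`r(θ_γ⁻¹ a) = r(a)`, `thH`):
`r(a) 1 = ∑ ρ(h_j)(a) θ_γ(b_j)`; average over `γ`: `r(a) 1 = ρ(e)(a)`, `e = ∑ r(b_j) h_j`. For `n ∈ N`,
`ψ(ι n) = ∑ a_l ⊗ p_l`: `ψ(ι(n ◁ e)) = ∑ r(a_l) 1 ⊗ p_l = 1 ⊗ p` (`psiH`), and `ρ(h)(1) = ε(h) 1` (apply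
`psiH` to `x = 1`), so `ψ(ι((n ◁ e) ◁ h)) = ε(h) ψ(ι(n ◁ e))`, `ψ` is injective: `(n ◁ e) ◁ h = ε(h)(n ◁ e)`, so
`n ◁ e ∈ A₀` (NFA (d), (g)). `1 ◁ e = ε(e) 1` and `ε(e) 1 = ρ(e)(1) = r(1) 1 = 1`. -/
def SpecREY : Prop :=
  ∀ (k : Type u) (H Z Q : Type v) [Field k] [IsAlgClosed k] [CharZero k] [Ring H]
    [HopfAlgebra k H] [Field Z] [Algebra k Z] [DivisionRing Q] [Algebra k Q] [Algebra Z Q]
    [IsScalarTower k Z Q] (ι : H →ₐ[k] Q), IsCQ k H Z Q ι →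
    ∀ (AA : Type w) (P : Type v) [Ring AA] [Algebra k AA] [Field P] [Algebra k P] [Algebra Z P]
      [IsScalarTower k Z P] (ρ : H →ₗ[k] Module.End k AA) (ψ : ↥(Opp k Z ι) →ₐ[k] AA ⊗[k] P)
      (θ : (P ≃ₐ[Z] P) → (AA ≃ₐ[k] AA)), CPkg k Z ι ρ ψ θ →
    ∃ e : H, adRH k H e 1 = 1 ∧ ∀ n ∈ NN k Z ι, adRH k H e n ∈ A0 k Z ι

/-- Every `n + 1` elements of `H` are linearly dependent over the subalgebra `A`. -/
def DepA {k : Type u} {H : Type v} [Field k] [Ring H] [Algebra k H] (A : Subalgebra k H) (n : ℕ) :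
    Prop :=
  ∀ x : Fin (n + 1) → H, ∃ c : Fin (n + 1) → H, (∀ i, c i ∈ A) ∧ (∃ i, c i ≠ 0) ∧
    ∑ i, c i * x i = 0

/-- **NUA** (200 lines; the proof of SpecNUM with `N₁` replaced by `A`). If every central `z ∈ H` is a root
of a monic polynomial of degree at most `B` over the central subalgebra `A`, then `DepA A n` for some `n`.

PROOF. `F = Frac(A) ⊆ Z`: the subfield of all `ι(a)/ι(b)`, `a, b ∈ A`, `b ≠ 0`. Every `z ∈ Z(H)` has degree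
`≤ B` over `F`. `char k = 0`, primitive elements with coefficients in the infinite field `k ⊆ F`:
`F(z, z') = F(z + c z')`, `c ∈ k`; so all finitely generated subextensions of `F(Z(H)) = Z` have degree
`≤ B`, `[Z : F] ≤ B`, `[Q : F] = [Q : Z][Z : F] =: n < ∞`; `n + 1` elements of `H` are `F`-dependent, clear
denominators. -/
def SpecNUA : Prop :=
  ∀ (k : Type u) (H Z Q : Type v) [Field k] [CharZero k] [Ring H] [IsDomain H]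
    [HopfAlgebra k H] [Field Z] [Algebra k Z] [DivisionRing Q] [Algebra k Q] [Algebra Z Q]
    [IsScalarTower k Z Q] (ι : H →ₐ[k] Q), IsCQ k H Z Q ι →
    ∀ A : Subalgebra k H, (∀ a ∈ A, Cent a) →
    (∃ B : ℕ, ∀ z : H, Cent z → ∃ m ≤ B, ∃ c : Fin m → H, (∀ i, c i ∈ A) ∧
      z ^ m + ∑ i, c i * z ^ (i : ℕ) = 0) →
    ∃ n : ℕ, DepA A n

/-- **FIN** (250 lines). The end: `H` is a finitely generated module over its centre.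

PROOF. `Φ(x) := E(x) ◁ e` maps `H` to `A₀`, `Φ(a x) = a Φ(x)` for `a ∈ A₀` (central), `Φ(1) = 1`. (1) `A₀` is
Noetherian: for an ideal `I` of `A₀`, `H I ∩ A₀ = I` (`x = ∑ h_i a_i ∈ A₀`:
`x = Φ(x) = ∑ a_i Φ(h_i)`), so `I ↦ H I` is strictly monotone into the left ideals of `H`. (2) Let
`H = ∑_{i ≤ r} g_i N`, `h ∈ H`: `h g_j = ∑_i g_i Y_ij`, `Y_ij ∈ N`, so `h^s g = g Y^s` as rows and ICH
(`tt = N`) gives `(h^m + ∑ c_s h^s) g_j = 0` for all `j`, `c_s ∈ A₀`; some `g_j ≠ 0`; so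
`h^m + ∑ c_s h^s = 0`, `m = r [O'' : Z]`. (3) NUA: `DepA A₀ n`. Choose a maximal `A₀`-independent family
`v_1, .., v_s ∈ H` (`s ≤ n`): for every `v ∈ H` there is `0 ≠ a ∈ A₀` with `a v ∈ ∑ A₀ v_j`. (4) The
`A₀`-linear map `H → A₀^s`, `h ↦ (Φ(h v_j))_j` is injective: let `h ≠ 0` with `Φ(h v_j) = 0` for all `j`. By
(2), cancelling powers of `h`, `h v = c` for some `v ∈ H`, `0 ≠ c ∈ A₀` (`c` = lowest nonzero coefficient;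
central). `a v = ∑ a_j v_j`, `0 ≠ a ∈ A₀`: `a c = a Φ(c) = Φ(h (a v)) = ∑ a_j Φ(h v_j) = 0`, a
contradiction. (5) So `H` is a submodule of a Noetherian `A₀`-module, finitely generated over `A₀`, hence
over its centre. -/
def SpecFIN : Prop :=
  ∀ (k : Type u) (H Z Q : Type v) [Field k] [CharZero k] [Ring H] [IsDomain H]
    [IsNoetherianRing H] [HopfAlgebra k H] [Field Z] [Algebra k Z] [DivisionRing Q] [Algebra k Q]
    [Algebra Z Q] [IsScalarTower k Z Q] (ι : H →ₐ[k] Q), IsCQ k H Z Q ι →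
    (∃ (n : ℕ) (g : Fin n → H), ∀ a : H, ∃ c : Fin n → H, (∀ i, c i ∈ NN k Z ι) ∧
        a = ∑ i, g i * c i) →
    (∀ tt : Submodule k H, NIdl k Z ι tt → ICH k Z ι tt) →
    (∃ E : H →ₗ[k] H, (∀ x, E x ∈ NN k Z ι) ∧ (∀ n ∈ NN k Z ι, ∀ x, E (n * x) = n * E x) ∧
      E 1 = 1) →
    (∃ e : H, adRH k H e 1 = 1 ∧ ∀ n ∈ NN k Z ι, adRH k H e n ∈ A0 k Z ι) →
    Module.Finite (Subalgebra.center k H) H

/-- **END** (60 lines; helper85). Assembly of the block. -/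
def SpecEND : Prop :=
  ∀ (k : Type u) (H Z Q : Type v) [Field k] [IsAlgClosed k] [CharZero k] [Ring H] [IsDomain H]
    [IsNoetherianRing H] [HopfAlgebra k H] [Field Z] [Algebra k Z] [DivisionRing Q] [Algebra k Q]
    [Algebra Z Q] [IsScalarTower k Z Q] (ι : H →ₐ[k] Q), IsCQ k H Z Q ι →
    Function.Bijective (antipode k (A := H)) → HF0 k Z ι →
    ∀ (AA : Type w) (P : Type v) [Ring AA] [Algebra k AA] [Field P] [Algebra k P] [Algebra Z P]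
      [IsScalarTower k Z P] (ρ : H →ₗ[k] Module.End k AA) (ψ : ↥(Opp k Z ι) →ₐ[k] AA ⊗[k] P)
      (θ : (P ≃ₐ[Z] P) → (AA ≃ₐ[k] AA)), CPkg k Z ι ρ ψ θ →
    Module.Finite (Subalgebra.center k H) H

end Pool.Agent.Lib.MP_c37a72_al.EG
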