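import Pool.Agent.Lib.MP_c37a72_al.SpecH

/-!
# MP_c37a72_al, block EG (endgame): definitions

`H ⊆ Q ⊇ Z` as in `IsCQ`. Left adjoint action `h ▷ q = h₁ q S(h₂)`, right adjoint action
`q ◁ h = S(h₁) q h₂` of `H` on `Q`; `Ol`, `Or` the locally finite parts, `Op = C_Q(Or)` (text: `O'`),
`Opp = C_Q(Ol)` (text: `O''`), `NN = {h : Δ(h) ∈ Opp ⊗ H}`, `A0 = NN ∩ Z(H)`.
-/

set_option autoImplicit false

open scoped TensorProduct
open Coalgebra HopfAlgebra

namespace Pool.Agent.Lib.MP_c37a72_al.EG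

universe u v w

section Defs

variable (k : Type u) (Z : Type v) {H Q : Type v} [Field k] [Ring H] [HopfAlgebra k H]
  [Field Z] [Algebra k Z] [DivisionRing Q] [Algebra k Q] [Algebra Z Q] [IsScalarTower k Z Q]

/-- `a ⊗ b ↦ (q ↦ a q b)`. -/
noncomputable def lrm : Q ⊗[k] Q →ₗ[k] Module.End Z Q :=
  TensorProduct.lift (LinearMap.mk₂ k
    (fun a b : Q => (LinearMap.mulRight Z b ∘ₗ LinearMap.mulLeft Z a : Q →ₗ[Z] Q))
    (fun a a' b => by ext x; simp [add_mul])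
    (fun c a b => by ext x; simp)
    (fun a b b' => by ext x; simp [mul_add])
    (fun c a b => by ext x; simp))

@[simp] theorem lrm_tmul (a b q : Q) : lrm k Z (a ⊗ₜ[k] b) q = a * q * b := by
  simp [lrm]

variable (ι : H →ₐ[k] Q)

/-- The left adjoint action `h ▷ q = h₁ q S(h₂)` of `H` on `Q`. -/
noncomputable def adlQ : H →ₗ[k] Module.End Z Q :=
  lrm k Z ∘ₗ (TensorProduct.map ι.toLinearMap (ι.toLinearMap ∘ₗ antipode k)) ∘ₗ comul

/-- The right adjoint action `q ◁ h = S(h₁) q h₂` of `H` on `Q` (as an operator: `adrQ h q`). -/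
noncomputable def adrQ : H →ₗ[k] Module.End Z Q :=
  lrm k Z ∘ₗ (TensorProduct.map (ι.toLinearMap ∘ₗ antipode k) ι.toLinearMap) ∘ₗ comul

theorem adlQ_eq {n : ℕ} {h : H} {x y : Fin n → H} (e : comul (R := k) h = ∑ i, x i ⊗ₜ[k] y i)
    (q : Q) : adlQ k Z ι h q = ∑ i, ι (x i) * q * ι (antipode k (y i)) := by
  simp [adlQ, e, LinearMap.sum_apply]

theorem adrQ_eq {n : ℕ} {h : H} {x y : Fin n → H} (e : comul (R := k) h = ∑ i, x i ⊗ₜ[k] y i)
    (q : Q) : adrQ k Z ι h q = ∑ i, ι (antipode k (x i)) * q * ι (y i) := by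
  simp [adrQ, e, LinearMap.sum_apply]

theorem adlQ_repr {J : Type*} {h : H} (r : Coalgebra.Repr k h J) (q : Q) :
    adlQ k Z ι h q = ∑ i ∈ r.index, ι (r.left i) * q * ι (antipode k (r.right i)) := by
  simp [adlQ, ← r.eq, LinearMap.sum_apply]

theorem adrQ_repr {J : Type*} {h : H} (r : Coalgebra.Repr k h J) (q : Q) :
    adrQ k Z ι h q = ∑ i ∈ r.index, ι (antipode k (r.left i)) * q * ι (r.right i) := by
  simp [adrQ, ← r.eq, LinearMap.sum_apply]

/-- `q` is locally finite for the left adjoint action. -/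
def LFl (q : Q) : Prop :=
  Module.Finite k (Submodule.span k (Set.range fun h : H => adlQ k Z ι h q))

/-- `q` is locally finite for the right adjoint action. -/
def LFr (q : Q) : Prop :=
  Module.Finite k (Submodule.span k (Set.range fun h : H => adrQ k Z ι h q))

/-- `O_l`: the subalgebra generated by (in fact, consisting of) the elements locally finite for the
left adjoint action. -/
noncomputable def Ol : Subalgebra Z Q := Algebra.adjoin Z {q : Q | LFl k Z ι q}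

/-- `O_r`: the same for the right adjoint action. -/
noncomputable def Or : Subalgebra Z Q := Algebra.adjoin Z {q : Q | LFr k Z ι q}

/-- `O' = C_Q(O_r)`. -/
noncomputable def Op : Subalgebra Z Q := Subalgebra.centralizer Z (Or k Z ι : Set Q)

/-- `O'' = C_Q(O_l)`. -/
noncomputable def Opp : Subalgebra Z Q := Subalgebra.centralizer Z (Ol k Z ι : Set Q)

/-- `h ↦ Δ(h)`, first leg in `Q`. -/
noncomputable def dl : H →ₐ[k] Q ⊗[k] H :=
  (Algebra.TensorProduct.map ι (AlgHom.id k H)).comp (Bialgebra.comulAlgHom k H)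

/-- `h ↦ Δ(h)`, both legs in `Q`. -/
noncomputable def dd : H →ₐ[k] Q ⊗[k] Q :=
  (Algebra.TensorProduct.map ι ι).comp (Bialgebra.comulAlgHom k H)

/-- `N = {h ∈ H : Δ(h) commutes with O_l ⊗ 1} = {h ∈ H : Δ(h) ∈ O'' ⊗ H}`. -/
noncomputable def NN : Subalgebra k H :=
  (Subalgebra.centralizer k ((fun x : Q => x ⊗ₜ[k] (1 : H)) '' (Ol k Z ι : Set Q))).comap (dl k ι)

/-- `A₀ = N ∩ Z(H)`. -/
noncomputable def A0 : Subalgebra k H := NN k Z ι ⊓ Subalgebra.center k H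

/-- `Δ(F)` commutes with `O_l ⊗ 1` (`F = c⁻¹ h ∈ Z`, no localisation needed: with `Δ(F) = Δ(c)⁻¹ Δ(h)
= Δ(h) Δ(c)⁻¹` this is `Δ(c) (x ⊗ 1) Δ(h) = Δ(h) (x ⊗ 1) Δ(c)`). -/
def InF0 (F : Z) : Prop :=
  ∃ c h : H, c ≠ 0 ∧ Cent c ∧ ι c * algebraMap Z Q F = ι h ∧
    ∀ x ∈ Ol k Z ι, dd k ι c * (x ⊗ₜ[k] 1) * dd k ι h = dd k ι h * (x ⊗ₜ[k] 1) * dd k ι c

/-- The hypothesis of the endgame: `[Z : F₀] < ∞` for a field `F₀` of elements `F` such that `Δ(F)`
commutes with `O_l ⊗ 1`. -/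
def HF0 : Prop :=
  ∃ F0 : IntermediateField k Z, Module.Finite F0 Z ∧ ∀ F ∈ F0, InF0 k Z ι F

end Defs

section RightAdjointOnH

variable (k : Type u) (H : Type v) [Field k] [Ring H] [HopfAlgebra k H]

/-- The right adjoint action of `H` on itself: `adRH h x = S(h₁) x h₂`. -/
noncomputable def adRH : H →ₗ[k] H →ₗ[k] H :=
  (TensorProduct.lift (LinearMap.mk₂ k
    (fun a b : H => LinearMap.mulRight k b ∘ₗ LinearMap.mulLeft k (antipode k a))
    (fun a a' b => by ext x; simp [add_mul])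
    (fun c a b => by ext x; simp)
    (fun a b b' => by ext x; simp [mul_add])
    (fun c a b => by ext x; simp))) ∘ₗ Coalgebra.comul

theorem adRH_eq {n : ℕ} {h : H} {x y : Fin n → H} (e : comul (R := k) h = ∑ i, x i ⊗ₜ[k] y i)
    (q : H) : adRH k H h q = ∑ i, antipode k (x i) * q * y i := by
  simp [adRH, e, LinearMap.sum_apply]

theorem adRH_repr {J : Type*} {h : H} (r : Coalgebra.Repr k h J) (q : H) :
    adRH k H h q = ∑ i ∈ r.index, antipode k (r.left i) * q * r.right i := by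
  simp [adRH, ← r.eq, LinearMap.sum_apply]

end RightAdjointOnH

section Structures

variable (k : Type u) (Z : Type v) {H Q : Type v} [Field k] [Ring H] [HopfAlgebra k H]
  [Field Z] [Algebra k Z] [DivisionRing Q] [Algebra k Q] [Algebra Z Q] [IsScalarTower k Z Q]
  (ι : H →ₐ[k] Q)

/-- `tt` is a two-sided ideal of `N`, stable under the right adjoint action. -/
structure NIdl (tt : Submodule k H) : Prop where
  le : ∀ x ∈ tt, x ∈ NN k Z ι
  mul : ∀ n ∈ NN k Z ι, ∀ x ∈ tt, n * x ∈ tt ∧ x * n ∈ tt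
  ad : ∀ h : H, ∀ x ∈ tt, adRH k H h x ∈ tt

/-- CONSTANCY PACKAGE. `AA` a finite-dimensional right `H`-module algebra over `k` (`ρ h a = a ◁ h`),
`P / Z` finite Galois, `ψ : O'' → AA ⊗ P` an `H`-equivariant homomorphism of algebras over `Z` which
induces `O'' ⊗_Z P ≅ AA ⊗_k P`, and `θ γ` the automorphism of `AA` which measures the failure of `ψ`
to be compatible with `γ`. -/
structure CPkg {AA : Type w} {P : Type v} [Ring AA] [Algebra k AA] [Field P] [Algebra k P] [Algebra Z P]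
    [IsScalarTower k Z P] (ρ : H →ₗ[k] Module.End k AA) (ψ : ↥(Opp k Z ι) →ₐ[k] AA ⊗[k] P)
    (θ : (P ≃ₐ[Z] P) → (AA ≃ₐ[k] AA)) : Prop where
  finA : Module.Finite k AA
  finP : Module.Finite Z P
  gal : IsGalois Z P
  rone : ρ 1 = 1
  rmul : ∀ g h : H, ρ (g * h) = ρ h * ρ g
  ralg : ∀ (h : H) (n : ℕ) (x y : Fin n → H), comul (R := k) h = ∑ i, x i ⊗ₜ[k] y i →
    ∀ a b : AA, ρ h (a * b) = ∑ i, ρ (x i) a * ρ (y i) b
  psiZ : ∀ z : Z, ψ (algebraMap Z ↥(Opp k Z ι) z) = 1 ⊗ₜ[k] algebraMap Z P z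
  psiH : ∀ (h : H) (x y : ↥(Opp k Z ι)), (y : Q) = adrQ k Z ι h x →
    ψ y = TensorProduct.map (ρ h) (LinearMap.id : P →ₗ[k] P) (ψ x)
  span : Submodule.span k {y : AA ⊗[k] P | ∃ x p, y = ψ x * (1 ⊗ₜ[k] p)} = ⊤
  dim : Module.finrank k AA = Module.finrank Z ↥(Opp k Z ι)
  thH : ∀ (γ : P ≃ₐ[Z] P) (h : H) (a : AA), θ γ (ρ h a) = ρ h (θ γ a)
  thP : ∀ (γ : P ≃ₐ[Z] P) (x : ↥(Opp k Z ι)),
    Algebra.TensorProduct.map (AlgHom.id k AA) (γ.toAlgHom.restrictScalars k) (ψ x) =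
      Algebra.TensorProduct.map ((θ γ).toAlgHom) (AlgHom.id k P) (ψ x)

end Structures

end Pool.Agent.Lib.MP_c37a72_al.EG
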